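import Pool.Agent.LIM.StB
import Pool.Agent.Collatz3.EXUp

/-!
# Limit law of the maximum excursion of the `3x+1` map: late excursions in one block

`thm_BLK`: model `EX.block_upper'` (Pool/Agent/Collatz3/EXUp.lean).
-/

set_option autoImplicit false

open Finset Filter Topology
open scoped Classical

namespace Pool.Agent.LIM

open Pool.Agent.Collatz3 (T3)
open Pool.Agent.Collatz3.LT
open Pool.Agent.Collatz3.EX (B od dl)

theorem thm_BLK (h : St_MAS) : St_BLK := by
  intro hS C ζ hC hζ0 hζ1 hCζ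
  have l2 := log2_pos
  have hdl := Pool.Agent.Collatz3.EX.dl_pos
  obtain ⟨c0, hc0⟩ : ∃ c0 : ℝ, c0 = 1 - ζ / 2 := ⟨_, rfl⟩
  rw [← hc0] at hCζ
  obtain ⟨θ', ε', θ0, δ₁, p1, p2, p3, p4, p5, p6, p7, p8, p9⟩ :=
    Pool.Agent.Collatz3.EX.exists_params hCζ
  obtain ⟨μ, hμ⟩ : ∃ μ : ℝ, μ = min (ζ / 2) δ₁ := ⟨_, rfl⟩
  have hμ0 : 0 < μ := by rw [hμ]; exact lt_min (by linarith) p6
  have hμ1 : μ ≤ ζ / 2 := by rw [hμ]; exact min_le_left _ _
  have hμ2 : μ ≤ δ₁ := by rw [hμ]; exact min_le_right _ _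
  obtain ⟨ε, hεd⟩ : ∃ ε : ℝ, ε = 3 / 4 * μ := ⟨_, rfl⟩
  have hε : 0 < ε := by rw [hεd]; positivity
  refine ⟨μ / 4, by positivity, by linarith, ?_⟩
  obtain ⟨C', hC'⟩ : ∃ C', C' = C * Real.log 2 := ⟨_, rfl⟩
  have hC0' : 0 < C' := by rw [hC']; positivity
  obtain ⟨κ, hκ⟩ : ∃ κ, κ = Real.log (3 / 2) := ⟨_, rfl⟩
  have hκ0 : 0 < κ := by rw [hκ]; exact Real.log_pos (by norm_num)
  rw [← hC', ← hκ] at p9
  obtain ⟨η, hη⟩ : ∃ η, η = ε * Real.log 2 / (4 * C') := ⟨_, rfl⟩
  have hη0 : 0 < η := by rw [hη]; positivity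
  obtain ⟨θ, t1, t2, t3⟩ := Pool.Agent.Collatz3.EX.exists_small_Lam hη0
  obtain ⟨A, hA0, hA⟩ := h hS θ θ' η ε' t1 t2 p1 p2 hη0 p3
  have hLθ := Lam_pos t2
  have hLθ' := Lam_pos p2
  -- constants
  obtain ⟨D, hD⟩ : ∃ D, D = 2 * C' + 3 := ⟨_, rfl⟩
  have hD2 : 2 ≤ D := by rw [hD]; linarith
  have hlD : 0 ≤ Real.log D := Real.log_nonneg (by linarith)
  obtain ⟨A', hA'⟩ : ∃ A', A' = max A 1 := ⟨_, rfl⟩
  have hA1 : 1 ≤ A' := by rw [hA']; exact le_max_right _ _
  have hlA : 0 ≤ Real.log A' := Real.log_nonneg hA1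
  obtain ⟨G, hG⟩ : ∃ G, G = Real.log 2 + (Lam θ' + ε') * (C' + Real.log 2 / κ) := ⟨_, rfl⟩
  have hG0 : 0 ≤ G := by rw [hG]; positivity
  obtain ⟨i0, hi0⟩ := Pool.Agent.Collatz3.UB.log_small (Real.log 4 + (Real.log A' + 7 * Real.log D + 4 * Real.log 2) +
    G + ε * Real.log 2 / 2) 7 (ε * Real.log 2 / 4)
    (by
      have : 0 ≤ Real.log 4 := Real.log_nonneg (by norm_num)
      positivity) (by norm_num) (by positivity)
  refine ⟨max i0 1, fun i hi q => ?_⟩
  have hi1 : 1 ≤ i := (le_max_right _ _).trans hi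
  have hsm := hi0 i ((le_max_left _ _).trans hi)
  obtain ⟨M, hM⟩ : ∃ M, M = 1 - μ := ⟨_, rfl⟩
  have hMε : 1 - μ / 4 = M + ε := by rw [hM, hεd]; ring
  rw [hMε, ← hC']
  obtain ⟨K, hK⟩ : ∃ K, K = ⌊C' * ((i : ℝ) + 1)⌋₊ := ⟨_, rfl⟩
  rw [← hK]
  have hi0' : (0 : ℝ) ≤ i := Nat.cast_nonneg i
  have hi1' : (1 : ℝ) ≤ i := by exact_mod_cast hi1
  have hKle : (K : ℝ) ≤ C' * (i + 1) := by rw [hK]; exact Nat.floor_le (by positivity)
  have hK0 : (0 : ℝ) ≤ K := Nat.cast_nonneg K
  obtain ⟨Y, hY⟩ : ∃ Y, Y = Real.exp (c0 * (i * Real.log 2)) := ⟨_, rfl⟩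
  obtain ⟨Z', hZ'⟩ : ∃ Z', Z' = Real.exp ((1 - ζ) * (i * Real.log 2)) := ⟨_, rfl⟩
  rw [← hc0, ← hY, ← hZ']
  have hY0 : 0 < Y := by rw [hY]; exact Real.exp_pos _
  have hZ'0 : 0 < Z' := by rw [hZ']; exact Real.exp_pos _
  have hlY : Real.log Y = c0 * (i * Real.log 2) := by rw [hY, Real.log_exp]
  have hlZ' : Real.log Z' = (1 - ζ) * (i * Real.log 2) := by rw [hZ', Real.log_exp]
  have hil : 0 < (i : ℝ) * Real.log 2 := by positivity
  have hZY : Z' < Y := by
    rw [hZ', hY]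
    apply Real.exp_lt_exp.2
    exact mul_lt_mul_of_pos_right (by rw [hc0]; linarith) hil
  obtain ⟨l0, hl0⟩ : ∃ l0, l0 = ⌈θ0 * (i : ℝ)⌉₊ := ⟨_, rfl⟩
  have hl0a : θ0 * i ≤ l0 := by rw [hl0]; exact Nat.le_ceil _
  have hl0b : (l0 : ℝ) ≤ θ0 * i + 1 := by rw [hl0]; exact (Nat.ceil_lt_add_one (by positivity)).le
  have hKK : (0 : ℝ) < (K : ℝ) + 1 := by positivity
  obtain ⟨Z, hZ⟩ : ∃ Z : ℝ, Z = 2 ^ (i + 1) * ((K : ℝ) + 1) ^ 2 := ⟨_, rfl⟩
  obtain ⟨Zs, hZs⟩ : ∃ Zs : ℝ, Zs = Z' * ((K : ℝ) + 1) ^ 2 := ⟨_, rfl⟩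
  have hZ0 : 0 < Z := by rw [hZ]; positivity
  have hZs0 : 0 < Zs := by rw [hZs]; positivity
  have hlZ : Real.log Z = (i + 1) * Real.log 2 + 2 * Real.log ((K : ℝ) + 1) := by
    rw [hZ, Real.log_mul (by positivity) (by positivity), Real.log_pow, Real.log_pow]
    push_cast
    ring
  have hlZs : Real.log Zs = (1 - ζ) * (i * Real.log 2) + 2 * Real.log ((K : ℝ) + 1) := by
    rw [hZs, Real.log_mul (by positivity) (by positivity), Real.log_pow, hlZ']
    push_cast
    ring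
  have hZsZ : Zs ≤ Z := by
    rw [hZs, hZ]
    refine mul_le_mul_of_nonneg_right ?_ (by positivity)
    have e : (2 : ℝ) ^ (i + 1) = Real.exp ((i + 1) * Real.log 2) := by
      have : ((i : ℝ) + 1) * Real.log 2 = Real.log ((2 : ℝ) ^ (i + 1)) := by
        rw [Real.log_pow]; push_cast; ring
      rw [this, Real.exp_log (by positivity)]
    rw [hZ', e]
    apply Real.exp_le_exp.2
    have q1 : (1 - ζ) * (i * Real.log 2) ≤ 1 * (i * Real.log 2) :=
      mul_le_mul_of_nonneg_right (by linarith) hil.le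
    linarith
  have hm := hA i K q l0 Y Z Z' Zs hZ'0 hZY hZ hZs hZsZ
  rw [hlY, ← hκ] at hm
  -- logarithms
  obtain ⟨lm, hlm⟩ : ∃ lm, lm = Real.log ((i : ℝ) + 1) := ⟨_, rfl⟩
  have hlm0 : 0 ≤ lm := by rw [hlm]; exact Real.log_nonneg (by linarith)
  rw [← hlm] at hsm
  have hCi : 0 ≤ C' * ((i : ℝ) + 1) := by positivity
  have hDi : D * ((i : ℝ) + 1) = 2 * (C' * ((i : ℝ) + 1)) + 3 * i + 3 := by rw [hD]; ring
  have hK1 : Real.log ((K : ℝ) + 1) ≤ Real.log D + lm := by
    rw [hlm, ← Real.log_mul (by positivity) (by positivity)]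
    apply Real.log_le_log (by positivity)
    linarith
  have hK2 : Real.log ((i : ℝ) + 2 * K + 3) ≤ Real.log D + lm := by
    rw [hlm, ← Real.log_mul (by positivity) (by positivity)]
    apply Real.log_le_log (by positivity)
    linarith
  have hK1' : 0 ≤ Real.log ((K : ℝ) + 1) := Real.log_nonneg (by linarith)
  -- tilted factor
  have hθK : (Lam θ + η) * K ≤ ε * Real.log 2 / 2 * (i + 1) := by
    have h1 : (Lam θ + η) * K ≤ (2 * η) * (C' * (i + 1)) :=
      mul_le_mul (by linarith) hKle hK0 (by positivity)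
    have h2 : (2 * η) * (C' * ((i : ℝ) + 1)) = ε * Real.log 2 / 2 * (i + 1) := by
      rw [hη]; field_simp; ring
    linarith
  have hM1 : 1 - ζ / 2 ≤ M := by rw [hM]; linarith
  have hM2 : 1 - δ₁ ≤ M := by rw [hM]; linarith
  obtain ⟨X, hX⟩ : ∃ X, X = Real.exp ((M + ε) * (i * Real.log 2)) := ⟨_, rfl⟩
  have hX0 : 0 < X := by rw [hX]; exact Real.exp_pos _
  rw [← hX]
  have hlX : Real.log X = (M + ε) * (i * Real.log 2) := by rw [hX, Real.log_exp]
  have hAA : A ≤ A' := by rw [hA']; exact le_max_left _ _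
  have hA0' : 0 < A' := by linarith
  have key : ∀ W : ℝ, 0 < W → Real.log W ≤ Real.log A' + 7 * Real.log D + 4 * Real.log 2 +
      7 * lm + G + ε * Real.log 2 / 2 + (M + ε / 2) * (i * Real.log 2) → 4 * W ≤ X := by
    intro W hW hlW
    have h1 : Real.log (4 * W) ≤ Real.log X := by
      rw [Real.log_mul (by norm_num) hW.ne', hlX]
      have h3 : ε * Real.log 2 / 4 * i ≤ ε / 2 * (i * Real.log 2) := by
        have : 0 ≤ ε * Real.log 2 * i := by positivity
        linarith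
      have h4 : (M + ε) * (i * Real.log 2) = (M + ε / 2) * (i * Real.log 2) +
        ε / 2 * (i * Real.log 2) := by ring
      linarith
    exact (Real.log_le_log_iff (by positivity) hX0).1 h1
  have hiK : (0 : ℝ) < (i : ℝ) + 2 * K + 3 := by positivity
  obtain ⟨W1, hW1⟩ : ∃ W1, W1 = A' * ((K + 1) * ((i + 2 * K + 3) * (Real.exp ((Lam θ + η) * K) *
        (4 * (i + 2 * K + 3) * Z * Zs / Y)))) := ⟨_, rfl⟩
  obtain ⟨W2, hW2⟩ : ∃ W2, W2 = A' * ((K + 1) * ((i + 2 * K + 3) * (Real.exp ((Lam θ + η) * K) *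
        (Z * Real.exp (-dl * l0))))) := ⟨_, rfl⟩
  obtain ⟨W3, hW3⟩ : ∃ W3, W3 = A' * ((K + 1) * (2 ^ l0 * Real.exp (θ' * Real.log Z +
        (Lam θ' + ε') * (K - (c0 * (i * Real.log 2) - l0 * Real.log 2) / κ)))) := ⟨_, rfl⟩
  have b1 : 4 * W1 ≤ X := by
    apply key
    · rw [hW1]; positivity
    · rw [hW1, Real.log_mul (by positivity) (by positivity),
        Real.log_mul (by positivity) (by positivity),
        Real.log_mul (by positivity) (by positivity),
        Real.log_mul (by positivity) (by positivity), Real.log_exp,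
        Real.log_div (by positivity) (by positivity),
        Real.log_mul (by positivity) (by positivity),
        Real.log_mul (by positivity) (by positivity),
        Real.log_mul (by positivity) (by positivity), hlZ, hlZs, hlY,
        show (4 : ℝ) = 2 ^ 2 by norm_num, Real.log_pow, hc0]
      have g1 : (1 - ζ / 2) * (i * Real.log 2) ≤ M * (i * Real.log 2) :=
        mul_le_mul_of_nonneg_right hM1 (by positivity)
      push_cast
      linarith
  have b2 : 4 * W2 ≤ X := by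
    apply key
    · rw [hW2]; positivity
    · rw [hW2, Real.log_mul (by positivity) (by positivity),
        Real.log_mul (by positivity) (by positivity),
        Real.log_mul (by positivity) (by positivity),
        Real.log_mul (by positivity) (by positivity), Real.log_exp,
        Real.log_mul (by positivity) (by positivity), Real.log_exp, hlZ]
      have g1 : (1 - δ₁) * (i * Real.log 2) ≤ M * (i * Real.log 2) :=
        mul_le_mul_of_nonneg_right hM2 (by positivity)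
      have g2 : dl * (θ0 * i) ≤ dl * l0 := mul_le_mul_of_nonneg_left hl0a hdl.le
      have g3 : δ₁ * Real.log 2 * i ≤ dl * θ0 * i := mul_le_mul_of_nonneg_right p8 hi0'
      linarith
  have b3 : 4 * W3 ≤ X := by
    apply key
    · rw [hW3]; positivity
    · rw [hW3, Real.log_mul (by positivity) (by positivity),
        Real.log_mul (by positivity) (by positivity),
        Real.log_mul (by positivity) (by positivity), Real.log_exp, Real.log_pow, hlZ]
      have g1 : (1 - δ₁) * (i * Real.log 2) ≤ M * (i * Real.log 2) :=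
        mul_le_mul_of_nonneg_right hM2 (by positivity)
      have g2 : (l0 : ℝ) * Real.log 2 ≤ (θ0 * i + 1) * Real.log 2 :=
        mul_le_mul_of_nonneg_right hl0b l2.le
      have g3 : θ' * ((i + 1) * Real.log 2 + 2 * Real.log (K + 1)) ≤
          θ' * (i * Real.log 2) + Real.log 2 + 2 * Real.log (K + 1) := by
        have q1 : θ' * (Real.log 2 + 2 * Real.log (K + 1)) ≤
            1 * (Real.log 2 + 2 * Real.log (K + 1)) :=
          mul_le_mul_of_nonneg_right p2.le (by linarith)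
        linarith
      have g4 : (Lam θ' + ε') * (K - (c0 * (i * Real.log 2) - l0 * Real.log 2) / κ) ≤
          (Lam θ' + ε') * (i * (C' - (c0 - θ0) * Real.log 2 / κ) + (C' + Real.log 2 / κ)) := by
        refine mul_le_mul_of_nonneg_left ?_ (by linarith)
        have q1 : (c0 * i * Real.log 2 - (θ0 * i + 1) * Real.log 2) / κ ≤
            (c0 * (i * Real.log 2) - l0 * Real.log 2) / κ := by
          apply div_le_div_of_nonneg_right _ hκ0.le
          linarith
        have q2 : (c0 * i * Real.log 2 - (θ0 * i + 1) * Real.log 2) / κ =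
            i * ((c0 - θ0) * Real.log 2 / κ) - Real.log 2 / κ := by
          field_simp
          ring
        rw [q2] at q1
        linarith
      obtain ⟨Tm, hTm⟩ : ∃ Tm, Tm = (Lam θ' + ε') * (C' - (c0 - θ0) * Real.log 2 / κ) := ⟨_, rfl⟩
      rw [← hTm] at p9
      have g5 : i * (θ0 * Real.log 2 + θ' * Real.log 2 + Tm) ≤ i * ((1 - δ₁) * Real.log 2) :=
        mul_le_mul_of_nonneg_left p9 hi0'
      have g6 : (Lam θ' + ε') * (i * (C' - (c0 - θ0) * Real.log 2 / κ) + (C' + Real.log 2 / κ)) =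
        i * Tm + (G - Real.log 2) := by
        rw [hG, hTm]; ring
      rw [g6] at g4
      have g7 : 0 ≤ ε / 2 * (i * Real.log 2) := by positivity
      have g8 : 0 ≤ ε * Real.log 2 / 2 := by positivity
      have g9 : i * (θ0 * Real.log 2 + θ' * Real.log 2 + Tm) =
        θ0 * i * Real.log 2 + θ' * (i * Real.log 2) + i * Tm := by ring
      have g10 : i * ((1 - δ₁) * Real.log 2) = (1 - δ₁) * (i * Real.log 2) := by ring
      have g11 : (θ0 * i + 1) * Real.log 2 = θ0 * i * Real.log 2 + Real.log 2 := by ring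
      have g12 : (M + ε / 2) * (i * Real.log 2) = M * (i * Real.log 2) + ε / 2 * (i * Real.log 2) := by
        ring
      rw [g9, g10] at g5
      rw [g11] at g2
      rw [g12]
      linarith
  have hm1 : A * ((K + 1) * ((i + 2 * K + 3) * (Real.exp ((Lam θ + η) * K) *
        (4 * (i + 2 * K + 3) * Z * Zs / Y + Z * Real.exp (-dl * l0))))) ≤ W1 + W2 := by
    rw [hW1, hW2, ← mul_add, ← mul_add, ← mul_add, ← mul_add]
    exact mul_le_mul_of_nonneg_right hAA (by positivity)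
  have hm2 : A * ((K + 1) * (2 ^ l0 * Real.exp (θ' * Real.log Z +
        (Lam θ' + ε') * (K - (c0 * (i * Real.log 2) - l0 * Real.log 2) / κ)))) ≤ W3 := by
    rw [hW3]
    exact mul_le_mul_of_nonneg_right hAA (by positivity)
  linarith

end Pool.Agent.LIM
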