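import Pool.Agent.LIM.StA

/-!
# LIM, module CMP: iterates against multipliers
-/

set_option autoImplicit false

open Finset Filter Topology
open scoped Classical

namespace Pool.Agent.LIM

open Pool.Agent.Collatz3.TX (T mul T_even T_odd mul_succ mul_pos' iter_le)

private theorem CMP_one : ∀ k n : ℕ, mul k n * n ≤ ((T^[k] n : ℕ) : ℝ) := by
  intro k
  induction k with
  | zero =>
    intro n
    simp [mul]
  | succ k ih =>
    intro n
    rw [Function.iterate_succ_apply]
    refine le_trans ?_ (ih (T n))
    have hp := mul_pos' k (T n)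
    rw [mul_succ]
    rcases Nat.even_or_odd' n with ⟨m, hm | hm⟩
    · subst hm
      rw [T_even, if_pos (by omega)]
      push_cast
      have e : 1 / 2 * mul k m * (2 * (m : ℝ)) = mul k m * m := by ring
      rw [e]
    · subst hm
      rw [T_odd] at hp ⊢
      rw [if_neg (by omega)]
      push_cast
      nlinarith

private theorem CMP_dich : ∀ k n : ℕ, mul k n = (1 / 2) ^ k ∨ mul k n * n < ((T^[k] n : ℕ) : ℝ) := by
  intro k
  induction k with
  | zero =>
    intro n
    left
    simp [mul]
  | succ k ih =>
    intro n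
    rw [Function.iterate_succ_apply, mul_succ]
    rcases Nat.even_or_odd' n with ⟨m, hm | hm⟩
    · subst hm
      rw [T_even, if_pos (by omega)]
      rcases ih m with h | h
      · left
        rw [h, pow_succ]
        ring
      · right
        push_cast
        have e : 1 / 2 * mul k m * (2 * (m : ℝ)) = mul k m * m := by ring
        rw [e]
        exact h
    · right
      subst hm
      have hp := mul_pos' k (3 * m + 2)
      have h1 := CMP_one k (3 * m + 2)
      rw [T_odd, if_neg (by omega)]
      push_cast at h1 ⊢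
      nlinarith

private theorem CMP_form : ∀ k n : ℕ, ∃ o ≤ k, mul k n = 3 ^ o / 2 ^ k := by
  intro k
  induction k with
  | zero =>
    intro n
    exact ⟨0, le_rfl, by simp [mul]⟩
  | succ k ih =>
    intro n
    obtain ⟨o, ho, h⟩ := ih (T n)
    rw [mul_succ, h]
    split_ifs
    · refine ⟨o, by omega, ?_⟩
      rw [pow_succ]
      field_simp
    · refine ⟨o + 1, by omega, ?_⟩
      rw [pow_succ, pow_succ]
      field_simp

private theorem CMP_gap (l : ℝ) (hl : 0 < l) (S : Finset ℝ) :
    ∃ l', 0 < l' ∧ l' < l ∧ ∀ v ∈ S, v < l → v ≤ l' := by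
  induction S using Finset.induction_on with
  | empty => exact ⟨l / 2, by linarith, by linarith, fun v hv => absurd hv (Finset.notMem_empty v)⟩
  | insert a S ha ih =>
    obtain ⟨l', h0, h1, h2⟩ := ih
    by_cases h : a < l
    · refine ⟨max l' a, lt_max_of_lt_left h0, max_lt h1 h, ?_⟩
      intro v hv hvl
      rcases Finset.mem_insert.1 hv with rfl | hv
      · exact le_max_right _ _
      · exact (h2 v hv hvl).trans (le_max_left _ _)
    · refine ⟨l', h0, h1, ?_⟩
      intro v hv hvl
      rcases Finset.mem_insert.1 hv with rfl | hv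
      · exact absurd hvl h
      · exact h2 v hv hvl

/-- [LIM CMP] -/
theorem thm_CMP : St_CMP := by
  refine ⟨CMP_one, ?_, ?_⟩
  · intro k n l hn hk hl h
    have hn' : (1 : ℝ) ≤ n := by exact_mod_cast hn
    rcases CMP_dich k n with h1 | h1
    · exfalso
      have h2 : ((1 : ℝ) / 2) ^ k < 1 := pow_lt_one₀ (by norm_num) (by norm_num) (by omega)
      linarith
    · have h2 : l * n ≤ mul k n * n := mul_le_mul_of_nonneg_right h (by linarith)
      linarith
  · intro J l hl
    obtain ⟨l', h0, h1, h2⟩ := CMP_gap l hl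
      ((range (J + 1) ×ˢ range (J + 1)).image fun p : ℕ × ℕ => (3 : ℝ) ^ p.1 / 2 ^ p.2)
    refine ⟨⌈l' * 2 ^ J / (l - l')⌉₊, fun n hn k hk h => ?_⟩
    by_contra hc
    push Not at hc
    have h3 : mul k n ≤ l' := by
      apply h2 _ _ hc
      obtain ⟨o, ho, e⟩ := CMP_form k n
      rw [e, Finset.mem_image]
      exact ⟨(o, k), by simp only [Finset.mem_product, Finset.mem_range]; omega, rfl⟩
    have h4 : l' * 2 ^ J / (l - l') ≤ n := Nat.ceil_le.1 hn
    rw [div_le_iff₀ (by linarith)] at h4
    have h5 := iter_le k n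
    have h6 : (2 : ℝ) ^ k ≤ 2 ^ J := pow_le_pow_right₀ (by norm_num) hk
    have h7 : mul k n * (n + 2 ^ k) ≤ l' * (n + 2 ^ J) := by
      have := (mul_pos' k n).le
      gcongr
    linarith

end Pool.Agent.LIM
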