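import Pool.Agent.LIM.StB

/-!
# Limit law of the maximum excursion: [DEC] decomposition at the lowest point
-/

set_option autoImplicit false

open Finset
open scoped Classical

namespace Pool.Agent.LIM

open Pool.Agent.Collatz3 (T3)
open Pool.Agent.Collatz3.LT

/-- iterates before the first time with a property (after time `a`) are distinct -/
private theorem DEC_inj {n a b : ℕ} {P : ℕ → Prop} (hab : a ≤ b) (hb : P (T3^[b] n))
    (hmin : ∀ t, a ≤ t → t < b → ¬ P (T3^[t] n)) :
    Set.InjOn (fun i => T3^[i] (T3^[a] n)) (Set.Iio (b - a)) := by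
  have key : ∀ i j, i < j → j < b - a → T3^[i] (T3^[a] n) ≠ T3^[j] (T3^[a] n) := by
    intro i j hij hj he
    rw [← Function.iterate_add_apply, ← Function.iterate_add_apply] at he
    apply hmin (b - (j + a) + (i + a)) (by omega) (by omega)
    rw [Function.iterate_add_apply, he, ← Function.iterate_add_apply,
      Nat.sub_add_cancel (by omega)]
    exact hb
  intro i hi j hj hij
  rcases lt_trichotomy i j with h1 | h1 | h1
  · exact absurd hij (key i j h1 hj)
  · exact h1
  · exact absurd hij.symm (key j i h1 hi)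

theorem thm_DEC : St_DEC := by
  intro n k q Z' Y hn hY hZY hqk hq hk
  have hex : ∃ t, ((T3^[t] n : ℕ) : ℝ) ≤ Z' := ⟨q, hq⟩
  have hq1 := Nat.find_spec hex
  have hq2 : Nat.find hex ≤ q := Nat.find_min' hex hq
  have hq3 := fun i (hi : i < Nat.find hex) => Nat.find_min hex hi
  set q' := Nat.find hex with hq'
  have hex2 : ∃ t, q' ≤ t ∧ Y ≤ ((T3^[t] n : ℕ) : ℝ) := ⟨k, by omega, hk⟩
  have hk1 := Nat.find_spec hex2
  have hk2 : Nat.find hex2 ≤ k := Nat.find_min' hex2 ⟨by omega, hk⟩
  have hk3 := fun i (hi : i < Nat.find hex2) => Nat.find_min hex2 hi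
  set k' := Nat.find hex2 with hk'
  have hlt : q' ≤ k' := hk1.1
  have hpos' : 0 < T3^[k'] n := by
    have : (0 : ℝ) < ((T3^[k'] n : ℕ) : ℝ) := lt_of_lt_of_le hY hk1.2
    exact_mod_cast this
  have hinj1 : Set.InjOn (fun i => T3^[i] n) (Set.Iio q') := by
    have := DEC_inj (n := n) (a := 0) (b := q') (P := fun x : ℕ => (x : ℝ) ≤ Z') (Nat.zero_le _)
      hq1 (fun t _ ht => hq3 t ht)
    simpa using this
  have hinj2 : Set.InjOn (fun i => T3^[i] (T3^[q'] n)) (Set.Iio (k' - q')) :=
    DEC_inj (n := n) (a := q') (b := k') (P := fun x : ℕ => Y ≤ (x : ℝ)) hlt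
      hk1.2 (fun t h1 ht h2 => hk3 t ht ⟨h1, h2⟩)
  obtain ⟨j, hj1, hj2, hj3⟩ := lowest k' n
  have hposj : 0 < T3^[j] n := iter_pos hpos' hj1
  have hn0 : (0 : ℝ) ≤ n := by positivity
  have hjk : (j : ℝ) ≤ k := by exact_mod_cast hj1.trans hk2
  have hheight : ((T3^[j] n : ℕ) : ℝ) * Real.exp (ht (wd j n)) ≤ n * ((k : ℝ) + 1) ^ 2 := by
    rcases le_total j q' with h | h
    · have h1 := node_ge (k := j) (b := n) hposj (hinj1.mono (fun i hi => lt_of_lt_of_le hi h))
      refine h1.trans (mul_le_mul_of_nonneg_left ?_ hn0)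
      nlinarith [show (0 : ℝ) ≤ k by positivity]
    · have hposq : 0 < T3^[q'] n := iter_pos hpos' hlt
      have h1 := node_ge (k := q') (b := n) hposq hinj1
      have e : T3^[j - q'] (T3^[q'] n) = T3^[j] n := by
        rw [← Function.iterate_add_apply, Nat.sub_add_cancel h]
      have h2 := node_ge (k := j - q') (b := T3^[q'] n) (by rw [e]; exact hposj)
        (hinj2.mono (fun i hi => lt_of_lt_of_le hi (Nat.sub_le_sub_right hj1 _)))
      rw [e, ht_wd_sub h n] at h2
      have e2 : Real.exp (ht (wd j n)) =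
          Real.exp (ht (wd j n) - ht (wd q' n)) * Real.exp (ht (wd q' n)) := by
        rw [← Real.exp_add]; ring_nf
      have hc : ((j - q' : ℕ) : ℝ) ≤ k := by
        exact_mod_cast (Nat.sub_le j q').trans (hj1.trans hk2)
      have hq'k : (q' : ℝ) ≤ k := by exact_mod_cast hlt.trans hk2
      calc ((T3^[j] n : ℕ) : ℝ) * Real.exp (ht (wd j n))
          = (((T3^[j] n : ℕ) : ℝ) * Real.exp (ht (wd j n) - ht (wd q' n))) *
              Real.exp (ht (wd q' n)) := by rw [e2]; ring
        _ ≤ (((T3^[q'] n : ℕ) : ℝ) * (((j - q' : ℕ) : ℝ) + 1)) * Real.exp (ht (wd q' n)) :=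
            mul_le_mul_of_nonneg_right h2 (Real.exp_pos _).le
        _ = (((T3^[q'] n : ℕ) : ℝ) * Real.exp (ht (wd q' n))) * (((j - q' : ℕ) : ℝ) + 1) := by
            ring
        _ ≤ (n * ((q' : ℝ) + 1)) * (((j - q' : ℕ) : ℝ) + 1) :=
            mul_le_mul_of_nonneg_right h1 (by positivity)
        _ ≤ (n * ((k : ℝ) + 1)) * ((k : ℝ) + 1) := by
            refine mul_le_mul (mul_le_mul_of_nonneg_left (by linarith) hn0) (by linarith)
              (by positivity) (by positivity)
        _ = n * ((k : ℝ) + 1) ^ 2 := by ring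
  refine ⟨j, k' - j, by omega, hj3, ?_, ?_, hheight, ?_, hposj⟩
  · intro i hi
    have h1 := ht_wd_sub (show j ≤ j + i by omega) n
    rw [Nat.add_sub_cancel_left] at h1
    have h2 := hj2 (j + i) (by omega)
    linarith
  · rw [← Function.iterate_add_apply, Nat.sub_add_cancel hj1]
    exact hk1.2
  · have h1 := node_le q' n
    have h2 := hj2 q' hlt
    have h3 : (n : ℝ) ≤ Z' * Real.exp (ht (wd j n)) := by
      refine h1.trans ?_
      have hZ0 : (0 : ℝ) ≤ ((T3^[q'] n : ℕ) : ℝ) := by positivity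
      exact mul_le_mul hq1 (Real.exp_le_exp.2 h2) (Real.exp_pos _).le (hZ0.trans hq1)
    have h4 : ((T3^[j] n : ℕ) : ℝ) * Real.exp (ht (wd j n)) ≤
        (Z' * ((k : ℝ) + 1) ^ 2) * Real.exp (ht (wd j n)) := by
      refine hheight.trans ?_
      calc (n : ℝ) * ((k : ℝ) + 1) ^ 2 ≤ (Z' * Real.exp (ht (wd j n))) * ((k : ℝ) + 1) ^ 2 :=
            mul_le_mul_of_nonneg_right h3 (by positivity)
        _ = _ := by ring
    exact le_of_mul_le_mul_right h4 (Real.exp_pos _)

end Pool.Agent.LIM
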