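import Pool.Agent.LIM.StA

set_option autoImplicit false

open Finset Filter Topology
open scoped Classical

namespace Pool.Agent.LIM

private theorem DEN_irr (k j : ℕ) (hk : 0 < k) :
    (k : ℝ) * Real.log 2 - j * Real.log (3 / 2) ≠ 0 := by
  intro h
  have h1 : Real.log ((2 : ℝ) ^ k) = Real.log ((3 / 2 : ℝ) ^ j) := by
    rw [Real.log_pow, Real.log_pow]; linarith
  have h2 : (2 : ℝ) ^ k = (3 / 2 : ℝ) ^ j :=
    Real.log_injOn_pos (Set.mem_Ioi.2 (by positivity)) (Set.mem_Ioi.2 (by positivity)) h1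
  have h3 : (2 : ℝ) ^ (k + j) = 3 ^ j := by
    rw [pow_add, h2, div_pow]; field_simp
  have h4 : (2 : ℕ) ^ (k + j) = 3 ^ j := by exact_mod_cast h3
  have h5 : Even ((2 : ℕ) ^ (k + j)) := (Nat.even_pow.2 ⟨even_two, by omega⟩)
  rw [h4] at h5
  have h6 : Odd ((3 : ℕ) ^ j) := Odd.pow (by decide)
  exact (Nat.not_even_iff_odd.2 h6) h5

private theorem DEN_small (δ : ℝ) (hδ : 0 < δ) : ∃ k j : ℕ, 0 < k ∧
    |(k : ℝ) * Real.log 2 - j * Real.log (3 / 2)| < δ := by
  have hα : 0 < Real.log 2 := Real.log_pos (by norm_num)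
  have hβ : 0 < Real.log (3 / 2) := Real.log_pos (by norm_num)
  obtain ⟨n, hn⟩ := exists_nat_gt (Real.log (3 / 2) / δ)
  have hn0 : 0 < n + 1 := Nat.succ_pos _
  obtain ⟨j, k, hk, hkn, h⟩ :=
    Real.exists_int_int_abs_mul_sub_le (Real.log 2 / Real.log (3 / 2)) hn0
  have hk1 : (1 : ℝ) ≤ k := by exact_mod_cast hk
  have hnn : (0 : ℝ) < n + 1 := by positivity
  have hj : 0 ≤ j := by
    have h1 := (abs_le.1 h).2
    have h2 : (1 : ℝ) / (((n + 1 : ℕ) : ℝ) + 1) < 1 := by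
      rw [div_lt_one (by positivity)]
      push_cast
      linarith
    have h3 : 0 < (k : ℝ) * (Real.log 2 / Real.log (3 / 2)) := by positivity
    have h4 : (-1 : ℝ) < j := by linarith
    have h5 : (-1 : ℤ) < j := by exact_mod_cast h4
    omega
  lift j to ℕ using hj
  lift k to ℕ using hk.le
  refine ⟨k, j, by exact_mod_cast hk, ?_⟩
  have e : (k : ℝ) * Real.log 2 - j * Real.log (3 / 2) =
      Real.log (3 / 2) * ((k : ℝ) * (Real.log 2 / Real.log (3 / 2)) - j) := by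
    field_simp
  rw [e, abs_mul, abs_of_pos hβ]
  have h6 : |(k : ℝ) * (Real.log 2 / Real.log (3 / 2)) - j| ≤ 1 / (((n + 1 : ℕ) : ℝ) + 1) := by
    exact_mod_cast h
  have h7 : Real.log (3 / 2) * |(k : ℝ) * (Real.log 2 / Real.log (3 / 2)) - j| ≤
      Real.log (3 / 2) * (1 / (((n + 1 : ℕ) : ℝ) + 1)) := mul_le_mul_of_nonneg_left h6 hβ.le
  refine lt_of_le_of_lt h7 ?_
  rw [mul_one_div, div_lt_iff₀ (by positivity)]
  rw [div_lt_iff₀ hδ] at hn
  push_cast
  nlinarith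

theorem thm_DEN : St_DEN := by
  intro R δ hδ
  have hα : 0 < Real.log 2 := Real.log_pos (by norm_num)
  have hβ : 0 < Real.log (3 / 2) := Real.log_pos (by norm_num)
  obtain ⟨k, j, hk, hs⟩ := DEN_small δ hδ
  set s : ℝ := (k : ℝ) * Real.log 2 - j * Real.log (3 / 2) with hsdef
  have hs0 : s ≠ 0 := DEN_irr k j hk
  rcases lt_or_gt_of_ne hs0 with hneg | hpos
  · -- s < 0
    rw [abs_of_neg hneg] at hs
    have hs' : 0 < -s := by linarith
    obtain ⟨N, hN⟩ := exists_nat_gt ((|R| + δ) / Real.log 2)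
    rw [div_lt_iff₀ hα] at hN
    refine ⟨N + ⌊(N * Real.log 2 + |R|) / (-s)⌋₊ * (k + j), fun x hx => ?_⟩
    have hxR : |x| ≤ |R| := hx.trans (le_abs_self _)
    have hx1 := (abs_le.1 hxR).1
    have hx2 := (abs_le.1 hxR).2
    set K : ℕ := ⌊(N * Real.log 2 - x) / (-s)⌋₊ with hK
    have hnn : 0 ≤ (N * Real.log 2 - x) / (-s) := div_nonneg (by linarith) hs'.le
    have hK1 : (K : ℝ) ≤ (N * Real.log 2 - x) / (-s) := Nat.floor_le hnn
    have hK2 : (N * Real.log 2 - x) / (-s) < K + 1 := Nat.lt_floor_add_one _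
    rw [le_div_iff₀ hs'] at hK1
    rw [div_lt_iff₀ hs'] at hK2
    have hK3 : K ≤ ⌊(N * Real.log 2 + |R|) / (-s)⌋₊ := by
      apply Nat.floor_le_floor
      apply div_le_div_of_nonneg_right _ hs'.le
      linarith
    refine ⟨N + K * k, K * j, ?_, ?_, ?_⟩
    · calc N + K * k + K * j = N + K * (k + j) := by ring
        _ ≤ _ := by gcongr
    · have e : ((N + K * k : ℕ) : ℝ) * Real.log 2 - ((K * j : ℕ) : ℝ) * Real.log (3 / 2) =
          N * Real.log 2 + K * s := by rw [hsdef]; push_cast; ring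
      rw [e]; linarith
    · have e : ((N + K * k : ℕ) : ℝ) * Real.log 2 - ((K * j : ℕ) : ℝ) * Real.log (3 / 2) =
          N * Real.log 2 + K * s := by rw [hsdef]; push_cast; ring
      rw [e]; linarith
  · rw [abs_of_pos hpos] at hs
    obtain ⟨N, hN⟩ := exists_nat_gt (|R| / Real.log (3 / 2))
    rw [div_lt_iff₀ hβ] at hN
    refine ⟨N + ⌈(|R| + N * Real.log (3 / 2)) / s⌉₊ * (k + j), fun x hx => ?_⟩
    have hxR : |x| ≤ |R| := hx.trans (le_abs_self _)
    have hx1 := (abs_le.1 hxR).1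
    have hx2 := (abs_le.1 hxR).2
    set K : ℕ := ⌈(x + N * Real.log (3 / 2)) / s⌉₊ with hK
    have hnn : 0 ≤ (x + N * Real.log (3 / 2)) / s := div_nonneg (by linarith) hpos.le
    have hK1 : (x + N * Real.log (3 / 2)) / s ≤ K := Nat.le_ceil _
    have hK2 : (K : ℝ) < (x + N * Real.log (3 / 2)) / s + 1 := Nat.ceil_lt_add_one hnn
    have hK4 : (K : ℝ) - 1 < (x + N * Real.log (3 / 2)) / s := by linarith
    rw [div_le_iff₀ hpos] at hK1
    rw [lt_div_iff₀ hpos] at hK4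
    have hK3 : K ≤ ⌈(|R| + N * Real.log (3 / 2)) / s⌉₊ := by
      apply Nat.ceil_le_ceil
      apply div_le_div_of_nonneg_right _ hpos.le
      linarith
    refine ⟨K * k, N + K * j, ?_, ?_, ?_⟩
    · calc K * k + (N + K * j) = N + K * (k + j) := by ring
        _ ≤ _ := by gcongr
    · have e : ((K * k : ℕ) : ℝ) * Real.log 2 - ((N + K * j : ℕ) : ℝ) * Real.log (3 / 2) =
          K * s - N * Real.log (3 / 2) := by rw [hsdef]; push_cast; ring
      rw [e]; linarith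
    · have e : ((K * k : ℕ) : ℝ) * Real.log 2 - ((N + K * j : ℕ) : ℝ) * Real.log (3 / 2) =
          K * s - N * Real.log (3 / 2) := by rw [hsdef]; push_cast; ring
      rw [e]; linarith

end Pool.Agent.LIM
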