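import Pool.Agent.LIM.StB

/-!
# LIM, module DSC: descent in the free range
-/

set_option autoImplicit false

open Finset Filter Topology
open scoped Classical

namespace Pool.Agent.LIM

open Pool.Agent.Collatz3 (T3)
open Pool.Agent.Collatz3.LT
open Pool.Agent.Collatz3.EX (B od dl)

private theorem DSC_log (h : St_FB) :
    Real.log (1 + Real.sqrt 3) ≤ 3 / 2 * Real.log 2 - 3 / 100 := by
  have h1 := h.1.2.2
  have p2 : 0 < Real.sqrt 2 := Real.sqrt_pos.2 (by norm_num)
  have p3 : 0 < Real.sqrt 3 := Real.sqrt_pos.2 (by norm_num)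
  unfold rho at h1
  rw [Real.log_div (by positivity) (by positivity), Real.log_mul (by norm_num) p2.ne',
    Real.log_sqrt (by norm_num)] at h1
  linarith

private theorem DSC_card (i q : ℕ) (hq : q ≤ i) (y : ℝ) :
    (((B i).filter fun n => Real.exp y < ((T3^[q] n : ℕ) : ℝ)).card : ℝ) ≤
      2 * Real.exp ((((i : ℝ) - q) * Real.log 2 - y) / 2) *
        (Real.exp (((i : ℝ) - q) * Real.log 2) * (1 + Real.sqrt 3) ^ q) := by
  have e2 : (2 : ℝ) ^ (i - q) = Real.exp (((i : ℝ) - q) * Real.log 2) := by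
    rw [← Nat.cast_sub hq, mul_comm, Real.exp_mul, Real.exp_log (by norm_num), Real.rpow_natCast]
  have s3 : Real.sqrt 3 ^ 2 = 3 := Real.sq_sqrt (by norm_num)
  have p3 : 0 ≤ Real.sqrt 3 := Real.sqrt_nonneg 3
  set c : ℝ := 2 * Real.exp ((((i : ℝ) - q) * Real.log 2 - y) / 2) with hc
  have hc0 : 0 < c := by positivity
  have hc2 : c ^ 2 * Real.exp y = 4 * 2 ^ (i - q) := by
    rw [hc, mul_pow, e2, ← Real.exp_nat_mul, mul_assoc, ← Real.exp_add]
    have e3 : ((2 : ℕ) : ℝ) * ((((i : ℝ) - q) * Real.log 2 - y) / 2) + y =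
        ((i : ℝ) - q) * Real.log 2 := by
      push_cast
      ring
    rw [e3]
    norm_num
  have key : ∀ n ∈ B i, Real.exp y < ((T3^[q] n : ℕ) : ℝ) → 1 ≤ c * Real.sqrt 3 ^ od q n := by
    intro n hn h
    have h1 := Pool.Agent.Collatz3.EX.iter_le hq hn
    have h2 : Real.exp y < (c * Real.sqrt 3 ^ od q n) ^ 2 * Real.exp y := by
      calc Real.exp y < ((T3^[q] n : ℕ) : ℝ) := h
        _ ≤ 4 * 2 ^ (i - q) * 3 ^ od q n := h1
        _ = (c * Real.sqrt 3 ^ od q n) ^ 2 * Real.exp y := by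
          have s4 : (Real.sqrt 3 ^ od q n) ^ 2 = 3 ^ od q n := by
            rw [← pow_mul, mul_comm, pow_mul, s3]
          rw [← hc2, mul_pow c (Real.sqrt 3 ^ od q n) 2, s4]
          ring
    have h3 : 1 < (c * Real.sqrt 3 ^ od q n) ^ 2 := by
      have h4 : 1 * Real.exp y < (c * Real.sqrt 3 ^ od q n) ^ 2 * Real.exp y := by
        rwa [one_mul]
      exact lt_of_mul_lt_mul_right h4 (Real.exp_pos y).le
    have h5 : 0 ≤ c * Real.sqrt 3 ^ od q n := by positivity
    by_contra h6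
    push Not at h6
    nlinarith
  have h1 : (((B i).filter fun n => Real.exp y < ((T3^[q] n : ℕ) : ℝ)).card : ℝ) ≤
      ∑ n ∈ (B i).filter fun n => Real.exp y < ((T3^[q] n : ℕ) : ℝ),
        c * Real.sqrt 3 ^ od q n := by
    rw [card_eq_sum_ones]
    push_cast
    refine sum_le_sum fun n hn => ?_
    rw [mem_filter] at hn
    exact key n hn.1 hn.2
  have h2 : ∑ n ∈ (B i).filter fun n => Real.exp y < ((T3^[q] n : ℕ) : ℝ),
        c * Real.sqrt 3 ^ od q n ≤ ∑ n ∈ B i, c * Real.sqrt 3 ^ od q n :=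
    sum_le_sum_of_subset_of_nonneg (filter_subset _ _) fun n _ _ => by positivity
  refine (h1.trans h2).trans (le_of_eq ?_)
  rw [← mul_sum, Pool.Agent.Collatz3.EX.sum_block_pow _ hq, e2]

theorem thm_DSC (h : St_FB) : St_DSC := by
  intro η hη hη1
  refine ⟨η / 100, by positivity, by linarith, ⌈200 / η⌉₊, fun i hi q hqi hq => ?_⟩
  have hL := DSC_log h
  have hL2 : Real.log 2 < 0.6932 := Real.log_two_lt_d9.trans (by norm_num)
  have hi' : 200 ≤ η * i := by
    have h1 : 200 / η ≤ i := (Nat.le_ceil _).trans (by exact_mod_cast hi)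
    rw [div_le_iff₀ hη] at h1
    linarith
  have hq0 : (0 : ℝ) ≤ q := Nat.cast_nonneg q
  refine (DSC_card i q hq _).trans ?_
  have e1 : (1 + Real.sqrt 3) ^ q = Real.exp (q * Real.log (1 + Real.sqrt 3)) := by
    have p3 : 0 ≤ Real.sqrt 3 := Real.sqrt_nonneg 3
    rw [mul_comm, Real.exp_mul, Real.exp_log (by positivity), Real.rpow_natCast]
  have e2 : (2 : ℝ) = Real.exp (Real.log 2) := (Real.exp_log (by norm_num)).symm
  have e3 : 2 * Real.exp ((((i : ℝ) - q) * Real.log 2 - (1 - η / 20) * (i * Real.log 2)) / 2) *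
        (Real.exp (((i : ℝ) - q) * Real.log 2) * (1 + Real.sqrt 3) ^ q) =
      Real.exp (Real.log 2 + (((i : ℝ) - q) * Real.log 2 -
        (1 - η / 20) * (i * Real.log 2)) / 2 + (((i : ℝ) - q) * Real.log 2 +
        q * Real.log (1 + Real.sqrt 3))) := by
    rw [e1, Real.exp_add, Real.exp_add, Real.exp_add, Real.exp_log (by norm_num : (0 : ℝ) < 2)]
  rw [e3, Real.exp_le_exp]
  have h1 : (q : ℝ) * Real.log (1 + Real.sqrt 3) ≤ q * (3 / 2 * Real.log 2 - 3 / 100) :=
    mul_le_mul_of_nonneg_left hL hq0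
  have h2 : Real.log 2 + 35 / 1000 * (η * i) * Real.log 2 ≤ 3 / 100 * (η * i) := by
    nlinarith
  nlinarith

end Pool.Agent.LIM
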