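import Pool.Agent.LIM.StA

set_option autoImplicit false

open Finset Filter Topology
open scoped Classical

namespace Pool.Agent.LIM

open Pool.Agent.Collatz3.TX (T mul)

theorem EAR_parity (P : ℕ → Prop) (Y e : ℕ) (he : e < 2) :
    ((range Y).filter P).card = ((range ((Y + 1 - e) / 2)).filter fun m => P (2 * m + e)).card +
      ((range ((Y + e) / 2)).filter fun m => P (2 * m + (1 - e))).card := by
  have h1 : (range Y).filter P =
      (((range ((Y + 1 - e) / 2)).filter fun m => P (2 * m + e)).image fun m => 2 * m + e) ∪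
      (((range ((Y + e) / 2)).filter fun m => P (2 * m + (1 - e))).image
        fun m => 2 * m + (1 - e)) := by
    ext x
    simp only [mem_filter, mem_range, mem_union, mem_image]
    constructor
    · rintro ⟨hx, hP⟩
      by_cases hp : x % 2 = e
      · left
        refine ⟨x / 2, ?_, by omega⟩
        have : 2 * (x / 2) + e = x := by omega
        rw [this]
        exact ⟨by omega, hP⟩
      · right
        refine ⟨x / 2, ?_, by omega⟩
        have : 2 * (x / 2) + (1 - e) = x := by omega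
        rw [this]
        exact ⟨by omega, hP⟩
    · rintro (⟨m, ⟨hm, hP⟩, rfl⟩ | ⟨m, ⟨hm, hP⟩, rfl⟩)
      · exact ⟨by omega, hP⟩
      · exact ⟨by omega, hP⟩
  rw [h1, card_union_of_disjoint, card_image_of_injective, card_image_of_injective]
  · intro a b hab; simp only at hab; omega
  · intro a b hab; simp only at hab; omega
  · rw [Finset.disjoint_left]
    intro x hx hx'
    simp only [mem_image, mem_filter, mem_range] at hx hx'
    obtain ⟨m, -, rfl⟩ := hx
    obtain ⟨m', -, hm'⟩ := hx'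
    omega

theorem EAR_mul_even (k n : ℕ) (l : ℝ) : l ≤ mul (k + 1) (2 * n) ↔ 2 * l ≤ mul k n := by
  rw [Pool.Agent.Collatz3.TX.mul_succ, if_pos (by omega), Pool.Agent.Collatz3.TX.T_even]
  constructor <;> intro h <;> linarith

theorem EAR_mul_odd (k n : ℕ) (l : ℝ) :
    l ≤ mul (k + 1) (2 * n + 1) ↔ 2 / 3 * l ≤ mul k (3 * n + 2) := by
  rw [Pool.Agent.Collatz3.TX.mul_succ, if_neg (by omega), Pool.Agent.Collatz3.TX.T_odd]
  constructor <;> intro h <;> linarith

/-- splitting of the first step -/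
theorem EAR_split (a b : ℕ) (l : ℝ) (q r Y : ℕ) (hq : q % 2 = 1) :
    ∃ r0 r1 Y0 Y1 : ℕ, Y0 + Y1 = Y ∧ Y0 ≤ Y1 + 1 ∧ Y1 ≤ Y0 + 1 ∧
      ((range Y).filter fun m => ∃ k, a + 1 ≤ k ∧ k ≤ b + 1 ∧ l ≤ mul k (q * m + r)).card =
      ((range Y0).filter fun m => ∃ k, a ≤ k ∧ k ≤ b ∧ 2 * l ≤ mul k (q * m + r0)).card +
      ((range Y1).filter fun m => ∃ k, a ≤ k ∧ k ≤ b ∧
        2 / 3 * l ≤ mul k (3 * q * m + r1)).card := by
  obtain ⟨e, he⟩ : ∃ e, e = r % 2 := ⟨_, rfl⟩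
  have he2 : e < 2 := by omega
  obtain ⟨r0, hr0⟩ : ∃ r0, q * e + r = 2 * r0 := by
    refine ⟨(q * e + r) / 2, ?_⟩
    have : (q * e + r) % 2 = 0 := by
      rw [Nat.add_mod, Nat.mul_mod, hq]
      omega
    omega
  obtain ⟨r1, hr1⟩ : ∃ r1, q * (1 - e) + r = 2 * r1 + 1 := by
    refine ⟨(q * (1 - e) + r) / 2, ?_⟩
    have : (q * (1 - e) + r) % 2 = 1 := by
      rw [Nat.add_mod, Nat.mul_mod, hq]
      omega
    omega
  refine ⟨r0, 3 * r1 + 2, (Y + 1 - e) / 2, (Y + e) / 2, by omega, by omega, by omega, ?_⟩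
  rw [EAR_parity _ Y e he2]
  congr 1
  · congr 1
    apply filter_congr
    intro m _
    have h1 : q * (2 * m + e) + r = 2 * (q * m + r0) := by
      calc q * (2 * m + e) + r = 2 * (q * m) + (q * e + r) := by ring
        _ = 2 * (q * m + r0) := by rw [hr0]; ring
    rw [h1]
    constructor
    · rintro ⟨k, hk1, hk2, hk3⟩
      obtain ⟨k', rfl⟩ : ∃ k', k = k' + 1 := ⟨k - 1, by omega⟩
      exact ⟨k', by omega, by omega, (EAR_mul_even _ _ _).1 hk3⟩
    · rintro ⟨k, hk1, hk2, hk3⟩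
      exact ⟨k + 1, by omega, by omega, (EAR_mul_even _ _ _).2 hk3⟩
  · congr 1
    apply filter_congr
    intro m _
    have h1 : q * (2 * m + (1 - e)) + r = 2 * (q * m + r1) + 1 := by
      calc q * (2 * m + (1 - e)) + r = 2 * (q * m) + (q * (1 - e) + r) := by ring
        _ = 2 * (q * m + r1) + 1 := by rw [hr1]; ring
    have h2 : 3 * q * m + (3 * r1 + 2) = 3 * (q * m + r1) + 2 := by ring
    rw [h1, h2]
    constructor
    · rintro ⟨k, hk1, hk2, hk3⟩
      obtain ⟨k', rfl⟩ : ∃ k', k = k' + 1 := ⟨k - 1, by omega⟩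
      exact ⟨k', by omega, by omega, (EAR_mul_odd _ _ _).1 hk3⟩
    · rintro ⟨k, hk1, hk2, hk3⟩
      exact ⟨k + 1, by omega, by omega, (EAR_mul_odd _ _ _).2 hk3⟩

private theorem EAR_arith (A0 A1 Y0 Y1 F0 F1 E : ℝ) (h0 : |A0 - Y0 * F0| ≤ E)
    (h1 : |A1 - Y1 * F1| ≤ E) (hF0 : 0 ≤ F0 ∧ F0 ≤ 1) (hF1 : 0 ≤ F1 ∧ F1 ≤ 1)
    (hY1 : Y0 ≤ Y1 + 1) (hY2 : Y1 ≤ Y0 + 1) :
    |A0 + A1 - (Y0 + Y1) * ((F0 + F1) / 2)| ≤ 2 * E + 1 := by
  rw [abs_le] at *
  have h2 : |(Y0 - Y1) * (F0 - F1)| ≤ 1 := by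
    rw [abs_mul]
    have a1 : |Y0 - Y1| ≤ 1 := by rw [abs_le]; constructor <;> linarith
    have a2 : |F0 - F1| ≤ 1 := by
      rw [abs_le]; constructor <;> linarith [hF0.1, hF0.2, hF1.1, hF1.2]
    calc |Y0 - Y1| * |F0 - F1| ≤ 1 * 1 := mul_le_mul a1 a2 (abs_nonneg _) (by norm_num)
      _ = 1 := by norm_num
  rw [abs_le] at h2
  have e : (Y0 + Y1) * ((F0 + F1) / 2) = Y0 * F0 + Y1 * F1 - (Y0 - Y1) * (F0 - F1) / 2 := by ring
  rw [e]
  constructor <;> linarith [h0.1, h0.2, h1.1, h1.2, h2.1, h2.2]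

theorem EAR_F (h : St_FB) (J : ℕ) : ∀ (l : ℝ) (q r Y : ℕ), q % 2 = 1 →
    |(((range Y).filter fun m => ∃ k, 0 ≤ k ∧ k ≤ J ∧ l ≤ mul k (q * m + r)).card : ℝ) -
      Y * F J l| ≤ 2 ^ J - 1 := by
  induction J with
  | zero =>
    intro l q r Y hq
    by_cases hl : l ≤ 1
    · have h1 : (range Y).filter (fun m => ∃ k, 0 ≤ k ∧ k ≤ 0 ∧ l ≤ mul k (q * m + r)) =
          range Y := by
        apply filter_true_of_mem
        intro m _
        exact ⟨0, le_refl _, le_refl _, by simpa [mul] using hl⟩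
      rw [h1]
      simp [F, hl]
    · have h1 : (range Y).filter (fun m => ∃ k, 0 ≤ k ∧ k ≤ 0 ∧ l ≤ mul k (q * m + r)) = ∅ := by
        apply filter_false_of_mem
        rintro m _ ⟨k, -, hk, h2⟩
        obtain rfl : k = 0 := by omega
        exact hl (by simpa [mul] using h2)
      rw [h1]
      simp [F, hl]
  | succ J ih =>
    intro l q r Y hq
    by_cases hl : l ≤ 1
    · have h1 : (range Y).filter (fun m => ∃ k, 0 ≤ k ∧ k ≤ J + 1 ∧ l ≤ mul k (q * m + r)) =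
          range Y := by
        apply filter_true_of_mem
        intro m _
        exact ⟨0, le_refl _, Nat.zero_le _, by simpa [mul] using hl⟩
      rw [h1]
      have h2 : (1 : ℝ) ≤ 2 ^ (J + 1) := one_le_pow₀ (by norm_num)
      simp [F, hl, h2]
    · have h1 : (range Y).filter (fun m => ∃ k, 0 ≤ k ∧ k ≤ J + 1 ∧ l ≤ mul k (q * m + r)) =
          (range Y).filter (fun m => ∃ k, 0 + 1 ≤ k ∧ k ≤ J + 1 ∧ l ≤ mul k (q * m + r)) := by
        apply filter_congr
        intro m _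
        constructor
        · rintro ⟨k, -, hk, h2⟩
          refine ⟨k, ?_, hk, h2⟩
          rcases k with _ | k
          · exact absurd (by simpa [mul] using h2) hl
          · omega
        · rintro ⟨k, -, hk, h2⟩
          exact ⟨k, Nat.zero_le _, hk, h2⟩
      rw [h1]
      obtain ⟨r0, r1, Y0, Y1, hY, hY1, hY2, hs⟩ := EAR_split 0 J l q r Y hq
      rw [hs]
      have a0 := ih (2 * l) q r0 Y0 hq
      have a1 := ih (2 / 3 * l) (3 * q) r1 Y1 (by omega)
      have hF : F (J + 1) l = (F J (2 * l) + F J (2 / 3 * l)) / 2 := by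
        simp [F, hl]
      have hb := h.2.1
      have := EAR_arith _ _ _ _ _ _ _ a0 a1 (hb J _) (hb J _) (by exact_mod_cast hY1)
        (by exact_mod_cast hY2)
      rw [hF, ← hY]
      push_cast
      refine this.trans (le_of_eq ?_)
      ring

theorem thm_EAR (h : St_FB) : St_EAR := by
  intro J l q r Y hq
  obtain ⟨r0, r1, Y0, Y1, hY, hY1, hY2, hs⟩ := EAR_split 0 J l q r Y hq
  have hs' : ((range Y).filter fun m => ∃ k, 1 ≤ k ∧ k ≤ J + 1 ∧ l ≤ mul k (q * m + r)).card =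
      ((range Y0).filter fun m => ∃ k, 0 ≤ k ∧ k ≤ J ∧ 2 * l ≤ mul k (q * m + r0)).card +
      ((range Y1).filter fun m => ∃ k, 0 ≤ k ∧ k ≤ J ∧
        2 / 3 * l ≤ mul k (3 * q * m + r1)).card := hs
  rw [hs']
  have a0 := EAR_F h J (2 * l) q r0 Y0 hq
  have a1 := EAR_F h J (2 / 3 * l) (3 * q) r1 Y1 (by omega)
  have hb := h.2.1
  have := EAR_arith _ _ _ _ _ _ _ a0 a1 (hb J _) (hb J _) (by exact_mod_cast hY1)
    (by exact_mod_cast hY2)
  rw [G1, ← hY]
  push_cast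
  refine this.trans (le_of_eq ?_)
  ring

end Pool.Agent.LIM
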