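import Pool.Agent.LIM.StA

/-!
# LIM, module FB: basic facts on `F` and `rho`
-/

set_option autoImplicit false

open Finset Filter Topology
open scoped Classical

namespace Pool.Agent.LIM

private theorem FB_zero (l : ℝ) : F 0 l = if l ≤ 1 then 1 else 0 := rfl

private theorem FB_succ (J : ℕ) (l : ℝ) :
    F (J + 1) l = if l ≤ 1 then 1 else (F J (2 * l) + F J (2 / 3 * l)) / 2 := rfl

private theorem FB_one (J : ℕ) (l : ℝ) (h : l ≤ 1) : F J l = 1 := by
  cases J with
  | zero => rw [FB_zero, if_pos h]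
  | succ J => rw [FB_succ, if_pos h]

private theorem FB_gt (J : ℕ) (l : ℝ) (h : 1 < l) :
    F (J + 1) l = (F J (2 * l) + F J (2 / 3 * l)) / 2 := by
  rw [FB_succ, if_neg (not_le.2 h)]

private theorem FB_sq : Real.sqrt 2 ^ 2 = 2 ∧ Real.sqrt 3 ^ 2 = 3 ∧ 0 < Real.sqrt 2 ∧
    0 < Real.sqrt 3 :=
  ⟨Real.sq_sqrt (by norm_num), Real.sq_sqrt (by norm_num), Real.sqrt_pos.2 (by norm_num),
    Real.sqrt_pos.2 (by norm_num)⟩

private theorem FB_rho2 : rho ^ 2 = (2 + Real.sqrt 3) / 4 := by
  obtain ⟨h2, h3, p2, p3⟩ := FB_sq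
  unfold rho
  rw [div_pow, mul_pow, h2]
  have : (1 + Real.sqrt 3) ^ 2 = 4 + 2 * Real.sqrt 3 := by
    calc (1 + Real.sqrt 3) ^ 2 = 1 + 2 * Real.sqrt 3 + Real.sqrt 3 ^ 2 := by ring
      _ = _ := by rw [h3]; ring
  rw [this]
  ring

private theorem FB_s3 : Real.sqrt 3 ≤ 1.7321 := by
  rw [Real.sqrt_le_left (by norm_num)]
  norm_num

private theorem FB_rho_pos : 0 < rho := by
  obtain ⟨h2, h3, p2, p3⟩ := FB_sq
  unfold rho
  positivity

private theorem FB_rho : 0 < rho ∧ rho < 1 ∧ Real.log rho ≤ -(3 / 100) := by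
  have h0 := FB_rho_pos
  have h1 := FB_rho2
  have h2 := FB_s3
  have h3 : rho ^ 2 ≤ 0.93303 := by
    rw [h1]
    linarith
  refine ⟨h0, by nlinarith, ?_⟩
  have h4 : Real.log (rho ^ 2) ≤ rho ^ 2 - 1 := Real.log_le_sub_one_of_pos (by positivity)
  rw [Real.log_pow] at h4
  push_cast at h4
  linarith

private theorem FB_sqrt2l (l : ℝ) : Real.sqrt (2 * l) = Real.sqrt 2 * Real.sqrt l :=
  Real.sqrt_mul (by norm_num) l

private theorem FB_sqrt23l (l : ℝ) : Real.sqrt (2 / 3 * l) = Real.sqrt 2 / Real.sqrt 3 * Real.sqrt l := by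
  rw [Real.sqrt_mul (by norm_num), Real.sqrt_div (by norm_num)]

private theorem FB_bd (J : ℕ) : ∀ l, 0 ≤ F J l ∧ F J l ≤ 1 := by
  induction J with
  | zero =>
    intro l
    rw [FB_zero]
    split_ifs <;> norm_num
  | succ J ih =>
    intro l
    rcases le_or_gt l 1 with h | h
    · rw [FB_one _ _ h]
      norm_num
    · rw [FB_gt _ _ h]
      have a := ih (2 * l)
      have b := ih (2 / 3 * l)
      constructor <;> linarith [a.1, a.2, b.1, b.2]

private theorem FB_anti (J : ℕ) : ∀ l l', l ≤ l' → F J l' ≤ F J l := by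
  induction J with
  | zero =>
    intro l l' h
    by_cases h1 : l ≤ 1
    · rw [FB_one _ _ h1]
      exact (FB_bd _ _).2
    · rw [FB_zero, FB_zero, if_neg h1, if_neg (fun h2 => h1 (h.trans h2))]
  | succ J ih =>
    intro l l' h
    rcases le_or_gt l 1 with h1 | h1
    · rw [FB_one _ _ h1]
      exact (FB_bd _ _).2
    · rw [FB_gt _ _ h1, FB_gt _ _ (h1.trans_le h)]
      have a := ih (2 * l) (2 * l') (by linarith)
      have b := ih (2 / 3 * l) (2 / 3 * l') (by linarith)
      linarith

private theorem FB_mono (J : ℕ) : ∀ l, F J l ≤ F (J + 1) l := by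
  induction J with
  | zero =>
    intro l
    rcases le_or_gt l 1 with h | h
    · rw [FB_one _ _ h, FB_one _ _ h]
    · rw [FB_zero, if_neg (not_le.2 h)]
      exact (FB_bd _ _).1
  | succ J ih =>
    intro l
    rcases le_or_gt l 1 with h | h
    · rw [FB_one _ _ h, FB_one _ _ h]
    · rw [FB_gt _ _ h, FB_gt _ _ h]
      have a := ih (2 * l)
      have b := ih (2 / 3 * l)
      linarith

private theorem FB_inv (J : ℕ) : ∀ l, 0 < l → F J l ≤ 1 / l := by
  induction J with
  | zero =>
    intro l hl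
    rcases le_or_gt l 1 with h | h
    · rw [FB_one _ _ h, le_div_iff₀ hl]
      linarith
    · rw [FB_zero, if_neg (not_le.2 h)]
      positivity
  | succ J ih =>
    intro l hl
    rcases le_or_gt l 1 with h | h
    · rw [FB_one _ _ h, le_div_iff₀ hl]
      linarith
    · rw [FB_gt _ _ h]
      have a := ih (2 * l) (by linarith)
      have b := ih (2 / 3 * l) (by linarith)
      have e : (1 / (2 * l) + 1 / (2 / 3 * l)) / 2 = 1 / l := by
        field_simp
        norm_num
      linarith

private theorem FB_six (J : ℕ) : ∀ M l, 0 < l → F (J + M) l - F J l ≤ rho ^ J / Real.sqrt l := by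
  have hr := FB_rho_pos
  induction J with
  | zero =>
    intro M l hl
    rcases le_or_gt l 1 with h | h
    · rw [FB_one _ _ h, FB_one _ _ h]
      have : 0 ≤ rho ^ 0 / Real.sqrt l := by positivity
      linarith
    · rw [FB_zero, if_neg (not_le.2 h), zero_add, sub_zero, pow_zero]
      refine (FB_inv M l hl).trans ?_
      have h1 : 1 ≤ Real.sqrt l := by
        rw [Real.one_le_sqrt]
        exact h.le
      have h2 : Real.sqrt l * Real.sqrt l = l := Real.mul_self_sqrt hl.le
      apply one_div_le_one_div_of_le (by linarith)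
      nlinarith
  | succ J ih =>
    intro M l hl
    rcases le_or_gt l 1 with h | h
    · rw [FB_one _ _ h, FB_one _ _ h]
      have : 0 ≤ rho ^ (J + 1) / Real.sqrt l := by positivity
      linarith
    · have e : J + 1 + M = J + M + 1 := by ring
      rw [e, FB_gt _ _ h, FB_gt _ _ h]
      have a := ih M (2 * l) (by linarith)
      have b := ih M (2 / 3 * l) (by linarith)
      obtain ⟨h2, h3, p2, p3⟩ := FB_sq
      have hs : 0 < Real.sqrt l := Real.sqrt_pos.2 hl
      have e2 : (rho ^ J / Real.sqrt (2 * l) + rho ^ J / Real.sqrt (2 / 3 * l)) / 2 =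
          rho ^ (J + 1) / Real.sqrt l := by
        rw [FB_sqrt2l, FB_sqrt23l, pow_succ]
        have e3 : rho ^ J * rho = rho ^ J * ((1 + Real.sqrt 3) / (2 * Real.sqrt 2)) := rfl
        rw [e3]
        field_simp
      linarith

private theorem FB_seven (J : ℕ) : ∀ l, 2 / 3 ≤ l →
    1 ≤ 3 / 2 * l * F J l + Real.sqrt l * rho ^ J := by
  have hr := FB_rho_pos
  induction J with
  | zero =>
    intro l hl
    rcases le_or_gt l 1 with h | h
    · rw [FB_one _ _ h]
      have : 0 ≤ Real.sqrt l * rho ^ 0 := by positivity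
      linarith
    · rw [FB_zero, if_neg (not_le.2 h), pow_zero, mul_zero, zero_add, mul_one]
      rw [Real.one_le_sqrt]
      exact h.le
  | succ J ih =>
    intro l hl
    rcases le_or_gt l 1 with h | h
    · rw [FB_one _ _ h]
      have : 0 ≤ Real.sqrt l * rho ^ (J + 1) := by positivity
      linarith
    · rw [FB_gt _ _ h]
      have a := ih (2 * l) (by linarith)
      have b := ih (2 / 3 * l) (by linarith)
      obtain ⟨h2, h3, p2, p3⟩ := FB_sq
      rw [FB_sqrt2l] at a
      rw [FB_sqrt23l] at b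
      have e : Real.sqrt 2 / 4 + 3 / 4 * (Real.sqrt 2 / Real.sqrt 3) = rho := by
        unfold rho
        field_simp
        nlinarith
      have e2 : Real.sqrt l * rho ^ (J + 1) = 1 / 4 * (Real.sqrt 2 * Real.sqrt l * rho ^ J) +
          3 / 4 * (Real.sqrt 2 / Real.sqrt 3 * Real.sqrt l * rho ^ J) := by
        rw [pow_succ]
        nth_rewrite 2 [← e]
        ring
      rw [e2]
      linarith

/-- [LIM FB] -/
theorem thm_FB : St_FB :=
  ⟨FB_rho, FB_bd, FB_anti, FB_mono, FB_inv, FB_six, FB_seven⟩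

end Pool.Agent.LIM
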