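import Pool.Agent.LIM.StA

/-!
[FI] The limit `Fi l = sup_J F J l`.
-/

set_option autoImplicit false

open Finset Filter Topology
open scoped Classical

namespace Pool.Agent.LIM

theorem FI_tendsto (h : St_FB) (l : ℝ) : Tendsto (fun J => F J l) atTop (𝓝 (Fi l)) := by
  obtain ⟨_, h2, _, h4, _⟩ := h
  exact tendsto_atTop_ciSup (monotone_nat_of_le_succ fun J => h4 J l)
    ⟨1, by rintro _ ⟨J, rfl⟩; exact (h2 J l).2⟩

theorem thm_FI (h : St_FB) : St_FI := by
  have ht := FI_tendsto h
  obtain ⟨⟨hr0, hr1, _⟩, h2, h3, h4, h5, h6, h7⟩ := h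
  have hle : ∀ J l, F J l ≤ Fi l := by
    intro J l
    exact (monotone_nat_of_le_succ fun J => h4 J l).ge_of_tendsto (ht l) J
  refine ⟨?_, ?_, ?_, ?_, ?_, ?_, hle, ?_⟩
  · intro l l' hl
    exact le_of_tendsto_of_tendsto' (ht l') (ht l) fun J => h3 J l l' hl
  · intro l
    exact ⟨ge_of_tendsto' (ht l) fun J => (h2 J l).1, le_of_tendsto' (ht l) fun J => (h2 J l).2⟩
  · intro l hl
    have h1 : ∀ J, F J l = 1 := by
      intro J
      cases J with
      | zero => simp [F, hl]
      | succ J => simp [F, hl]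
    exact tendsto_nhds_unique (ht l) (by simp only [h1]; exact tendsto_const_nhds)
  · intro l hl
    exact le_of_tendsto' (ht l) fun J => h5 J l hl
  · intro l hl
    have h1 : ∀ J, F (J + 1) l = (F J (2 * l) + F J (2 / 3 * l)) / 2 := by
      intro J
      simp only [F]
      rw [if_neg (not_le.2 hl)]
    have h8 : Tendsto (fun J => F (J + 1) l) atTop (𝓝 (Fi l)) :=
      (tendsto_add_atTop_iff_nat (f := fun J => F J l) 1).2 (ht l)
    simp only [h1] at h8
    exact tendsto_nhds_unique h8 (((ht (2 * l)).add (ht (2 / 3 * l))).div_const 2)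
  · intro l hl
    have hl0 : 0 < l := by linarith
    have h8 : Tendsto (fun J => 3 / 2 * l * F J l + Real.sqrt l * rho ^ J) atTop
        (𝓝 (3 / 2 * l * Fi l + Real.sqrt l * 0)) :=
      ((ht l).const_mul _).add ((tendsto_pow_atTop_nhds_zero_of_lt_one hr0.le hr1).const_mul _)
    rw [mul_zero, add_zero] at h8
    exact ge_of_tendsto' h8 fun J => h7 J l hl
  · intro J l hl
    have h8 : Tendsto (fun M => F (J + M) l) atTop (𝓝 (Fi l)) := by
      have h9 := (tendsto_add_atTop_iff_nat (f := fun J => F J l) J).2 (ht l)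
      refine h9.congr fun M => ?_
      rw [add_comm]
    refine le_of_tendsto' h8 fun M => ?_
    have := h6 J M l hl
    linarith

end Pool.Agent.LIM
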