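import Pool.Agent.LIM.StA

/-!
# LIM, module GI: facts on `G`
-/

set_option autoImplicit false

open Finset Filter Topology
open scoped Classical

namespace Pool.Agent.LIM

private theorem GI_tendsto (h1 : St_FB) (l : ℝ) :
    Tendsto (fun J => F J l) atTop (𝓝 (Fi l)) := by
  obtain ⟨-, h01, -, hmono, -⟩ := h1
  refine tendsto_atTop_ciSup (monotone_nat_of_le_succ fun J => hmono J l) ⟨1, ?_⟩
  rintro _ ⟨J, rfl⟩
  exact (h01 J l).2

private theorem GI_share_zero (l : ℝ) : share 0 l = 0 := by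
  unfold share
  have h : (univ.filter fun w : Fin 0 → Bool =>
      ∃ k, 1 ≤ k ∧ k ≤ 0 ∧ l * 2 ^ k ≤ 3 ^ ones k w) = ∅ := by
    apply filter_eq_empty_iff.mpr
    rintro w - ⟨k, hk1, hk2, -⟩
    omega
  rw [h]
  simp

private theorem GI_share_le (h1 : St_FB) (h3 : St_GW) (K : ℕ) (l : ℝ) : share K l ≤ 1 := by
  rcases K with _ | J
  · rw [GI_share_zero]
    exact zero_le_one
  · rw [h3]
    obtain ⟨-, h01, -⟩ := h1
    have a1 := (h01 J (2 * l)).2
    have a2 := (h01 J (2 / 3 * l)).2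
    unfold G1
    linarith

private theorem GI_bdd (h1 : St_FB) (h3 : St_GW) (l : ℝ) :
    BddAbove (Set.range fun K => share K l) := by
  refine ⟨1, ?_⟩
  rintro _ ⟨K, rfl⟩
  exact GI_share_le h1 h3 K l

private theorem GI_eq (h1 : St_FB) (h2 : St_FI) (h3 : St_GW) (l : ℝ) :
    G l = (Fi (2 * l) + Fi (2 / 3 * l)) / 2 := by
  obtain ⟨-, hFi01, -, -, -, -, hle, -⟩ := h2
  apply le_antisymm
  · refine ciSup_le fun K => ?_
    rcases K with _ | J
    · rw [GI_share_zero]
      have a1 := (hFi01 (2 * l)).1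
      have a2 := (hFi01 (2 / 3 * l)).1
      linarith
    · rw [h3]
      have a1 := hle J (2 * l)
      have a2 := hle J (2 / 3 * l)
      unfold G1
      linarith
  · have ht : Tendsto (fun J => (F J (2 * l) + F J (2 / 3 * l)) / 2) atTop
        (𝓝 ((Fi (2 * l) + Fi (2 / 3 * l)) / 2)) :=
      ((GI_tendsto h1 (2 * l)).add (GI_tendsto h1 (2 / 3 * l))).div_const 2
    refine le_of_tendsto' ht fun J => ?_
    have h4 : share (J + 1) l ≤ G l := le_ciSup (GI_bdd h1 h3 l) (J + 1)
    rw [h3] at h4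
    exact h4

private theorem GI_rho : (1 / Real.sqrt 2 + 1 / Real.sqrt (2 / 3)) / 2 = rho := by
  unfold rho
  have h2 : (0 : ℝ) < Real.sqrt 2 := Real.sqrt_pos.mpr (by norm_num)
  have h3 : (0 : ℝ) < Real.sqrt 3 := Real.sqrt_pos.mpr (by norm_num)
  have h5 : Real.sqrt (2 / 3) = Real.sqrt 2 / Real.sqrt 3 := Real.sqrt_div (by norm_num) 3
  rw [h5]
  field_simp

theorem thm_GI (h1 : St_FB) (h2 : St_FI) (h3 : St_GW) : St_GI := by
  have hG := GI_eq h1 h2 h3
  obtain ⟨hanti, hFi01, hone, hinv, hrec, hlow, hle, hup⟩ := h2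
  have hG1 : ∀ l, 1 < l → G l = Fi l := by
    intro l hl
    rw [hG, ← hrec l hl]
  refine ⟨hG, hG1, ?_, ?_, ?_, ?_, ?_⟩
  · intro l l' hll
    rw [hG, hG]
    have a1 := hanti (2 * l) (2 * l') (by linarith)
    have a2 := hanti (2 / 3 * l) (2 / 3 * l') (by linarith)
    linarith
  · intro l
    rw [hG]
    have a1 := hFi01 (2 * l)
    have a2 := hFi01 (2 / 3 * l)
    constructor
    · linarith [a1.1, a2.1]
    · linarith [a1.2, a2.2]
  · intro J l
    rw [hG]
    have a1 := hle J (2 * l)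
    have a2 := hle J (2 / 3 * l)
    unfold G1
    linarith
  · intro J l hl
    rw [hG]
    have a1 := hup J (2 * l) (by linarith)
    have a2 := hup J (2 / 3 * l) (by linarith)
    have hs : (0 : ℝ) < Real.sqrt l := Real.sqrt_pos.mpr hl
    have e1 : Real.sqrt (2 * l) = Real.sqrt 2 * Real.sqrt l := Real.sqrt_mul (by norm_num) l
    have e2 : Real.sqrt (2 / 3 * l) = Real.sqrt (2 / 3) * Real.sqrt l :=
      Real.sqrt_mul (by norm_num) l
    have key : (rho ^ J / Real.sqrt (2 * l) + rho ^ J / Real.sqrt (2 / 3 * l)) / 2 =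
        rho ^ (J + 1) / Real.sqrt l := by
      have e3 : rho ^ (J + 1) = rho ^ J * ((1 / Real.sqrt 2 + 1 / Real.sqrt (2 / 3)) / 2) := by
        rw [GI_rho, pow_succ]
      rw [e1, e2, e3]
      have h5 : (0 : ℝ) < Real.sqrt 2 := Real.sqrt_pos.mpr (by norm_num)
      have h6 : (0 : ℝ) < Real.sqrt (2 / 3) := Real.sqrt_pos.mpr (by norm_num)
      field_simp
    unfold G1
    rw [← key]
    linarith
  · intro l hl
    rcases hl.eq_or_lt with h | h
    · rw [← h, hG]
      have a1 := hlow 2 (by norm_num)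
      have a2 := hinv 2 (by norm_num)
      have a3 := hone (2 / 3 * 1) (by norm_num)
      rw [a3, mul_one]
      constructor
      · linarith
      · linarith
    · have hl0 : (0 : ℝ) < l := by linarith
      rw [hG1 l h]
      refine ⟨?_, hinv l hl0⟩
      have a1 := hlow l (by linarith)
      rw [div_le_iff₀ (by positivity)]
      linarith

end Pool.Agent.LIM
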