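import Pool.Agent.LIM.StA

/-!
# [GW] The share of words
-/

set_option autoImplicit false

open Finset Filter Topology
open scoped Classical

namespace Pool.Agent.LIM

/-- Splitting of the first letter. -/
private theorem GW_split (K : ℕ) (P : (Fin (K + 1) → Bool) → Prop) :
    (univ.filter P).card =
      (univ.filter fun w : Fin K → Bool => P (Fin.cons false w)).card +
      (univ.filter fun w : Fin K → Bool => P (Fin.cons true w)).card := by
  simp only [Finset.card_filter]
  rw [← Equiv.sum_comp (Fin.consEquiv (fun _ : Fin (K + 1) => Bool))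
    (fun w => if P w then 1 else 0), Fintype.sum_prod_type, Fintype.sum_bool, add_comm]
  rfl

private theorem GW_ones (k K : ℕ) (b : Bool) (w : Fin K → Bool) :
    ones (k + 1) (Fin.cons b w : Fin (K + 1) → Bool) = (if b = true then 1 else 0) + ones k w := by
  unfold ones
  simp only [Finset.card_filter]
  rw [Fin.sum_univ_succ]
  congr 1
  · cases b <;> simp
  · refine Finset.sum_congr rfl fun i _ => ?_
    simp

private theorem GW_false (l : ℝ) (k K : ℕ) (w : Fin K → Bool) :
    l * 2 ^ (k + 1) ≤ 3 ^ ones (k + 1) (Fin.cons false w : Fin (K + 1) → Bool) ↔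
      2 * l * 2 ^ k ≤ 3 ^ ones k w := by
  rw [GW_ones, pow_succ]
  have h : l * (2 ^ k * 2) = 2 * l * 2 ^ k := by ring
  rw [h]
  simp

private theorem GW_true (l : ℝ) (k K : ℕ) (w : Fin K → Bool) :
    l * 2 ^ (k + 1) ≤ 3 ^ ones (k + 1) (Fin.cons true w : Fin (K + 1) → Bool) ↔
      2 / 3 * l * 2 ^ k ≤ 3 ^ ones k w := by
  rw [GW_ones, if_pos rfl, pow_succ, pow_add, pow_one]
  have h : l * (2 ^ k * 2) = 3 * (2 / 3 * l * 2 ^ k) := by ring
  rw [h]
  constructor
  · intro h
    linarith
  · intro h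
    linarith

/-- The number of words with the property at some time `0 ≤ k ≤ K`. -/
private noncomputable def GWc (K : ℕ) (l : ℝ) : ℕ :=
  (univ.filter fun w : Fin K → Bool => ∃ k, k ≤ K ∧ l * 2 ^ k ≤ 3 ^ ones k w).card

private noncomputable def GWg (K : ℕ) (l : ℝ) : ℕ :=
  (univ.filter fun w : Fin K → Bool => ∃ k, 1 ≤ k ∧ k ≤ K ∧ l * 2 ^ k ≤ 3 ^ ones k w).card

private theorem GW_g (K : ℕ) (l : ℝ) :
    GWg (K + 1) l = GWc K (2 * l) + GWc K (2 / 3 * l) := by
  unfold GWg GWc
  rw [GW_split]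
  congr 1
  · refine congrArg _ (Finset.filter_congr fun w _ => ?_)
    constructor
    · rintro ⟨k, h1, h2, h3⟩
      obtain ⟨j, rfl⟩ : ∃ j, k = j + 1 := ⟨k - 1, by omega⟩
      exact ⟨j, by omega, (GW_false l j K w).1 h3⟩
    · rintro ⟨j, h1, h2⟩
      exact ⟨j + 1, by omega, by omega, (GW_false l j K w).2 h2⟩
  · refine congrArg _ (Finset.filter_congr fun w _ => ?_)
    constructor
    · rintro ⟨k, h1, h2, h3⟩
      obtain ⟨j, rfl⟩ : ∃ j, k = j + 1 := ⟨k - 1, by omega⟩
      exact ⟨j, by omega, (GW_true l j K w).1 h3⟩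
    · rintro ⟨j, h1, h2⟩
      exact ⟨j + 1, by omega, by omega, (GW_true l j K w).2 h2⟩

private theorem GW_le (K : ℕ) (l : ℝ) (hl : l ≤ 1) : GWc K l = 2 ^ K := by
  unfold GWc
  rw [Finset.filter_true_of_mem]
  · simp
  · intro w _
    refine ⟨0, Nat.zero_le _, ?_⟩
    simp [ones, hl]

private theorem GW_gt (K : ℕ) (l : ℝ) (hl : 1 < l) : GWc K l = GWg K l := by
  unfold GWc GWg
  refine congrArg _ (Finset.filter_congr fun w _ => ?_)
  constructor
  · rintro ⟨k, h1, h2⟩
    refine ⟨k, ?_, h1, h2⟩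
    rcases Nat.eq_zero_or_pos k with rfl | h
    · exfalso
      simp [ones] at h2
      linarith
    · exact h
  · rintro ⟨k, _, h1, h2⟩
    exact ⟨k, h1, h2⟩

private theorem GW_c : ∀ (K : ℕ) (l : ℝ), (GWc K l : ℝ) = 2 ^ K * F K l := by
  intro K
  induction K with
  | zero =>
      intro l
      by_cases hl : l ≤ 1
      · rw [GW_le 0 l hl]
        simp [F, hl]
      · rw [GW_gt 0 l (not_le.1 hl)]
        unfold GWg
        rw [Finset.filter_false_of_mem]
        · simp [F, hl]
        · rintro w _ ⟨k, h1, h2, _⟩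
          omega
  | succ K ih =>
      intro l
      by_cases hl : l ≤ 1
      · rw [GW_le (K + 1) l hl]
        simp [F, hl]
      · rw [GW_gt (K + 1) l (not_le.1 hl), GW_g]
        push_cast
        rw [ih, ih]
        simp only [F, if_neg hl]
        ring

theorem thm_GW : St_GW := by
  intro J l
  have h : share (J + 1) l = (GWg (J + 1) l : ℝ) / 2 ^ (J + 1) := rfl
  rw [h, GW_g]
  push_cast
  rw [GW_c, GW_c]
  unfold G1
  have h2 : (2 : ℝ) ^ J ≠ 0 := by positivity
  field_simp
  try ring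

end Pool.Agent.LIM
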