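import Pool.Agent.LIM.StA

/-!
# The limit law with horizon
-/

set_option autoImplicit false

open Finset Filter Topology
open scoped Classical

namespace Pool.Agent.LIM

open Pool.Agent.Collatz3.TX (T mul)

private theorem HOR_ncard (A : Set ℕ) (N : ℕ) :
    Set.ncard {n : ℕ | 1 ≤ n ∧ n ≤ N ∧ n ∈ A} = ((Icc 1 N).filter fun n => n ∈ A).card := by
  rw [← Set.ncard_coe_finset]
  congr 1
  ext n
  simp only [Set.mem_ofPred_eq, coe_filter, mem_Icc]
  constructor
  · rintro ⟨h1, h2, h3⟩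
    exact ⟨⟨h1, h2⟩, h3⟩
  · rintro ⟨⟨h1, h2⟩, h3⟩
    exact ⟨h1, h2, h3⟩

/-- the early times -/
private theorem HOR_ear (h3 : St_EAR) (J : ℕ) (l : ℝ) (N : ℕ) :
    ∃ P : Finset ℕ, (∀ n, n ∈ P ↔ 1 ≤ n ∧ n ≤ N ∧ ∃ k, 1 ≤ k ∧ k ≤ J + 1 ∧ l ≤ mul k n) ∧
      |(P.card : ℝ) - N * G1 J l| ≤ 2 ^ (J + 1) - 1 := by
  have h := h3 J l 1 1 N (by norm_num)
  refine ⟨((range N).filter fun m => ∃ k, 1 ≤ k ∧ k ≤ J + 1 ∧ l ≤ mul k (1 * m + 1)).image
    (fun m => m + 1), ?_, ?_⟩
  · intro n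
    rw [mem_image]
    constructor
    · rintro ⟨m, hm, rfl⟩
      rw [mem_filter, mem_range] at hm
      obtain ⟨hm1, k, hk1, hk2, hk3⟩ := hm
      rw [one_mul] at hk3
      exact ⟨by omega, by omega, k, hk1, hk2, hk3⟩
    · rintro ⟨hn1, hn2, k, hk1, hk2, hk3⟩
      refine ⟨n - 1, ?_, by omega⟩
      rw [mem_filter, mem_range]
      refine ⟨by omega, k, hk1, hk2, ?_⟩
      rw [one_mul, Nat.sub_add_cancel hn1]
      exact hk3
  · rw [card_image_of_injective _ (fun a b hab => by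
      have : a + 1 = b + 1 := hab
      omega)]
    exact h

theorem thm_HOR (h1 : St_FB) (h2 : St_GI) (h3 : St_EAR) (h4 : St_CMP) (h5 : St_MID)
    (h6 : St_LAT) : St_HOR := by
  intro C hC hCH l hl
  obtain ⟨⟨hr0, hr1, -⟩, -, -, -, -, -, -⟩ := h1
  obtain ⟨-, -, -, -, hg1, hg2, -⟩ := h2
  obtain ⟨-, hc2, hc3⟩ := h4
  obtain ⟨η₀, hη0, hη⟩ := h6 C hC hCH
  obtain ⟨δ, hδ0, hδ1, hlat⟩ := hη (min η₀ (1 / 2)) (lt_min hη0 (by norm_num)) (min_le_left _ _)
  set X : Set ℕ := {n : ℕ | ∃ k : ℕ, 1 ≤ k ∧ (k : ℝ) ≤ C * Real.log n ∧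
    l * n < ((T^[k] n : ℕ) : ℝ)} with hX
  unfold HasDensity
  rw [Metric.tendsto_nhds]
  intro ε hε
  -- the choice of `J`
  have hρ : Tendsto (fun J : ℕ => 2 * rho ^ (J + 1)) atTop (𝓝 (2 * 0)) :=
    ((tendsto_pow_atTop_nhds_zero_of_lt_one hr0.le hr1).comp (tendsto_add_atTop_nat 1)).const_mul 2
  rw [mul_zero] at hρ
  obtain ⟨J, hJ⟩ := (hρ.eventually (gt_mem_nhds (show (0 : ℝ) < ε / 2 by linarith))).exists
  -- thresholds
  obtain ⟨n₀, hn₀⟩ := hc3 (J + 1) l (by linarith)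
  have hlog : ∀ᶠ n : ℕ in atTop, ((J + 1 : ℕ) : ℝ) ≤ C * Real.log n := by
    have h7 : Tendsto (fun n : ℕ => C * Real.log n) atTop atTop :=
      (Real.tendsto_log_atTop.comp tendsto_natCast_atTop_atTop).const_mul_atTop hC
    exact h7.eventually_ge_atTop _
  obtain ⟨n₁, hn₁⟩ := eventually_atTop.1 hlog
  set A : ℝ := (n₀ : ℝ) + n₁ + 2 ^ (J + 1) with hA
  have hsmall : ∀ᶠ N : ℕ in atTop, A / (N : ℝ) + (N : ℝ) ^ (1 - δ) / (N : ℝ) < ε / 2 := by
    have h7 : Tendsto (fun N : ℕ => A / (N : ℝ)) atTop (𝓝 0) :=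
      tendsto_const_div_atTop_nhds_zero_nat A
    have h8 : Tendsto (fun N : ℕ => (N : ℝ) ^ (-δ)) atTop (𝓝 0) :=
      (tendsto_rpow_neg_atTop hδ0).comp tendsto_natCast_atTop_atTop
    have h9 : Tendsto (fun N : ℕ => (N : ℝ) ^ (1 - δ) / (N : ℝ)) atTop (𝓝 0) := by
      refine h8.congr' ?_
      filter_upwards [eventually_gt_atTop 0] with N hN
      have hN' : (0 : ℝ) < N := by exact_mod_cast hN
      rw [← Real.rpow_sub_one hN'.ne']
      congr 1
      ring
    have h10 := h7.add h9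
    rw [add_zero] at h10
    exact h10.eventually (gt_mem_nhds (by linarith))
  filter_upwards [hsmall, h5 (J + 2), hlat, eventually_gt_atTop 0] with N hN hmid hlatN hNpos
  have hNR : (0 : ℝ) < N := by exact_mod_cast hNpos
  obtain ⟨P, hP, hPc⟩ := HOR_ear h3 J l N
  obtain ⟨hPc1, hPc2⟩ := abs_le.1 hPc
  rw [HOR_ncard]
  set XN := (Icc 1 N).filter fun n => n ∈ X with hXN
  -- lower bound
  have hlow : P.card ≤ XN.card + n₁ := by
    have hsub : P ⊆ XN ∪ range n₁ := by
      intro n hn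
      obtain ⟨ha, hb, k, hk1, hk2, hk3⟩ := (hP n).1 hn
      rcases Nat.lt_or_ge n n₁ with h | h
      · exact mem_union_right _ (mem_range.2 h)
      · refine mem_union_left _ (mem_filter.2 ⟨mem_Icc.2 ⟨ha, hb⟩, k, hk1, ?_, hc2 k n l ha hk1 hl hk3⟩)
        have h7 := hn₁ n h
        have h8 : (k : ℝ) ≤ ((J + 1 : ℕ) : ℝ) := by exact_mod_cast hk2
        exact h8.trans h7
    have h7 := (card_le_card hsub).trans (card_union_le _ _)
    rw [card_range] at h7
    exact h7
  -- upper bound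
  set MN := (Icc 1 N).filter fun n => ∃ k, J + 2 ≤ k ∧ k ≤ Nat.log 2 N / 2 ∧ n < T^[k] n with hMN
  set LN := (Icc 1 N).filter fun n : ℕ => ∃ k : ℕ, min η₀ (1 / 2) * Real.log n ≤ k ∧
    (k : ℝ) ≤ C * Real.log n ∧ n ≤ T^[k] n with hLN
  have hup : XN.card ≤ n₀ + (P.card + (MN.card + LN.card)) := by
    have hsub : XN ⊆ range n₀ ∪ (P ∪ (MN ∪ LN)) := by
      intro n hn
      obtain ⟨hn1, k, hk1, hk2, hk3⟩ := mem_filter.1 hn
      obtain ⟨ha, hb⟩ := mem_Icc.1 hn1
      rcases Nat.lt_or_ge n n₀ with h | h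
      · exact mem_union_left _ (mem_range.2 h)
      · refine mem_union_right _ ?_
        rcases Nat.lt_or_ge (J + 1) k with hk | hk
        · refine mem_union_right _ ?_
          have hnT : n < T^[k] n := by
            have h7 : (n : ℝ) < ((T^[k] n : ℕ) : ℝ) := by
              refine lt_of_le_of_lt ?_ hk3
              have : (0 : ℝ) ≤ n := Nat.cast_nonneg _
              nlinarith
            exact_mod_cast h7
          rcases Nat.lt_or_ge (Nat.log 2 N / 2) k with hq | hq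
          · refine mem_union_right _ (mem_filter.2 ⟨hn1, k, ?_, hk2, hnT.le⟩)
            -- `k ≥ (log_2 N) / 2`
            have hnR : (1 : ℝ) ≤ n := by exact_mod_cast ha
            have hlogn : 0 ≤ Real.log n := Real.log_nonneg hnR
            have h7 : Real.log n ≤ Real.log N :=
              Real.log_le_log (by linarith) (by exact_mod_cast hb)
            have h8 : N < 2 ^ (Nat.log 2 N + 1) := Nat.lt_pow_succ_log_self (by norm_num) N
            have h9 : Real.log N ≤ ((Nat.log 2 N + 1 : ℕ) : ℝ) * Real.log 2 := by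
              rw [← Real.log_pow]
              refine Real.log_le_log hNR ?_
              have : (N : ℝ) < ((2 ^ (Nat.log 2 N + 1) : ℕ) : ℝ) := by exact_mod_cast h8
              push_cast at this
              exact this.le
            have h10 : Nat.log 2 N + 1 ≤ 2 * k := by omega
            have h11 : ((Nat.log 2 N + 1 : ℕ) : ℝ) ≤ 2 * (k : ℝ) := by exact_mod_cast h10
            have h12 : Real.log 2 ≤ 1 := by
              have := Real.log_two_lt_d9
              linarith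
            have h13 : 0 < Real.log 2 := Real.log_pos (by norm_num)
            have h14 : ((Nat.log 2 N + 1 : ℕ) : ℝ) * Real.log 2 ≤ 2 * (k : ℝ) := by
              have : (0 : ℝ) ≤ ((Nat.log 2 N + 1 : ℕ) : ℝ) := Nat.cast_nonneg _
              nlinarith
            calc min η₀ (1 / 2) * Real.log n ≤ 1 / 2 * Real.log n :=
                mul_le_mul_of_nonneg_right (min_le_right _ _) hlogn
              _ ≤ k := by linarith
          · exact mem_union_left _ (mem_filter.2 ⟨hn1, k, by omega, hq, hnT⟩)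
        · refine mem_union_left _ ((hP n).2 ⟨ha, hb, k, hk1, hk, hn₀ n h k hk hk3⟩)
    have h7 := (card_le_card hsub).trans (card_union_le _ _)
    have h8 := card_union_le P (MN ∪ LN)
    have h9 := card_union_le MN LN
    rw [card_range] at h7
    omega
  have hlowR : (P.card : ℝ) ≤ XN.card + n₁ := by exact_mod_cast hlow
  have hupR : (XN.card : ℝ) ≤ n₀ + (P.card + (MN.card + LN.card)) := by exact_mod_cast hup
  have hG1 := hg1 J l
  have hG2 := hg2 J l (by linarith)
  have hsq : rho ^ (J + 1) / Real.sqrt l ≤ rho ^ (J + 1) := by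
    refine div_le_self (pow_nonneg hr0.le _) ?_
    rw [← Real.sqrt_one]
    exact Real.sqrt_le_sqrt hl
  have hpw : rho ^ (J + 2) ≤ rho ^ (J + 1) := pow_le_pow_of_le_one hr0.le hr1.le (by omega)
  have hpw0 : 0 ≤ rho ^ (J + 1) := pow_nonneg hr0.le _
  have hδN : 0 ≤ (N : ℝ) ^ (1 - δ) / (N : ℝ) := by positivity
  have hAN : 0 ≤ A / (N : ℝ) := by positivity
  have hA' : A = (A / (N : ℝ)) * N := by field_simp
  have hB' : (N : ℝ) ^ (1 - δ) = ((N : ℝ) ^ (1 - δ) / (N : ℝ)) * N := by field_simp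
  rw [Real.dist_eq, abs_lt]
  constructor
  · have h7 : (G l - ε) * N < XN.card := by
      have h8 : (G l) * N ≤ (G1 J l + rho ^ (J + 1)) * N :=
        mul_le_mul_of_nonneg_right (by linarith) hNR.le
      have h9 : (rho ^ (J + 1) + A / (N : ℝ)) * N < ε * N :=
        mul_lt_mul_of_pos_right (by linarith) hNR
      have h10 : (0 : ℝ) ≤ n₀ := Nat.cast_nonneg _
      rw [add_mul, ← hA'] at h9
      nlinarith
    have h8 : G l - ε < XN.card / N := by
      rw [lt_div_iff₀ hNR]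
      exact h7
    linarith
  · have h7 : (XN.card : ℝ) < (G l + ε) * N := by
      have h8 : (G1 J l) * N ≤ G l * N := mul_le_mul_of_nonneg_right hG1 hNR.le
      have h9 : (2 * rho ^ (J + 1) + (A / (N : ℝ) + (N : ℝ) ^ (1 - δ) / (N : ℝ))) * N < ε * N :=
        mul_lt_mul_of_pos_right (by linarith) hNR
      have h10 : (0 : ℝ) ≤ n₁ := Nat.cast_nonneg _
      have h11 : 2 * rho ^ (J + 2) * N ≤ 2 * rho ^ (J + 1) * N :=
        mul_le_mul_of_nonneg_right (by linarith) hNR.le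
      rw [add_mul, add_mul, ← hA', ← hB'] at h9
      nlinarith
    have h8 : XN.card / N < G l + ε := by
      rw [div_lt_iff₀ hNR]
      exact h7
    linarith

end Pool.Agent.LIM
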