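import Pool.Agent.LIM.StA

/-!
[KAP] The constant `kappa`.
-/

set_option autoImplicit false

open Finset Filter Topology
open scoped Classical

namespace Pool.Agent.LIM

theorem thm_KAP (h1 : St_FI) (h2 : St_GI) (h3 : St_REN) : St_KAP := by
  obtain ⟨a1, a2, a3, a4, a5, a6, a7, a8⟩ := h1
  obtain ⟨b1, b2, b3, b4, b5, b6, b7⟩ := h2
  have hlim := h3 Fi a1 (fun l => (a2 l).1) a4 a3 a5
  have hint : (∫ u in (1 : ℝ)..2, Fi u) = ∫ u in (1 : ℝ)..2, G u := by
    apply intervalIntegral.integral_congr_ae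
    refine Eventually.of_forall fun u hu => ?_
    rw [Set.uIoc_of_le (by norm_num : (1 : ℝ) ≤ 2)] at hu
    exact (b2 u hu.1).symm
  have hk : (1 - ∫ u in (1 : ℝ)..2, Fi u) / Real.log (27 / 16) = kappa := by
    rw [hint]; rfl
  rw [hk] at hlim
  have hT : Tendsto (fun l : ℝ => l * G l) atTop (𝓝 kappa) := by
    refine hlim.congr' ?_
    filter_upwards [eventually_gt_atTop (1 : ℝ)] with l hl
    rw [b2 l hl]
  refine ⟨hT, ?_, ?_⟩
  · refine ge_of_tendsto hT ?_
    filter_upwards [eventually_ge_atTop (1 : ℝ)] with l hl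
    have h := (b7 l hl).1
    have hl0 : 0 < l := by linarith
    have h' : l * (2 / (3 * l)) ≤ l * G l := mul_le_mul_of_nonneg_left h hl0.le
    have h'' : l * (2 / (3 * l)) = 2 / 3 := by field_simp
    linarith
  · refine le_of_tendsto hT ?_
    filter_upwards [eventually_ge_atTop (1 : ℝ)] with l hl
    have h := (b7 l hl).2
    have hl0 : 0 < l := by linarith
    have h' : l * G l ≤ l * (1 / l) := mul_le_mul_of_nonneg_left h hl0.le
    have h'' : l * (1 / l) = 1 := by field_simp
    linarith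

end Pool.Agent.LIM
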