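import Pool.Agent.LIM.EAR

set_option autoImplicit false

open Finset Filter Topology
open scoped Classical

namespace Pool.Agent.LIM

open Pool.Agent.Collatz3.TX (T mul)

private theorem LBD_rho (l : ℝ) (hl : 0 < l) :
    1 / Real.sqrt (2 * l) + 1 / Real.sqrt (2 / 3 * l) = 2 * rho / Real.sqrt l := by
  have h2 : 0 < Real.sqrt 2 := Real.sqrt_pos.2 (by norm_num)
  have h3 : 0 < Real.sqrt 3 := Real.sqrt_pos.2 (by norm_num)
  have hs : 0 < Real.sqrt l := Real.sqrt_pos.2 hl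
  have e1 : Real.sqrt (2 * l) = Real.sqrt 2 * Real.sqrt l := Real.sqrt_mul (by norm_num) _
  have e2 : Real.sqrt (2 / 3 * l) = Real.sqrt 2 / Real.sqrt 3 * Real.sqrt l := by
    rw [Real.sqrt_mul (by norm_num), Real.sqrt_div (by norm_num)]
  rw [e1, e2, rho]
  field_simp
  try ring

theorem thm_LBD (h : St_FB) : St_LBD := by
  intro J
  have hρ0 : 0 < rho := h.1.1
  induction J with
  | zero =>
    intro M l q r Y hl hq
    have h1 := EAR_F h M l q r Y hq
    have hb := h.2.1 M l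
    have h2 := h.2.2.2.2.1 M l hl
    have hs : 0 < Real.sqrt l := Real.sqrt_pos.2 hl
    have h3 : F M l ≤ 1 / Real.sqrt l := by
      rcases le_total l 1 with h4 | h4
      · refine hb.2.trans ?_
        rw [le_div_iff₀ hs, one_mul]
        exact Real.sqrt_le_one.2 h4
      · refine h2.trans ?_
        apply one_div_le_one_div_of_le hs
        rw [Real.sqrt_le_left hl.le]
        nlinarith
    have h4 := (abs_le.1 h1).2
    have h5 : (Y : ℝ) * F M l ≤ Y * (1 / Real.sqrt l) :=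
      mul_le_mul_of_nonneg_left h3 (Nat.cast_nonneg _)
    have e : ((Y : ℝ) + 2 ^ 0 - 1) * rho ^ 0 / Real.sqrt l + 2 ^ 0 * (2 ^ M - 1) =
        Y * (1 / Real.sqrt l) + (2 ^ M - 1) := by
      ring
    rw [e]
    simp only [zero_add]
    linarith
  | succ J ih =>
    intro M l q r Y hl hq
    obtain ⟨r0, r1, Y0, Y1, hY, hY1, hY2, hs⟩ := EAR_split J (J + M) l q r Y hq
    have hJM : J + 1 + M = J + M + 1 := by omega
    rw [hJM, hs]
    have a0 := ih M (2 * l) q r0 Y0 (by linarith) hq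
    have a1 := ih M (2 / 3 * l) (3 * q) r1 Y1 (by linarith) (by omega)
    have hsl : 0 < Real.sqrt l := Real.sqrt_pos.2 hl
    have hs2 : 0 < Real.sqrt (2 * l) := Real.sqrt_pos.2 (by linarith)
    have hs3 : 0 < Real.sqrt (2 / 3 * l) := Real.sqrt_pos.2 (by linarith)
    have hY0' : (Y0 : ℝ) ≤ (Y + 1) / 2 := by
      have : (2 * Y0 : ℕ) ≤ Y + 1 := by omega
      have : (2 : ℝ) * Y0 ≤ Y + 1 := by exact_mod_cast this
      linarith
    have hY1' : (Y1 : ℝ) ≤ (Y + 1) / 2 := by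
      have : (2 * Y1 : ℕ) ≤ Y + 1 := by omega
      have : (2 : ℝ) * Y1 ≤ Y + 1 := by exact_mod_cast this
      linarith
    have hρJ : 0 < rho ^ J := pow_pos hρ0 J
    have b0 : ((Y0 : ℝ) + 2 ^ J - 1) * rho ^ J / Real.sqrt (2 * l) ≤
        (((Y : ℝ) + 1) / 2 + 2 ^ J - 1) * rho ^ J * (1 / Real.sqrt (2 * l)) := by
      rw [mul_one_div]
      gcongr
    have b1 : ((Y1 : ℝ) + 2 ^ J - 1) * rho ^ J / Real.sqrt (2 / 3 * l) ≤
        (((Y : ℝ) + 1) / 2 + 2 ^ J - 1) * rho ^ J * (1 / Real.sqrt (2 / 3 * l)) := by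
      rw [mul_one_div]
      gcongr
    have hρ := LBD_rho l hl
    have e : ((Y : ℝ) + 2 ^ (J + 1) - 1) * rho ^ (J + 1) / Real.sqrt l +
        2 ^ (J + 1) * (2 ^ M - 1) =
        (((Y : ℝ) + 1) / 2 + 2 ^ J - 1) * rho ^ J *
          (1 / Real.sqrt (2 * l) + 1 / Real.sqrt (2 / 3 * l)) + 2 * (2 ^ J * (2 ^ M - 1)) := by
      rw [hρ]
      field_simp
      ring
    rw [e]
    push_cast
    linarith

end Pool.Agent.LIM
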