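import Pool.Agent.LIM.LCU

set_option autoImplicit false

open Finset Filter Topology
open scoped Classical

namespace Pool.Agent.LIM

open Pool.Agent.Collatz3.TX (T mul)

theorem LCL_count (h5 : St_CMP) (C c ε y l : ℝ) (J : ℕ) (hc : 1 < c)
    (hy : 1 ≤ y) (hε : 0 < ε) (hJ : ((J + 1 : ℕ) : ℝ) ≤ C * Real.log y) (hC : 0 < C)
    (hl : ((1 + ε) * y) ^ (c - 1) ≤ l) :
    NX C c y +
      (((range (⌊(1 + ε) * y⌋₊ - ⌊y⌋₊)).filter fun m => ∃ k, 1 ≤ k ∧ k ≤ J + 1 ∧
        l ≤ mul k (1 * m + (⌊y⌋₊ + 1))).card : ℝ) ≤ NX C c ((1 + ε) * y) := by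
  set A : ℝ → Set ℕ := fun x => {n : ℕ | 1 ≤ n ∧ (n : ℝ) ≤ x ∧ ∃ k : ℕ, 1 ≤ k ∧
    (k : ℝ) ≤ C * Real.log n ∧ (n : ℝ) ^ c ≤ ((T^[k] n : ℕ) : ℝ)} with hA
  set B : Finset ℕ := (range (⌊(1 + ε) * y⌋₊ - ⌊y⌋₊)).filter fun m => ∃ k, 1 ≤ k ∧ k ≤ J + 1 ∧
        l ≤ mul k (1 * m + (⌊y⌋₊ + 1)) with hB
  have hyx : y ≤ (1 + ε) * y := by nlinarith
  have hfin : ∀ x : ℝ, (A x).Finite := by
    intro x
    apply (Set.finite_Icc 1 ⌊x⌋₊).subset
    rintro n ⟨h1, h2, -⟩
    exact ⟨h1, Nat.le_floor h2⟩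
  have hsub : A y ∪ ((B.image fun m => m + (⌊y⌋₊ + 1) : Finset ℕ) : Set ℕ) ⊆
      A ((1 + ε) * y) := by
    rintro n (hn | hn)
    · exact ⟨hn.1, hn.2.1.trans hyx, hn.2.2⟩
    · rw [Finset.mem_coe, mem_image] at hn
      obtain ⟨m, hm, rfl⟩ := hn
      rw [hB, mem_filter, mem_range] at hm
      obtain ⟨hm1, k, hk1, hk2, hk3⟩ := hm
      have e : 1 * m + (⌊y⌋₊ + 1) = m + (⌊y⌋₊ + 1) := by omega
      rw [e] at hk3
      set n : ℕ := m + (⌊y⌋₊ + 1) with hn
      have hn1 : 1 ≤ n := by omega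
      have hny : y < n := by
        have := Nat.lt_floor_add_one y
        have h2 : ((⌊y⌋₊ + 1 : ℕ) : ℝ) ≤ n := by exact_mod_cast (by omega : ⌊y⌋₊ + 1 ≤ n)
        push_cast at h2
        linarith
      have hnx : (n : ℝ) ≤ (1 + ε) * y := by
        have h1 : n ≤ ⌊(1 + ε) * y⌋₊ := by omega
        exact (Nat.le_floor_iff (by linarith)).1 h1
      have hn0 : (0 : ℝ) < n := by linarith
      refine ⟨hn1, hnx, k, hk1, ?_, ?_⟩
      · have h1 : (k : ℝ) ≤ ((J + 1 : ℕ) : ℝ) := by exact_mod_cast hk2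
        have h2 : Real.log y ≤ Real.log n := Real.log_le_log (by linarith) hny.le
        nlinarith
      · have h1 := h5.1 k n
        have h2 : (n : ℝ) ^ (c - 1) ≤ l :=
          (Real.rpow_le_rpow hn0.le hnx (by linarith)).trans hl
        calc (n : ℝ) ^ c = (n : ℝ) ^ (c - 1) * n := by
              rw [Real.rpow_sub_one hn0.ne']
              field_simp
          _ ≤ mul k n * n := mul_le_mul_of_nonneg_right (h2.trans hk3) hn0.le
          _ ≤ _ := h1
  have hdis : Disjoint (A y) ((B.image fun m => m + (⌊y⌋₊ + 1) : Finset ℕ) : Set ℕ) := by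
    rw [Set.disjoint_left]
    intro n hn hn'
    rw [Finset.mem_coe, mem_image] at hn'
    obtain ⟨m, -, rfl⟩ := hn'
    have h1 : ((m + (⌊y⌋₊ + 1) : ℕ) : ℝ) ≤ y := hn.2.1
    have h2 := Nat.lt_floor_add_one y
    push_cast at h1
    have h3 : (0 : ℝ) ≤ m := Nat.cast_nonneg _
    linarith
  have h1 := Set.ncard_le_ncard hsub (hfin _)
  rw [Set.ncard_union_eq hdis (hfin y) (Finset.finite_toSet _), Set.ncard_coe_finset,
    card_image_of_injective _ (fun a b hab => by simpa using hab)] at h1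
  have h2 : ((A y).ncard : ℝ) + B.card ≤ (A ((1 + ε) * y)).ncard := by exact_mod_cast h1
  have e1 : NX C c ((1 + ε) * y) = ((A ((1 + ε) * y)).ncard : ℝ) := rfl
  have e2 : NX C c y = ((A y).ncard : ℝ) := rfl
  rw [e1, e2]
  exact h2

theorem thm_LCL (h1 : St_FB) (h2 : St_GI) (h3 : St_KAP) (h4 : St_EAR) (h5 : St_CMP) :
    St_LCL := by
  intro C η c ε hC hη hη2 hηC hc hc2 hcη hε hε1
  obtain ⟨hρ0, hρ1, hρl⟩ := h1.1
  set J : ℝ → ℕ := fun y => ⌈η * Real.log ((1 + ε) * y)⌉₊ with hJ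
  set P : ℝ → ℝ := fun y => 2 ^ J y with hP
  have hP0 : ∀ y, 0 < P y := fun y => by rw [hP]; positivity
  have hPle : ∀ᶠ y in atTop, P y ≤ 4 * y ^ (7 / 20 : ℝ) := by
    filter_upwards [eventually_ge_atTop (1 : ℝ)] with y hy using
      LCU_pow η ε y hη hη2 hε hε1 hy
  have hq2 : Tendsto (fun y => P y / y ^ (2 - c)) atTop (𝓝 0) :=
    LCU_pow_div (2 - c) (by linarith) P (fun y => (hP0 y).le) hPle
  set l : ℝ → ℝ := fun y => ((1 + ε) * y) ^ (c - 1) with hl
  have hltop : Tendsto l atTop atTop :=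
    (tendsto_rpow_atTop (by linarith)).comp (tendsto_id.const_mul_atTop (by linarith))
  have hH : Tendsto (fun y => l y * G (l y)) atTop (𝓝 kappa) := h3.1.comp hltop
  set K : ℝ := (1 + ε) ^ (-(c - 1)) with hK
  have hKge : 1 - ε ≤ K := by
    have a1 : (1 + ε) ^ (-1 : ℝ) ≤ K :=
      Real.rpow_le_rpow_of_exponent_le (by linarith) (by linarith)
    have a2 : 1 - ε ≤ (1 + ε) ^ (-1 : ℝ) := by
      rw [Real.rpow_neg_one, ← one_div, le_div_iff₀ (by linarith)]
      nlinarith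
    linarith
  have hmain : Tendsto (fun y : ℝ => (ε - 1 / y) * K * (l y * G (l y))) atTop
      (𝓝 ((ε - 0) * K * kappa)) := by
    apply Tendsto.mul _ hH
    apply Tendsto.mul_const
    apply Tendsto.const_sub
    exact tendsto_inv_atTop_zero.congr (fun y => (one_div y).symm)
  have hrem : Tendsto (fun y : ℝ => ε * (y * (rho ^ J y / Real.sqrt (l y)) / y ^ (2 - c))) atTop
      (𝓝 0) := by
    have a1 : Tendsto (fun y : ℝ => ε * y ^ (-(3 / 100 * η - (c - 1) / 2))) atTop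
        (𝓝 (ε * 0)) := (tendsto_rpow_neg_atTop (by linarith)).const_mul _
    rw [mul_zero] at a1
    refine tendsto_of_tendsto_of_tendsto_of_le_of_le' tendsto_const_nhds a1 ?_ ?_
    · filter_upwards [eventually_gt_atTop (0 : ℝ)] with y hy
      have := Real.rpow_pos_of_pos hy (2 - c)
      positivity
    · filter_upwards [eventually_gt_atTop (1 : ℝ)] with y hy
      have hy0 : 0 < y := by linarith
      have hx1 : 1 ≤ (1 + ε) * y := by nlinarith
      have hyx : y ≤ (1 + ε) * y := by nlinarith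
      apply mul_le_mul_of_nonneg_left _ hε.le
      rw [div_le_iff₀ (Real.rpow_pos_of_pos hy0 _)]
      -- rho ^ J
      have b1 : rho ^ J y ≤ y ^ (-(3 / 100 * η)) := by
        have c1 : rho ^ J y ≤ rho ^ (η * Real.log ((1 + ε) * y)) := by
          rw [← Real.rpow_natCast]
          apply Real.rpow_le_rpow_of_exponent_ge hρ0 hρ1.le
          exact Nat.le_ceil _
        have c2 : rho ^ (η * Real.log ((1 + ε) * y)) =
            ((1 + ε) * y) ^ (η * Real.log rho) := by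
          rw [Real.rpow_def_of_pos hρ0, Real.rpow_def_of_pos (by linarith)]
          congr 1
          ring
        have c3 : ((1 + ε) * y) ^ (η * Real.log rho) ≤ ((1 + ε) * y) ^ (-(3 / 100 * η)) :=
          Real.rpow_le_rpow_of_exponent_le hx1 (by nlinarith)
        have c4 : ((1 + ε) * y) ^ (-(3 / 100 * η)) ≤ y ^ (-(3 / 100 * η)) :=
          Real.rpow_le_rpow_of_nonpos hy0 hyx (by linarith)
        linarith
      have b2 : y ^ ((c - 1) / 2) ≤ Real.sqrt (l y) := by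
        rw [hl, Real.sqrt_eq_rpow]
        simp only
        rw [← Real.rpow_mul (by linarith)]
        have : (c - 1) * (1 / 2) = (c - 1) / 2 := by ring
        rw [this]
        exact Real.rpow_le_rpow hy0.le hyx (by linarith)
      have b3 : 0 < y ^ ((c - 1) / 2) := Real.rpow_pos_of_pos hy0 _
      have b4 : rho ^ J y / Real.sqrt (l y) ≤ y ^ (-(3 / 100 * η)) / y ^ ((c - 1) / 2) :=
        div_le_div₀ (Real.rpow_nonneg hy0.le _) b1 b3 b2
      have b5 : y * (y ^ (-(3 / 100 * η)) / y ^ ((c - 1) / 2)) =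
          y ^ (-(3 / 100 * η - (c - 1) / 2)) * y ^ (2 - c) := by
        rw [← Real.rpow_sub hy0, ← Real.rpow_add hy0]
        nth_rewrite 1 [← Real.rpow_one y]
        rw [← Real.rpow_add hy0]
        congr 1
        ring
      calc y * (rho ^ J y / Real.sqrt (l y)) ≤
            y * (y ^ (-(3 / 100 * η)) / y ^ ((c - 1) / 2)) :=
            mul_le_mul_of_nonneg_left b4 hy0.le
        _ = _ := b5
  have hsum := (hmain.sub hrem).sub hq2
  have hk1 := h3.2.1
  have hk2 := h3.2.2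
  have hlim : kappa * ε - 2 * ε ^ 2 < (ε - 0) * K * kappa - 0 - 0 := by
    have a1 : ε * (1 - ε) * kappa ≤ ε * K * kappa := by
      apply mul_le_mul_of_nonneg_right _ (by linarith)
      exact mul_le_mul_of_nonneg_left hKge hε.le
    have a2 : ε ^ 2 * kappa ≤ ε ^ 2 := by
      have : 0 < ε ^ 2 := by positivity
      nlinarith
    have a3 : 0 < ε ^ 2 := by positivity
    nlinarith
  have hev := hsum.eventually (lt_mem_nhds hlim)
  have hlog1 : ∀ᶠ y in atTop, Real.log 2 + 2 / C ≤ Real.log y - 2 / C :=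
    (tendsto_atTop_add_const_right _ _ Real.tendsto_log_atTop).eventually
      (eventually_ge_atTop _)
  have hεy : ∀ᶠ y : ℝ in atTop, 1 ≤ ε * y :=
    (tendsto_id.const_mul_atTop hε).eventually (eventually_ge_atTop 1)
  filter_upwards [hev, hlog1, hεy, eventually_gt_atTop (1 : ℝ)] with y e1 e2 e3 hy
  have hy0 : 0 < y := by linarith
  have hx0 : 0 < (1 + ε) * y := by positivity
  have hlogx : 0 < Real.log ((1 + ε) * y) := Real.log_pos (by nlinarith)
  have hlog : 0 < η * Real.log ((1 + ε) * y) := mul_pos hη hlogx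
  have hlogy : 0 < Real.log y := Real.log_pos hy
  have hJ1 : 1 ≤ J y := by
    rw [hJ]
    exact Nat.ceil_pos.2 hlog
  obtain ⟨j, hj⟩ : ∃ j, J y = j + 1 := ⟨J y - 1, by omega⟩
  have hjl : ((j + 1 : ℕ) : ℝ) ≤ C * Real.log y := by
    rw [← hj]
    have a1 : (J y : ℝ) < η * Real.log ((1 + ε) * y) + 1 := Nat.ceil_lt_add_one hlog.le
    have a2 : Real.log ((1 + ε) * y) ≤ Real.log 2 + Real.log y := by
      rw [← Real.log_mul (by norm_num) hy0.ne']
      exact Real.log_le_log hx0 (by nlinarith)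
    have a3 : η * Real.log ((1 + ε) * y) ≤ C / 2 * (Real.log 2 + Real.log y) := by
      apply mul_le_mul hηC a2 hlogx.le (by linarith)
    have a4 : C / 2 * Real.log 2 + 1 ≤ C / 2 * Real.log y := by
      have a5 : 0 < 2 / C := by positivity
      have a6 : Real.log 2 + 2 / C ≤ Real.log y := by linarith
      have a7 := mul_le_mul_of_nonneg_left a6 (by linarith : 0 ≤ C / 2)
      have a8 : C / 2 * (2 / C) = 1 := by field_simp
      linarith
    linarith
  have hPj : P y = 2 ^ (j + 1) := by rw [hP]; simp only [hj]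
  have hc1 := LCL_count h5 C c ε y (l y) j hc hy.le hε hjl hC (le_refl _)
  have hear := h4 j (l y) 1 (⌊y⌋₊ + 1) (⌊(1 + ε) * y⌋₊ - ⌊y⌋₊) (by norm_num)
  have hear2 := (abs_le.1 hear).1
  have hly : 0 < l y := Real.rpow_pos_of_pos hx0 _
  have hG1 := h2.2.2.2.2.2.1 j (l y) hly
  have hG10 : 0 ≤ G1 j (l y) := by
    have a1 := (h1.2.1 j (2 * l y)).1
    have a2 := (h1.2.1 j (2 / 3 * l y)).1
    rw [G1]
    linarith
  have hfy : ⌊y⌋₊ ≤ ⌊(1 + ε) * y⌋₊ := Nat.floor_le_floor (by nlinarith)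
  have hYc : ε * y - 1 ≤ ((⌊(1 + ε) * y⌋₊ - ⌊y⌋₊ : ℕ) : ℝ) := by
    rw [Nat.cast_sub hfy]
    have a1 : (1 + ε) * y < ⌊(1 + ε) * y⌋₊ + 1 := Nat.lt_floor_add_one _
    have a2 : (⌊y⌋₊ : ℝ) ≤ y := Nat.floor_le hy0.le
    linarith
  have hr0 : 0 ≤ rho ^ (j + 1) / Real.sqrt (l y) := by positivity
  have hYG : (ε * y - 1) * G (l y) - ε * y * (rho ^ (j + 1) / Real.sqrt (l y)) ≤
      ((⌊(1 + ε) * y⌋₊ - ⌊y⌋₊ : ℕ) : ℝ) * G1 j (l y) := by
    have a1 : (ε * y - 1) * G1 j (l y) ≤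
        ((⌊(1 + ε) * y⌋₊ - ⌊y⌋₊ : ℕ) : ℝ) * G1 j (l y) :=
      mul_le_mul_of_nonneg_right hYc hG10
    have a2 : (ε * y - 1) * G (l y) ≤
        (ε * y - 1) * (G1 j (l y) + rho ^ (j + 1) / Real.sqrt (l y)) :=
      mul_le_mul_of_nonneg_left hG1 (by linarith)
    nlinarith
  have hyp : 0 < y ^ (2 - c) := Real.rpow_pos_of_pos hy0 _
  have e4 : ((ε - 1 / y) * K * (l y * G (l y))) * y ^ (2 - c) = (ε * y - 1) * G (l y) := by
    have a1 : K * l y = y ^ (c - 1) := by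
      rw [hK, hl]
      simp only
      rw [Real.mul_rpow (by linarith) hy0.le, ← mul_assoc, ← Real.rpow_add (by linarith)]
      rw [neg_add_cancel, Real.rpow_zero, one_mul]
    have a2 : y ^ (c - 1) * y ^ (2 - c) = y := by
      rw [← Real.rpow_add hy0]
      have : c - 1 + (2 - c) = 1 := by ring
      rw [this, Real.rpow_one]
    calc ((ε - 1 / y) * K * (l y * G (l y))) * y ^ (2 - c) =
        (ε - 1 / y) * ((K * l y) * y ^ (2 - c)) * G (l y) := by ring
      _ = (ε - 1 / y) * y * G (l y) := by rw [a1, a2]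
      _ = (ε * y - 1) * G (l y) := by field_simp
  have e5 : (ε * (y * (rho ^ J y / Real.sqrt (l y)) / y ^ (2 - c))) * y ^ (2 - c) =
      ε * y * (rho ^ (j + 1) / Real.sqrt (l y)) := by
    rw [hj]
    field_simp
  have e6 : (P y / y ^ (2 - c)) * y ^ (2 - c) = P y := by field_simp
  have e7 := mul_lt_mul_of_pos_right e1 hyp
  have e8 : (kappa * ε - 2 * ε ^ 2) * y ^ (2 - c) =
      kappa * ε * y ^ (2 - c) - 2 * ε ^ 2 * y ^ (2 - c) := by ring
  have e9 : ((ε - 1 / y) * K * (l y * G (l y)) -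
      ε * (y * (rho ^ J y / Real.sqrt (l y)) / y ^ (2 - c)) - P y / y ^ (2 - c)) * y ^ (2 - c) =
      (ε * y - 1) * G (l y) - ε * y * (rho ^ (j + 1) / Real.sqrt (l y)) - 2 ^ (j + 1) := by
    rw [sub_mul, sub_mul, e4, e5, e6, hPj]
  rw [e8, e9] at e7
  linarith

end Pool.Agent.LIM
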