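import Pool.Agent.LIM.StA

set_option autoImplicit false

open Finset Filter Topology
open scoped Classical

namespace Pool.Agent.LIM

open Pool.Agent.Collatz3.TX (T mul)

theorem LCU_count (C η c ε y l : ℝ) (J : ℕ) (hη : 0 < η) (hc : 1 < c)
    (hy : 1 ≤ y) (hl0 : 0 < l) (hJ : η * Real.log ((1 + ε) * y) ≤ ((J + 1 : ℕ) : ℝ))
    (hl : l * (1 + 2 ^ (J + 1) / y) ≤ y ^ (c - 1)) :
    NX C c ((1 + ε) * y) ≤ NX C c y +
      (((Icc 1 ⌊(1 + ε) * y⌋₊).filter fun n : ℕ => ∃ k : ℕ, η * Real.log n ≤ k ∧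
        (k : ℝ) ≤ C * Real.log n ∧ n ≤ T^[k] n).card : ℝ) +
      (((range (⌊(1 + ε) * y⌋₊ - ⌊y⌋₊)).filter fun m => ∃ k, 1 ≤ k ∧ k ≤ J + 1 ∧
        l ≤ mul k (1 * m + (⌊y⌋₊ + 1))).card : ℝ) := by
  set A : ℝ → Set ℕ := fun x => {n : ℕ | 1 ≤ n ∧ (n : ℝ) ≤ x ∧ ∃ k : ℕ, 1 ≤ k ∧
    (k : ℝ) ≤ C * Real.log n ∧ (n : ℝ) ^ c ≤ ((T^[k] n : ℕ) : ℝ)} with hA
  set Lt : Finset ℕ := (Icc 1 ⌊(1 + ε) * y⌋₊).filter fun n : ℕ => ∃ k : ℕ, η * Real.log n ≤ k ∧
        (k : ℝ) ≤ C * Real.log n ∧ n ≤ T^[k] n with hLt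
  set B : Finset ℕ := (range (⌊(1 + ε) * y⌋₊ - ⌊y⌋₊)).filter fun m => ∃ k, 1 ≤ k ∧ k ≤ J + 1 ∧
        l ≤ mul k (1 * m + (⌊y⌋₊ + 1)) with hB
  have hsub : A ((1 + ε) * y) ⊆ A y ∪ (((Lt ∪ B.image fun m => m + (⌊y⌋₊ + 1)) : Finset ℕ) :
      Set ℕ) := by
    intro n hn
    obtain ⟨hn1, hn2, k, hk1, hk2, hk3⟩ := hn
    by_cases hny : (n : ℝ) ≤ y
    · left
      exact ⟨hn1, hny, k, hk1, hk2, hk3⟩
    · right
      push Not at hny
      have hn1' : (1 : ℝ) ≤ n := by exact_mod_cast hn1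
      have hn0 : (0 : ℝ) < n := by linarith
      rw [Finset.coe_union, Set.mem_union]
      have hnfl : n ≤ ⌊(1 + ε) * y⌋₊ := Nat.le_floor hn2
      by_cases hkJ : J + 1 ≤ k
      · left
        rw [Finset.mem_coe, hLt, mem_filter, mem_Icc]
        refine ⟨⟨hn1, hnfl⟩, k, ?_, hk2, ?_⟩
        · have h1 : Real.log n ≤ Real.log ((1 + ε) * y) := Real.log_le_log hn0 hn2
          have h2 : ((J + 1 : ℕ) : ℝ) ≤ k := by exact_mod_cast hkJ
          nlinarith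
        · have h1 : (n : ℝ) ≤ (n : ℝ) ^ c := by
            calc (n : ℝ) = (n : ℝ) ^ (1 : ℝ) := (Real.rpow_one _).symm
              _ ≤ (n : ℝ) ^ c := Real.rpow_le_rpow_of_exponent_le hn1' hc.le
          exact_mod_cast h1.trans hk3
      · right
        push Not at hkJ
        rw [Finset.mem_coe, mem_image]
        have hyn : ⌊y⌋₊ + 1 ≤ n := by
          have : ⌊y⌋₊ < n := (Nat.floor_lt (by linarith)).2 hny
          omega
        refine ⟨n - (⌊y⌋₊ + 1), ?_, by omega⟩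
        rw [hB, mem_filter, mem_range]
        refine ⟨by omega, k, hk1, by omega, ?_⟩
        have e : 1 * (n - (⌊y⌋₊ + 1)) + (⌊y⌋₊ + 1) = n := by omega
        rw [e]
        by_contra hcon
        push Not at hcon
        have h1 := Pool.Agent.Collatz3.TX.iter_le k n
        have hp := Pool.Agent.Collatz3.TX.mul_pos' k n
        have h2 : (2 : ℝ) ^ k ≤ 2 ^ (J + 1) := pow_le_pow_right₀ (by norm_num) (by omega)
        have h3 : mul k n * (n + 2 ^ k) < l * (n + 2 ^ (J + 1)) := by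
          have a1 : mul k n * (n + 2 ^ k) < l * (n + 2 ^ k) :=
            mul_lt_mul_of_pos_right hcon (by positivity)
          have a2 : l * (n + 2 ^ k) ≤ l * ((n : ℝ) + 2 ^ (J + 1)) :=
            mul_le_mul_of_nonneg_left (by linarith) hl0.le
          linarith
        have h4 : l * ((n : ℝ) + 2 ^ (J + 1)) ≤ (n : ℝ) * (l * (1 + 2 ^ (J + 1) / y)) := by
          have a1 : (2 : ℝ) ^ (J + 1) ≤ n * (2 ^ (J + 1) / y) := by
            rw [mul_div_assoc', le_div_iff₀ (by linarith)]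
            have : (0 : ℝ) < 2 ^ (J + 1) := by positivity
            nlinarith
          nlinarith
        have h5 : (n : ℝ) * y ^ (c - 1) ≤ (n : ℝ) ^ c := by
          have a1 : y ^ (c - 1) ≤ (n : ℝ) ^ (c - 1) :=
            Real.rpow_le_rpow (by linarith) hny.le (by linarith)
          calc (n : ℝ) * y ^ (c - 1) ≤ (n : ℝ) * (n : ℝ) ^ (c - 1) :=
                mul_le_mul_of_nonneg_left a1 hn0.le
            _ = (n : ℝ) ^ c := by
                rw [Real.rpow_sub_one hn0.ne']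
                field_simp
        have h6 := mul_le_mul_of_nonneg_left hl hn0.le
        linarith
  have hfin : ∀ x : ℝ, (A x).Finite := by
    intro x
    apply (Set.finite_Icc 1 ⌊x⌋₊).subset
    rintro n ⟨h1, h2, -⟩
    exact ⟨h1, Nat.le_floor h2⟩
  have h1 := Set.ncard_le_ncard hsub ((hfin y).union (Finset.finite_toSet _))
  have h2 := h1.trans (Set.ncard_union_le _ _)
  rw [Set.ncard_coe_finset] at h2
  have h3 := h2.trans (Nat.add_le_add_left ((card_union_le _ _).trans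
    (Nat.add_le_add_left card_image_le _)) _)
  have h4 : ((A ((1 + ε) * y)).ncard : ℝ) ≤ (A y).ncard + (Lt.card + B.card) := by
    exact_mod_cast h3
  have e1 : NX C c ((1 + ε) * y) = ((A ((1 + ε) * y)).ncard : ℝ) := rfl
  have e2 : NX C c y = ((A y).ncard : ℝ) := rfl
  rw [e1, e2]
  linarith

/-- the size of `2 ^ J` -/
theorem LCU_pow (η ε y : ℝ) (hη : 0 < η) (hη2 : η ≤ 1 / 2) (hε : 0 < ε) (hε1 : ε < 1)
    (hy : 1 ≤ y) : (2 : ℝ) ^ ⌈η * Real.log ((1 + ε) * y)⌉₊ ≤ 4 * y ^ (7 / 20 : ℝ) := by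
  have hx : 1 ≤ (1 + ε) * y := by nlinarith
  have hlog : 0 ≤ Real.log ((1 + ε) * y) := Real.log_nonneg hx
  have h1 : (⌈η * Real.log ((1 + ε) * y)⌉₊ : ℝ) ≤ η * Real.log ((1 + ε) * y) + 1 :=
    (Nat.ceil_lt_add_one (by positivity)).le
  have h2 : (2 : ℝ) ^ ⌈η * Real.log ((1 + ε) * y)⌉₊ ≤
      (2 : ℝ) ^ (η * Real.log ((1 + ε) * y) + 1) := by
    rw [← Real.rpow_natCast]
    exact Real.rpow_le_rpow_of_exponent_le (by norm_num) h1
  have h3 : (2 : ℝ) ^ (η * Real.log ((1 + ε) * y) + 1) =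
      2 * ((1 + ε) * y) ^ (η * Real.log 2) := by
    rw [Real.rpow_add (by norm_num), Real.rpow_one, Real.rpow_def_of_pos (by norm_num),
      Real.rpow_def_of_pos (by linarith), mul_comm]
    congr 2
    ring
  have hl2 : Real.log 2 < 0.6931471808 := Real.log_two_lt_d9
  have hl2' : 0 < Real.log 2 := Real.log_pos (by norm_num)
  have h4 : ((1 + ε) * y) ^ (η * Real.log 2) ≤ ((1 + ε) * y) ^ (7 / 20 : ℝ) :=
    Real.rpow_le_rpow_of_exponent_le hx (by nlinarith)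
  have h5 : ((1 + ε) * y) ^ (7 / 20 : ℝ) ≤ (2 * y) ^ (7 / 20 : ℝ) :=
    Real.rpow_le_rpow (by linarith) (by nlinarith) (by norm_num)
  have h6 : (2 * y) ^ (7 / 20 : ℝ) = 2 ^ (7 / 20 : ℝ) * y ^ (7 / 20 : ℝ) :=
    Real.mul_rpow (by norm_num) (by linarith)
  have h7 : (2 : ℝ) ^ (7 / 20 : ℝ) ≤ 2 := by
    calc (2 : ℝ) ^ (7 / 20 : ℝ) ≤ 2 ^ (1 : ℝ) :=
          Real.rpow_le_rpow_of_exponent_le (by norm_num) (by norm_num)
      _ = 2 := Real.rpow_one _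
  have h8 : 0 ≤ y ^ (7 / 20 : ℝ) := Real.rpow_nonneg (by linarith) _
  have h9 : 2 ^ (7 / 20 : ℝ) * y ^ (7 / 20 : ℝ) ≤ 2 * y ^ (7 / 20 : ℝ) :=
    mul_le_mul_of_nonneg_right h7 h8
  rw [h3] at h2
  linarith

theorem LCU_pow_div (a : ℝ) (ha : 7 / 20 < a) (P : ℝ → ℝ) (hP0 : ∀ y, 0 ≤ P y)
    (hP : ∀ᶠ y in atTop, P y ≤ 4 * y ^ (7 / 20 : ℝ)) :
    Tendsto (fun y => P y / y ^ a) atTop (𝓝 0) := by
  have h1 : Tendsto (fun y : ℝ => 4 * y ^ (-(a - 7 / 20))) atTop (𝓝 (4 * 0)) :=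
    (tendsto_rpow_neg_atTop (by linarith)).const_mul 4
  rw [mul_zero] at h1
  refine tendsto_of_tendsto_of_tendsto_of_le_of_le' tendsto_const_nhds h1 ?_ ?_
  · filter_upwards [eventually_gt_atTop (0 : ℝ)] with y hy
    exact div_nonneg (hP0 y) (Real.rpow_nonneg hy.le _)
  · filter_upwards [eventually_gt_atTop (0 : ℝ), hP] with y hy h2
    rw [div_le_iff₀ (Real.rpow_pos_of_pos hy _), mul_assoc, ← Real.rpow_add hy]
    have : -(a - 7 / 20) + a = 7 / 20 := by ring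
    rw [this]
    exact h2

theorem thm_LCU (h1 : St_FB) (h2 : St_GI) (h3 : St_KAP) (h4 : St_EAR) : St_LCU := by
  intro C η δ c ε hC hη hη2 hδ hδ1 hlate hc hc2 hcδ hε hε1
  have _ := h1
  -- the horizon
  set J : ℝ → ℕ := fun y => ⌈η * Real.log ((1 + ε) * y)⌉₊ with hJ
  set P : ℝ → ℝ := fun y => 2 ^ J y with hP
  have hP0 : ∀ y, 0 < P y := fun y => by rw [hP]; positivity
  have hPle : ∀ᶠ y in atTop, P y ≤ 4 * y ^ (7 / 20 : ℝ) := by
    filter_upwards [eventually_ge_atTop (1 : ℝ)] with y hy using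
      LCU_pow η ε y hη hη2 hε hε1 hy
  have hq : Tendsto (fun y => P y / y) atTop (𝓝 0) := by
    have := LCU_pow_div 1 (by norm_num) P (fun y => (hP0 y).le) hPle
    simpa using this
  have hq2 : Tendsto (fun y => P y / y ^ (2 - c)) atTop (𝓝 0) :=
    LCU_pow_div (2 - c) (by linarith) P (fun y => (hP0 y).le) hPle
  set l : ℝ → ℝ := fun y => y ^ (c - 1) / (1 + P y / y) with hl
  have hltop : Tendsto l atTop atTop := by
    have a1 : Tendsto (fun y => 1 + P y / y) atTop (𝓝 (1 + 0)) := hq.const_add 1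
    rw [add_zero] at a1
    have a2 : Tendsto (fun y => (1 + P y / y)⁻¹) atTop (𝓝 (1 : ℝ)⁻¹) := a1.inv₀ (by norm_num)
    rw [inv_one] at a2
    have a3 : Tendsto (fun y : ℝ => y ^ (c - 1)) atTop atTop := tendsto_rpow_atTop (by linarith)
    have a4 := a3.atTop_mul_pos (by norm_num : (0 : ℝ) < 1) a2
    refine a4.congr (fun y => ?_)
    exact (div_eq_mul_inv _ _).symm
  have hH : Tendsto (fun y => l y * G (l y)) atTop (𝓝 kappa) := h3.1.comp hltop
  have hmain : Tendsto (fun y : ℝ => (ε + 1 / y) * (1 + P y / y) * (l y * G (l y))) atTop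
      (𝓝 ((ε + 0) * (1 + 0) * kappa)) := by
    apply Tendsto.mul _ hH
    apply Tendsto.mul _ (hq.const_add 1)
    apply Tendsto.const_add
    exact tendsto_inv_atTop_zero.congr (fun y => (one_div y).symm)
  have hlt : Tendsto (fun y : ℝ => ((1 + ε) * y) ^ (1 - δ) / y ^ (2 - c)) atTop (𝓝 0) := by
    have a1 : Tendsto (fun y : ℝ => (1 + ε) ^ (1 - δ) * y ^ (-(δ - (c - 1)))) atTop
        (𝓝 ((1 + ε) ^ (1 - δ) * 0)) := (tendsto_rpow_neg_atTop (by linarith)).const_mul _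
    rw [mul_zero] at a1
    refine a1.congr' ?_
    filter_upwards [eventually_gt_atTop (0 : ℝ)] with y hy
    rw [Real.mul_rpow (by linarith) hy.le, mul_div_assoc, ← Real.rpow_sub hy]
    congr 2
    ring
  have hsum := (hmain.add (hlt.add hq2))
  have hlim : (ε + 0) * (1 + 0) * kappa + (0 + 0) < kappa * ε + ε ^ 2 := by
    have : 0 < ε ^ 2 := by positivity
    linarith
  have hev := hsum.eventually (gt_mem_nhds hlim)
  have hfl : Tendsto (fun y : ℝ => ⌊(1 + ε) * y⌋₊) atTop atTop := by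
    apply tendsto_nat_floor_atTop.comp
    exact tendsto_id.const_mul_atTop (by linarith)
  have hlate' := hfl.eventually hlate
  have hl0 : ∀ᶠ y in atTop, 0 < l y := hltop.eventually (eventually_gt_atTop 0)
  filter_upwards [hev, hlate', hl0, eventually_gt_atTop (1 : ℝ)] with y e1 e2 e3 hy
  have hy0 : 0 < y := by linarith
  have hlog : 0 < η * Real.log ((1 + ε) * y) := by
    apply mul_pos hη
    apply Real.log_pos
    nlinarith
  have hJ1 : 1 ≤ J y := by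
    rw [hJ]
    exact Nat.ceil_pos.2 hlog
  obtain ⟨j, hj⟩ : ∃ j, J y = j + 1 := ⟨J y - 1, by omega⟩
  have hjl : η * Real.log ((1 + ε) * y) ≤ ((j + 1 : ℕ) : ℝ) := by
    rw [← hj]; exact Nat.le_ceil _
  have hPj : P y = 2 ^ (j + 1) := by rw [hP]; simp only [hj]
  have hpos1 : 0 < 1 + P y / y := by
    have := hP0 y
    positivity
  have hll : l y * (1 + 2 ^ (j + 1) / y) ≤ y ^ (c - 1) := by
    rw [← hPj, hl]
    simp only
    rw [div_mul_cancel₀ _ hpos1.ne']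
  have hc1 := LCU_count C η c ε y (l y) j hη hc hy.le e3 hjl hll
  have hear := h4 j (l y) 1 (⌊y⌋₊ + 1) (⌊(1 + ε) * y⌋₊ - ⌊y⌋₊) (by norm_num)
  have hear2 := (abs_le.1 hear).2
  have hG1 := h2.2.2.2.2.1 j (l y)
  have hG0 := (h2.2.2.2.1 (l y)).1
  have hfy : ⌊y⌋₊ ≤ ⌊(1 + ε) * y⌋₊ := Nat.floor_le_floor (by nlinarith)
  have hYc : ((⌊(1 + ε) * y⌋₊ - ⌊y⌋₊ : ℕ) : ℝ) ≤ ε * y + 1 := by
    rw [Nat.cast_sub hfy]
    have a1 : (⌊(1 + ε) * y⌋₊ : ℝ) ≤ (1 + ε) * y := Nat.floor_le (by positivity)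
    have a2 : y < ⌊y⌋₊ + 1 := Nat.lt_floor_add_one y
    linarith
  have hYG : ((⌊(1 + ε) * y⌋₊ - ⌊y⌋₊ : ℕ) : ℝ) * G1 j (l y) ≤ (ε * y + 1) * G (l y) := by
    calc ((⌊(1 + ε) * y⌋₊ - ⌊y⌋₊ : ℕ) : ℝ) * G1 j (l y) ≤
          ((⌊(1 + ε) * y⌋₊ - ⌊y⌋₊ : ℕ) : ℝ) * G (l y) :=
          mul_le_mul_of_nonneg_left hG1 (Nat.cast_nonneg _)
      _ ≤ (ε * y + 1) * G (l y) := mul_le_mul_of_nonneg_right hYc hG0
  have hlatey : ((⌊(1 + ε) * y⌋₊ : ℕ) : ℝ) ^ (1 - δ) ≤ ((1 + ε) * y) ^ (1 - δ) :=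
    Real.rpow_le_rpow (Nat.cast_nonneg _) (Nat.floor_le (by positivity)) (by linarith)
  have hyp : 0 < y ^ (2 - c) := Real.rpow_pos_of_pos hy0 _
  -- multiply `e1` by `y ^ (2 - c)`
  have e4 : ((ε + 1 / y) * (1 + P y / y) * (l y * G (l y))) * y ^ (2 - c) =
      (ε * y + 1) * G (l y) := by
    have a1 : l y * (1 + P y / y) = y ^ (c - 1) := by
      rw [hl]; simp only; rw [div_mul_cancel₀ _ hpos1.ne']
    have a2 : y ^ (c - 1) * y ^ (2 - c) = y := by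
      rw [← Real.rpow_add hy0]
      have : c - 1 + (2 - c) = 1 := by ring
      rw [this, Real.rpow_one]
    calc ((ε + 1 / y) * (1 + P y / y) * (l y * G (l y))) * y ^ (2 - c) =
        (ε + 1 / y) * ((l y * (1 + P y / y)) * y ^ (2 - c)) * G (l y) := by ring
      _ = (ε + 1 / y) * y * G (l y) := by rw [a1, a2]
      _ = (ε * y + 1) * G (l y) := by field_simp
  have e5 : (((1 + ε) * y) ^ (1 - δ) / y ^ (2 - c) + P y / y ^ (2 - c)) * y ^ (2 - c) =
      ((1 + ε) * y) ^ (1 - δ) + P y := by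
    field_simp
  have e6 := mul_lt_mul_of_pos_right e1 hyp
  rw [add_mul, e4, e5, hPj] at e6
  have e7 : (kappa * ε + ε ^ 2) * y ^ (2 - c) =
      kappa * ε * y ^ (2 - c) + ε ^ 2 * y ^ (2 - c) := by ring
  rw [e7] at e6
  linarith

end Pool.Agent.LIM
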