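import Pool.Agent.LIM.StA

/-!
# Local asymptotics for the number of excursions, and the asymptotic formula
-/

set_option autoImplicit false

open Finset Filter Topology
open scoped Classical

namespace Pool.Agent.LIM

open Pool.Agent.Collatz3.TX (T mul)

theorem thm_LOC (h1 : St_LAT) (h2 : St_LCU) (h3 : St_LCL) : St_LOC := by
  intro C hC hCH
  obtain ⟨η₀, hη₀, hlat⟩ := h1 C hC hCH
  set η : ℝ := min η₀ (min (1 / 2) (C / 2)) with hη
  have hη0 : 0 < η := by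
    rw [hη]
    refine lt_min hη₀ (lt_min (by norm_num) (by linarith))
  have hηη₀ : η ≤ η₀ := min_le_left _ _
  have hη2 : η ≤ 1 / 2 := (min_le_right _ _).trans (min_le_left _ _)
  have hηC : η ≤ C / 2 := (min_le_right _ _).trans (min_le_right _ _)
  obtain ⟨δ, hδ, hδ1, hev⟩ := hlat η hη0 hηη₀
  have hm : 0 < min (1 / 4) (min δ (η / 20)) :=
    lt_min (by norm_num) (lt_min hδ (by linarith))
  refine ⟨1 + min (1 / 4) (min δ (η / 20)), by linarith, ?_, ?_⟩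
  · have := min_le_left (1 / 4 : ℝ) (min δ (η / 20))
    linarith
  intro c hc hc1 ε hε hε1
  have e1 : min (1 / 4 : ℝ) (min δ (η / 20)) ≤ 1 / 4 := min_le_left _ _
  have e2 : min (1 / 4 : ℝ) (min δ (η / 20)) ≤ δ := (min_le_right _ _).trans (min_le_left _ _)
  have e3 : min (1 / 4 : ℝ) (min δ (η / 20)) ≤ η / 20 :=
    (min_le_right _ _).trans (min_le_right _ _)
  have hu := h2 C η δ c ε hC hη0 hη2 hδ hδ1 hev hc (by linarith) (by linarith) hε hε1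
  have hl := h3 C η c ε hC hη0 hη2 hηC hc (by linarith) (by linarith) hε hε1
  filter_upwards [hu, hl, eventually_ge_atTop (0 : ℝ)] with y hy1 hy2 hy3
  have hp : 0 ≤ y ^ (2 - c) := Real.rpow_nonneg hy3 _
  have hq : 0 ≤ ε ^ 2 * y ^ (2 - c) := by positivity
  rw [abs_le]
  constructor
  · linarith
  · linarith

private theorem LOC_mono (C c : ℝ) : Monotone (NX C c) := by
  intro x y hxy
  unfold NX
  have hfin : Set.Finite {n : ℕ | 1 ≤ n ∧ (n : ℝ) ≤ y ∧ ∃ k : ℕ, 1 ≤ k ∧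
      (k : ℝ) ≤ C * Real.log n ∧ (n : ℝ) ^ c ≤ ((T^[k] n : ℕ) : ℝ)} := by
    refine (Set.finite_Iic ⌊y⌋₊).subset ?_
    rintro n ⟨_, hn, _⟩
    exact Nat.le_floor hn
  have h := Set.ncard_le_ncard (s := {n : ℕ | 1 ≤ n ∧ (n : ℝ) ≤ x ∧ ∃ k : ℕ, 1 ≤ k ∧
      (k : ℝ) ≤ C * Real.log n ∧ (n : ℝ) ^ c ≤ ((T^[k] n : ℕ) : ℝ)}) (t := {n : ℕ | 1 ≤ n ∧
      (n : ℝ) ≤ y ∧ ∃ k : ℕ, 1 ≤ k ∧ (k : ℝ) ≤ C * Real.log n ∧
      (n : ℝ) ^ c ≤ ((T^[k] n : ℕ) : ℝ)}) (by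
    rintro n ⟨hn1, hn2, hn3⟩
    exact ⟨hn1, hn2.trans hxy, hn3⟩) hfin
  exact_mod_cast h

theorem thm_ASY (h1 : St_KAP) (h2 : St_TAU) (h3 : St_LOC) : St_ASY := by
  intro C hC hCH
  obtain ⟨c₁, hc1, hc54, hloc⟩ := h3 C hC hCH
  refine ⟨c₁, hc1, ?_⟩
  intro c hc hcc
  have hk : 0 < kappa := by
    have := h1.2.1
    linarith
  have ht := h2 (NX C c) kappa (2 - c) 2 hk (by linarith) (by norm_num)
    (fun x => Nat.cast_nonneg _) (LOC_mono C c) (hloc c hc hcc)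
  exact ht.comp tendsto_natCast_atTop_atTop

end Pool.Agent.LIM
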