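import Pool.Agent.LIM.StB

/-!
# Limit law of the maximum excursion of the `3x+1` map: late times in one block (helper25)
-/

set_option autoImplicit false

open Finset Filter Topology
open scoped Classical

namespace Pool.Agent.LIM

open Pool.Agent.Collatz3 (T3)
open Pool.Agent.Collatz3.LT
open Pool.Agent.Collatz3.EX (B od dl)

theorem thm_LTB (h1 : St_BLK) (h2 : St_DSC) : St_LTB := by
  intro hS C hC hCH
  have hl2 : 0 < Real.log 2 := Real.log_pos (by norm_num)
  have hl21 : Real.log 2 < 1 := by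
    have := Real.log_two_lt_d9
    linarith
  have hl32 : 0 < Real.log (3 / 2) := Real.log_pos (by norm_num)
  -- the choice of `η₀`
  set e : ℝ := Hz - C with he
  have he0 : 0 < e := sub_pos.2 hCH
  refine ⟨min (1 / 2) (e * Real.log (3 / 2)), lt_min (by norm_num) (mul_pos he0 hl32), ?_⟩
  intro η hη hη0
  have hη1 : η ≤ 1 / 2 := hη0.trans (min_le_left _ _)
  have hη2 : η ≤ e * Real.log (3 / 2) := hη0.trans (min_le_right _ _)
  set η' : ℝ := η * Real.log 2 with hη'
  have hη'0 : 0 < η' := mul_pos hη hl2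
  have hη'1 : η' < 1 := by
    have : η * Real.log 2 ≤ 1 / 2 * Real.log 2 := mul_le_mul_of_nonneg_right hη1 hl2.le
    linarith
  have hη'2 : η' ≤ e * Real.log (3 / 2) := by
    have : η * Real.log 2 ≤ η * 1 := mul_le_mul_of_nonneg_left hl21.le hη.le
    linarith
  set ζ : ℝ := η' / 20 with hζ
  have hζ0 : 0 < ζ := by positivity
  have hζ1 : ζ < 1 := by
    rw [hζ]
    linarith
  have hCz : C < 2 / Real.log (4 / 3) + (1 - ζ / 2) / Real.log (3 / 2) := by
    have h3 : (1 - ζ / 2) / Real.log (3 / 2) = 1 / Real.log (3 / 2) - ζ / 2 / Real.log (3 / 2) := by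
      rw [sub_div]
    have h4 : ζ / 2 / Real.log (3 / 2) < e := by
      rw [div_lt_iff₀ hl32, hζ]
      linarith
    have h5 : e = 2 / Real.log (4 / 3) + 1 / Real.log (3 / 2) - C := rfl
    rw [h3]
    linarith
  obtain ⟨δ₁, hδ₁, hδ₁1, i1, hi1⟩ := h1 hS C ζ hC hζ0 hζ1 hCz
  obtain ⟨δ₂, hδ₂, hδ₂1, i2, hi2⟩ := h2 η' hη'0 hη'1.le
  set δ : ℝ := min δ₁ δ₂ / 2 with hδ
  have hδ0 : 0 < δ := by
    have := lt_min hδ₁ hδ₂
    positivity
  have hδa : 2 * δ ≤ δ₁ := by
    have := min_le_left δ₁ δ₂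
    rw [hδ]
    linarith
  have hδb : 2 * δ ≤ δ₂ := by
    have := min_le_right δ₁ δ₂
    rw [hδ]
    linarith
  refine ⟨δ, hδ0, by linarith, max (max i1 i2) ⌈1 / δ⌉₊, ?_⟩
  intro i hi
  have hi1' : i1 ≤ i := (le_max_left i1 i2).trans ((le_max_left _ _).trans hi)
  have hi2' : i2 ≤ i := (le_max_right i1 i2).trans ((le_max_left _ _).trans hi)
  have hi3 : 1 / δ ≤ i := Nat.ceil_le.1 ((le_max_right _ _).trans hi)
  have hi4 : 1 ≤ δ * i := by
    rw [div_le_iff₀ hδ0] at hi3
    linarith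
  set q : ℕ := ⌈η' * i⌉₊ with hq
  have hq1 : η' * i ≤ q := Nat.le_ceil _
  have hi0 : (0 : ℝ) ≤ i := Nat.cast_nonneg i
  have hqi : q ≤ i := by
    rw [hq, Nat.ceil_le]
    nlinarith
  have hA := hi1 i hi1' q
  have hB := hi2 i hi2' q hq1 hqi
  -- the covering
  have hsub : ((B i).filter fun n : ℕ => ∃ k : ℕ, η * Real.log n ≤ k ∧ (k : ℝ) ≤ C * Real.log n ∧
      n ≤ T3^[k] n) ⊆ Lb i ⌊C * Real.log 2 * (i + 1)⌋₊ q (Real.exp ((1 - ζ) * (i * Real.log 2)))
        (Real.exp ((1 - ζ / 2) * (i * Real.log 2))) ∪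
      (B i).filter fun n => Real.exp ((1 - η' / 20) * (i * Real.log 2)) <
        ((T3^[q] n : ℕ) : ℝ) := by
    intro n hn
    rw [Finset.mem_filter] at hn
    obtain ⟨hnB, k, hk1, hk2, hk3⟩ := hn
    rw [Finset.mem_union]
    by_cases hT : Real.exp ((1 - η' / 20) * (i * Real.log 2)) < ((T3^[q] n : ℕ) : ℝ)
    · right
      rw [Finset.mem_filter]
      exact ⟨hnB, hT⟩
    · left
      have hnB' := hnB
      rw [B, Finset.mem_Ico] at hnB'
      have hn2 : ((2 : ℝ) ^ i) ≤ n := by exact_mod_cast hnB'.1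
      have hn3 : (n : ℝ) ≤ (2 : ℝ) ^ (i + 1) := by exact_mod_cast hnB'.2.le
      have hpos : (0 : ℝ) < 2 ^ i := by positivity
      have hlog1 : i * Real.log 2 ≤ Real.log n := by
        rw [← Real.log_pow]
        exact Real.log_le_log hpos hn2
      have hlog2 : Real.log n ≤ (i + 1) * Real.log 2 := by
        have h6 : Real.log n ≤ Real.log ((2 : ℝ) ^ (i + 1)) :=
          Real.log_le_log (hpos.trans_le hn2) hn3
        rw [Real.log_pow] at h6
        push_cast at h6
        exact h6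
      unfold Lb
      rw [Finset.mem_filter]
      refine ⟨hnB, k, ?_, ?_, not_lt.1 hT, ?_⟩
      · rw [hq, Nat.ceil_le]
        refine le_trans ?_ hk1
        rw [hη']
        have := mul_le_mul_of_nonneg_left hlog1 hη.le
        linarith
      · refine Nat.le_floor (hk2.trans ?_)
        have := mul_le_mul_of_nonneg_left hlog2 hC.le
        linarith
      · have h7 : Real.exp ((1 - ζ / 2) * (i * Real.log 2)) ≤ (2 : ℝ) ^ i := by
          have h8 : (2 : ℝ) ^ i = Real.exp (i * Real.log 2) := by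
            rw [Real.exp_nat_mul, Real.exp_log (by norm_num)]
          rw [h8, Real.exp_le_exp]
          have h9 : 0 ≤ ζ / 2 * (i * Real.log 2) := by positivity
          linarith
        refine h7.trans (hn2.trans ?_)
        exact_mod_cast hk3
  have hcard := (Nat.cast_le (α := ℝ)).2 ((Finset.card_le_card hsub).trans
    (Finset.card_union_le _ _))
  push_cast at hcard
  have hx : 0 ≤ (i : ℝ) * Real.log 2 := by positivity
  have hE1 : Real.exp ((1 - δ₁) * (i * Real.log 2)) ≤ Real.exp ((1 - 2 * δ) * (i * Real.log 2)) := by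
    rw [Real.exp_le_exp]
    exact mul_le_mul_of_nonneg_right (by linarith) hx
  have hE2 : Real.exp ((1 - δ₂) * (i * Real.log 2)) ≤ Real.exp ((1 - 2 * δ) * (i * Real.log 2)) := by
    rw [Real.exp_le_exp]
    exact mul_le_mul_of_nonneg_right (by linarith) hx
  have hE3 : 2 * Real.exp ((1 - 2 * δ) * (i * Real.log 2)) ≤
      Real.exp ((1 - δ) * (i * Real.log 2)) := by
    have h8 : (2 : ℝ) = Real.exp (Real.log 2) := (Real.exp_log (by norm_num)).symm
    calc 2 * Real.exp ((1 - 2 * δ) * (i * Real.log 2))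
        = Real.exp (Real.log 2) * Real.exp ((1 - 2 * δ) * (i * Real.log 2)) := by rw [← h8]
      _ = Real.exp (Real.log 2 + (1 - 2 * δ) * (i * Real.log 2)) := (Real.exp_add _ _).symm
      _ ≤ _ := by
        rw [Real.exp_le_exp]
        have h9 : 1 * Real.log 2 ≤ δ * i * Real.log 2 := mul_le_mul_of_nonneg_right hi4 hl2.le
        linarith
  linarith

end Pool.Agent.LIM
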