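import Pool.Agent.LIM.StB
import Pool.Agent.Collatz3.EXFinal

/-!
# LIM, module LTX: from blocks to all integers
-/

set_option autoImplicit false

open Finset Filter Topology
open scoped Classical

namespace Pool.Agent.LIM

open Pool.Agent.Collatz3 (T3)
open Pool.Agent.Collatz3.LT
open Pool.Agent.Collatz3.EX (B card_B)

/-- [LIM LTX] -/
theorem thm_LTX : St_LTX := by
  intro P δ hδ0 hδ1 hb
  obtain ⟨i0, hi0⟩ := hb
  have l2 : 0 < Real.log 2 := Real.log_pos (by norm_num)
  obtain ⟨K0, hK0⟩ := Pool.Agent.Collatz3.UB.log_small (Real.log (2 ^ i0 + 1)) 1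
    (δ / 2 * Real.log 2) (Real.log_nonneg (by
      have : (0 : ℝ) ≤ 2 ^ i0 := by positivity
      linarith)) (by norm_num) (by positivity)
  filter_upwards [Filter.eventually_ge_atTop (2 ^ K0)] with x hx
  have hx1 : 1 ≤ x := le_trans Nat.one_le_two_pow hx
  have hx0 : (0 : ℝ) < x := by exact_mod_cast hx1
  obtain ⟨I, hI⟩ : ∃ I, I = Nat.log 2 x := ⟨_, rfl⟩
  have hIx : 2 ^ I ≤ x := by rw [hI]; exact Nat.pow_log_le_self 2 (by omega)
  have hIK : K0 ≤ I := by
    rw [hI]
    exact (Nat.le_log_iff_pow_le (by norm_num) (by omega)).2 hx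
  have hsub : (Icc 1 x).filter P ⊆ (range (I + 1)).biUnion fun i => (B i).filter P := by
    intro n hn
    rw [mem_filter, mem_Icc] at hn
    rw [mem_biUnion]
    refine ⟨Nat.log 2 n, ?_, ?_⟩
    · rw [mem_range, hI]
      have := Nat.log_mono_right (b := 2) hn.1.2
      omega
    · rw [mem_filter]
      refine ⟨?_, hn.2⟩
      unfold B
      rw [mem_Ico]
      exact ⟨Nat.pow_log_le_self 2 (by omega), Nat.lt_pow_succ_log_self (by norm_num) n⟩
  have hcard : (((Icc 1 x).filter P).card : ℝ) ≤ ∑ i ∈ range (I + 1),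
      (((B i).filter P).card : ℝ) := by
    exact_mod_cast (card_le_card hsub).trans card_biUnion_le
  have hIlog : (I : ℝ) * Real.log 2 ≤ Real.log x := by
    rw [← Real.log_pow]
    exact Real.log_le_log (by positivity) (by exact_mod_cast hIx)
  obtain ⟨X, hX⟩ : ∃ X, X = Real.exp ((1 - δ) * Real.log x) := ⟨_, rfl⟩
  have hlx : 0 ≤ Real.log x := Real.log_natCast_nonneg x
  have hδ : 0 < 1 - δ := by linarith
  have hX1 : 1 ≤ X := by rw [hX]; apply Real.one_le_exp; positivity
  have hterm : ∀ i ∈ range (I + 1), (((B i).filter P).card : ℝ) ≤ 2 ^ i0 * X + X := by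
    intro i hi
    rw [mem_range] at hi
    rcases Nat.lt_or_ge i i0 with hii | hii
    · have g1 : ((B i).filter P).card ≤ 2 ^ i0 := by
        refine (card_le_card (filter_subset _ _)).trans ?_
        rw [card_B]
        exact Nat.pow_le_pow_right (by norm_num) hii.le
      have g2 : (((B i).filter P).card : ℝ) ≤ 2 ^ i0 := by exact_mod_cast g1
      have g3 : (2 : ℝ) ^ i0 * 1 ≤ 2 ^ i0 * X := mul_le_mul_of_nonneg_left hX1 (by positivity)
      linarith
    · refine (hi0 i hii).trans ?_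
      have g1 : Real.exp ((1 - δ) * (i * Real.log 2)) ≤ X := by
        rw [hX]
        apply Real.exp_le_exp.2
        refine mul_le_mul_of_nonneg_left ?_ hδ.le
        have : (i : ℝ) ≤ I := by exact_mod_cast (by omega : i ≤ I)
        have := mul_le_mul_of_nonneg_right this l2.le
        linarith
      have g2 : (0 : ℝ) ≤ 2 ^ i0 * X := by positivity
      linarith
  refine hcard.trans ((sum_le_sum hterm).trans ?_)
  rw [sum_const, card_range, nsmul_eq_mul]
  have e1 : ((I + 1 : ℕ) : ℝ) * (2 ^ i0 * X + X) = ((I : ℝ) + 1) * (2 ^ i0 + 1) * X := by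
    push_cast; ring
  rw [e1, Real.rpow_def_of_pos hx0]
  have h2 := hK0 I hIK
  have h3 : Real.log (((I : ℝ) + 1) * (2 ^ i0 + 1)) ≤ δ / 2 * Real.log x := by
    rw [Real.log_mul (by positivity) (by positivity)]
    have h4 : δ / 2 * Real.log 2 * I ≤ δ / 2 * Real.log x := by
      have := mul_le_mul_of_nonneg_left hIlog (show 0 ≤ δ / 2 by positivity)
      linarith
    linarith
  have h4 : ((I : ℝ) + 1) * (2 ^ i0 + 1) ≤ Real.exp (δ / 2 * Real.log x) := by
    rw [← Real.log_le_iff_le_exp (by positivity)]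
    exact h3
  calc ((I : ℝ) + 1) * (2 ^ i0 + 1) * X ≤ Real.exp (δ / 2 * Real.log x) * X :=
        mul_le_mul_of_nonneg_right h4 (by positivity)
    _ = Real.exp (Real.log x * (1 - δ / 2)) := by
        rw [hX, ← Real.exp_add]
        congr 1
        ring

/-- [LIM LAT] -/
theorem thm_LAT (hS : StmtS) (h1 : St_LTB) (h2 : St_LTX) : St_LAT := by
  intro C hC hCH
  obtain ⟨η₀, hη₀, h3⟩ := h1 hS C hC hCH
  refine ⟨η₀, hη₀, fun η hη hηη => ?_⟩
  obtain ⟨δ, hδ0, hδ1, i0, h4⟩ := h3 η hη hηη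
  refine ⟨δ / 2, by linarith, by linarith, ?_⟩
  exact h2 (fun n : ℕ => ∃ k : ℕ, η * Real.log n ≤ k ∧ (k : ℝ) ≤ C * Real.log n ∧
    n ≤ Pool.Agent.Collatz3.TX.T^[k] n) δ hδ0 hδ1 ⟨i0, h4⟩

end Pool.Agent.LIM
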