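import Pool.Agent.LIM.StA

/-!
# [MID] Times from `J` to `(log_2 N) / 2`
-/

set_option autoImplicit false

open Finset Filter Topology
open scoped Classical

namespace Pool.Agent.LIM

open Pool.Agent.Collatz3.TX (T mul)

private theorem MID_half {k h n : ℕ} (hk : k ≤ h) (hn : 2 ^ h ≤ n) (hlt : n < T^[k] n) :
    (1 / 2 : ℝ) ≤ mul k n := by
  have h1 := Pool.Agent.Collatz3.TX.iter_le k n
  have h2 : ((n : ℕ) : ℝ) < ((T^[k] n : ℕ) : ℝ) := by exact_mod_cast hlt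
  have h3 : (2 : ℝ) ^ k ≤ n := by
    have : 2 ^ k ≤ n := le_trans (Nat.pow_le_pow_right (by norm_num) hk) hn
    exact_mod_cast this
  have h4 : 0 < mul k n := Pool.Agent.Collatz3.TX.mul_pos' k n
  have h5 : (0 : ℝ) < n := lt_of_lt_of_le (by positivity) h3
  by_contra hcon
  push Not at hcon
  have h6 : mul k n * (n + 2 ^ k) ≤ mul k n * (n + n) :=
    mul_le_mul_of_nonneg_left (by linarith) h4.le
  nlinarith

theorem thm_MID (h1 : St_FB) (h2 : St_LBD) : St_MID := by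
  intro J
  obtain ⟨⟨hr0, hr1, -⟩, -⟩ := h1
  have hrJ : 0 < rho ^ J := pow_pos hr0 J
  have hrJ1 : rho ^ J ≤ 1 := pow_le_one₀ hr0.le hr1.le
  set X : ℝ := 2 * (2 + 2 * 2 ^ J) / rho ^ J with hX
  filter_upwards [eventually_ge_atTop (2 ^ (2 * J)), eventually_ge_atTop ⌈X ^ 2⌉₊,
    eventually_ge_atTop 1] with N hN1 hN2 hN3
  have hN0 : N ≠ 0 := by omega
  set h := Nat.log 2 N / 2 with hh
  have hJh : J ≤ h := by
    have : 2 * J ≤ Nat.log 2 N := Nat.le_log_of_pow_le (by norm_num) hN1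
    omega
  have hpow : ((2 : ℝ) ^ h) ^ 2 ≤ N := by
    have h3 : 2 ^ (h * 2) ≤ N := by
      refine le_trans (Nat.pow_le_pow_right (by norm_num) ?_) (Nat.pow_log_le_self 2 hN0)
      omega
    rw [← pow_mul]
    exact_mod_cast h3
  have hs : (2 : ℝ) ^ h ≤ Real.sqrt N := Real.le_sqrt_of_sq_le hpow
  have hsub : ((Icc 1 N).filter fun n => ∃ k, J ≤ k ∧ k ≤ h ∧ n < T^[k] n) ⊆
      range (2 ^ h) ∪ ((range (N + 1)).filter fun m => ∃ k, J ≤ k ∧ k ≤ J + (h - J) ∧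
        (1 / 2 : ℝ) ≤ mul k (1 * m + 0)) := by
    intro n hn
    rw [mem_filter, mem_Icc] at hn
    obtain ⟨⟨hn1, hn2⟩, k, hk1, hk2, hk3⟩ := hn
    rw [mem_union]
    rcases lt_or_ge n (2 ^ h) with hc | hc
    · left
      exact mem_range.2 hc
    · right
      rw [mem_filter, mem_range]
      refine ⟨by omega, k, hk1, by omega, ?_⟩
      have := MID_half hk2 hc hk3
      simpa using this
  have hc1 := (card_le_card hsub).trans (card_union_le _ _)
  have hc2 := h2 J (h - J) (1 / 2) 1 0 (N + 1) (by norm_num) (by norm_num)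
  have hc3 : ((((Icc 1 N).filter fun n => ∃ k, J ≤ k ∧ k ≤ h ∧ n < T^[k] n).card : ℕ) : ℝ) ≤
      2 ^ h + (((range (N + 1)).filter fun m => ∃ k, J ≤ k ∧ k ≤ J + (h - J) ∧
        (1 / 2 : ℝ) ≤ mul k (1 * m + 0)).card : ℝ) := by
    rw [card_range] at hc1
    exact_mod_cast hc1
  have hsq : (2 / 3 : ℝ) ≤ Real.sqrt (1 / 2) := by
    apply Real.le_sqrt_of_sq_le
    norm_num
  have hc4 : (((N + 1 : ℕ) : ℝ) + 2 ^ J - 1) * rho ^ J / Real.sqrt (1 / 2) ≤
      3 / 2 * ((N + 2 ^ J) * rho ^ J) := by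
    rw [div_le_iff₀ (by linarith)]
    push_cast
    have : 0 ≤ ((N : ℝ) + 2 ^ J) * rho ^ J := by positivity
    nlinarith
  have hc5 : (2 : ℝ) ^ J * (2 ^ (h - J) - 1) ≤ 2 ^ h := by
    have h3 : (2 : ℝ) ^ h = 2 ^ J * 2 ^ (h - J) := by
      rw [← pow_add]
      congr 1
      omega
    rw [h3]
    have : (0 : ℝ) < 2 ^ J := by positivity
    nlinarith
  have hXs : X ≤ Real.sqrt N := by
    apply Real.le_sqrt_of_sq_le
    exact (Nat.le_ceil _).trans (by exact_mod_cast hN2)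
  have h1s : 1 ≤ Real.sqrt N := by
    rw [Real.one_le_sqrt]
    exact_mod_cast hN3
  have hss : Real.sqrt N * Real.sqrt N = N := Real.mul_self_sqrt (by positivity)
  have hXe : X * rho ^ J = 2 * (2 + 2 * 2 ^ J) := by
    rw [hX]
    field_simp
  have hmain : 2 * (2 + 2 * 2 ^ J) * Real.sqrt N ≤ rho ^ J * N := by
    rw [← hXe]
    calc X * rho ^ J * Real.sqrt N ≤ Real.sqrt N * rho ^ J * Real.sqrt N := by
          gcongr
      _ = rho ^ J * (Real.sqrt N * Real.sqrt N) := by ring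
      _ = rho ^ J * N := by rw [hss]
  have h2J : (0 : ℝ) < 2 ^ J := by positivity
  have h7 : (2 : ℝ) ^ J ≤ 2 ^ J * Real.sqrt N := by nlinarith
  have h8 : (2 : ℝ) ^ J * rho ^ J ≤ 2 ^ J := by nlinarith
  nlinarith

end Pool.Agent.LIM
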