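import Pool.Agent.LIM.StA
import Pool.Agent.Collatz3.TXCount
import Pool.Agent.Collatz3.DNPred

/-!
# LIM, module MOD: invariant sets modulo `2 ^ (J + 1)`
-/

set_option autoImplicit false

open Finset Filter Topology
open scoped Classical

namespace Pool.Agent.LIM

open Pool.Agent.Collatz3.TX (T mul T_cast)
open Pool.Agent.Collatz3.DN

private theorem MOD_inv {A : Set ℕ} (hA : ∀ n, 1 ≤ n → (T n ∈ A ↔ n ∈ A)) :
    EvInv 0 {z : ℤ | 0 < z ∧ z.toNat ∈ A} := by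
  obtain ⟨S, hS⟩ : ∃ S : Set ℤ, S = {z : ℤ | 0 < z ∧ z.toNat ∈ A} := ⟨_, rfl⟩
  rw [← hS]
  intro z hz
  rcases lt_or_gt_of_ne (show z ≠ 0 by rintro rfl; simp at hz) with h0 | h0
  · have h1 : ¬ 0 < Pool.Agent.Helper14.T z := by
      unfold Pool.Agent.Helper14.T
      split_ifs <;> omega
    rw [hS]
    constructor
    · intro h; exact absurd h.1 h1
    · intro h
      have := h.1
      omega
  · obtain ⟨n, rfl⟩ := Int.eq_ofNat_of_zero_le h0.le
    have hn : 1 ≤ n := by exact_mod_cast h0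
    rw [T_cast]
    have hT : 0 < T n := by
      unfold Pool.Agent.Collatz3.TX.T
      split_ifs <;> omega
    rw [hS]
    simp only [Set.mem_ofPred_eq, Int.toNat_natCast]
    constructor
    · rintro ⟨-, h⟩
      exact ⟨h0, (hA n hn).1 h⟩
    · rintro ⟨-, h⟩
      exact ⟨by exact_mod_cast hT, (hA n hn).2 h⟩

private theorem MOD_dens {S : Set ℕ} {d : ℝ} (hS : ∀ n, 1 ≤ n → (T n ∈ S ↔ n ∈ S))
    (hd : HasDensity S d) : Dens 1 {z : ℤ | 0 < z ∧ z.toNat ∈ S} d := by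
  obtain ⟨d', hD⟩ := dens_exists (σ := 1) (by norm_num) (MOD_inv hS)
  have h1 : HasDensity S d' := by
    unfold HasDensity
    refine (hD.tendsto.comp tendsto_natCast_atTop_atTop).congr fun N => ?_
    simp only [Function.comp_apply, D]
    congr 3
    ext n
    simp only [one_mul, Set.mem_ofPred_eq, Int.toNat_natCast, Nat.cast_le, Nat.cast_pos]
    constructor
    · rintro ⟨h1, h2, h3⟩
      exact ⟨h2, h1, h3⟩
    · rintro ⟨h1, h2, h3⟩
      exact ⟨h2, h1, h3⟩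
  rw [tendsto_nhds_unique hd h1]
  exact hD

/-- one residue class -/
private theorem MOD_class {S : Set ℕ} {d : ℝ} (hD : Dens 1 {z : ℤ | 0 < z ∧ z.toNat ∈ S} d)
    (Q r : ℕ) (hQ : 0 < Q) (hr : r < Q) :
    Tendsto (fun N : ℕ => (((Icc 1 N).filter fun n => n ∈ S ∧ n % Q = r).card : ℝ) / N) atTop
      (𝓝 (d / Q)) := by
  have hQ' : (0 : ℝ) < Q := by exact_mod_cast hQ
  have hx : Tendsto (fun N : ℕ => ((N : ℝ) - r) / Q) atTop atTop := by
    apply Tendsto.atTop_div_const hQ'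
    exact tendsto_atTop_add_const_right _ (-(r : ℝ)) tendsto_natCast_atTop_atTop
  have h1 := (hD Q r hQ).comp hx
  have h2 : Tendsto (fun N : ℕ => (((N : ℝ) - r) / Q) / N) atTop (𝓝 (1 / Q)) := by
    have h3 : Tendsto (fun N : ℕ => 1 / (Q : ℝ) - (r : ℝ) / Q / (N : ℝ)) atTop (𝓝 (1 / Q - 0)) :=
      tendsto_const_nhds.sub (tendsto_const_div_atTop_nhds_zero_nat _)
    rw [sub_zero] at h3
    refine h3.congr' ?_
    filter_upwards [eventually_ge_atTop 1] with N hN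
    have hN' : (N : ℝ) ≠ 0 := by
      have : (0 : ℝ) < N := by exact_mod_cast hN
      exact this.ne'
    field_simp
  have h3 := h1.mul h2
  rw [mul_one_div] at h3
  refine h3.congr' ?_
  filter_upwards [eventually_gt_atTop r] with N hN
  have hNr : (0 : ℝ) < (N : ℝ) - r := by
    have : (r : ℝ) < N := by exact_mod_cast hN
    linarith
  have hN0 : (0 : ℝ) < N := by
    have : (0 : ℝ) ≤ r := by positivity
    linarith
  have h4 : (Set.ncard {m : ℕ | (m : ℝ) ≤ ((N : ℝ) - r) / Q ∧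
      1 * ((Q : ℤ) * m + r) ∈ {z : ℤ | 0 < z ∧ z.toNat ∈ S}}) =
      ((Icc 1 N).filter fun n => n ∈ S ∧ n % Q = r).card := by
    rw [← Set.ncard_coe_finset]
    have hinj : Function.Injective (fun m : ℕ => Q * m + r) := by
      intro a b hab
      simp only at hab
      have : Q * a = Q * b := by omega
      exact Nat.eq_of_mul_eq_mul_left hQ this
    rw [← Set.ncard_image_of_injective _ hinj]
    congr 1
    ext n
    simp only [Set.mem_image, Set.mem_ofPred_eq, one_mul, Finset.coe_filter, Finset.mem_Icc]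
    constructor
    · rintro ⟨m, ⟨hm1, hm2, hm3⟩, rfl⟩
      rw [le_div_iff₀ hQ'] at hm1
      have e1 : ((Q : ℤ) * m + r) = ((Q * m + r : ℕ) : ℤ) := by push_cast; ring
      rw [e1] at hm2 hm3
      rw [Int.toNat_natCast] at hm3
      refine ⟨⟨by exact_mod_cast hm2, ?_⟩, hm3, ?_⟩
      · have : ((Q * m + r : ℕ) : ℝ) ≤ N := by
          push_cast
          linarith
        exact_mod_cast this
      · rw [Nat.mul_add_mod]
        exact Nat.mod_eq_of_lt hr
    · rintro ⟨⟨hn1, hn2⟩, hn3, hn4⟩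
      have e0 : Q * (n / Q) + r = n := by
        rw [← hn4]
        exact Nat.div_add_mod n Q
      refine ⟨n / Q, ⟨?_, ?_, ?_⟩, e0⟩
      · rw [le_div_iff₀ hQ']
        have : ((Q * (n / Q) + r : ℕ) : ℝ) ≤ N := by
          rw [e0]
          exact_mod_cast hn2
        push_cast at this
        linarith
      · have e1 : ((Q : ℤ) * (n / Q : ℕ) + r) = ((Q * (n / Q) + r : ℕ) : ℤ) := by push_cast; ring
        rw [e1, e0]
        exact_mod_cast hn1
      · have e1 : ((Q : ℤ) * (n / Q : ℕ) + r) = ((Q * (n / Q) + r : ℕ) : ℤ) := by push_cast; ring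
        rw [e1, e0, Int.toNat_natCast]
        exact hn3
  show (((Set.ncard {m : ℕ | (m : ℝ) ≤ ((N : ℝ) - r) / Q ∧
      1 * ((Q : ℤ) * m + r) ∈ {z : ℤ | 0 < z ∧ z.toNat ∈ S}}) : ℕ) : ℝ) / (((N : ℝ) - r) / Q) *
      ((((N : ℝ) - r) / Q) / N) = _
  rw [h4]
  field_simp

theorem thm_MOD (h : St_PER) : St_MOD := by
  intro S d hS hd J l
  obtain ⟨h1, h2⟩ := h
  have hD := MOD_dens hS hd
  obtain ⟨Q, hQ⟩ : ∃ Q : ℕ, Q = 2 ^ (J + 1) := ⟨_, rfl⟩
  have hQ0 : 0 < Q := by rw [hQ]; positivity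
  have hQR : (Q : ℝ) = 2 ^ (J + 1) := by rw [hQ]; push_cast; rfl
  set Good := (range (2 ^ (J + 1))).filter fun r => ∃ k, 1 ≤ k ∧ k ≤ J + 1 ∧ l ≤ mul k r with hGood
  have hsum : Tendsto (fun N : ℕ => ∑ r ∈ Good,
      (((Icc 1 N).filter fun n => n ∈ S ∧ n % Q = r).card : ℝ) / N) atTop
      (𝓝 (∑ _r ∈ Good, d / Q)) := by
    refine tendsto_finsetSum _ fun r hr => ?_
    rw [hGood, mem_filter, mem_range, ← hQ] at hr
    exact MOD_class hD Q r hQ0 hr.1
  have hval : ∑ _r ∈ Good, d / (Q : ℝ) = d * G1 J l := by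
    rw [Finset.sum_const, nsmul_eq_mul, h2 J l, ← hQR]
    have : (Q : ℝ) ≠ 0 := by
      have : (0 : ℝ) < Q := by exact_mod_cast hQ0
      exact this.ne'
    field_simp
  rw [hval] at hsum
  unfold HasDensity
  refine hsum.congr fun N => ?_
  rw [← Finset.sum_div]
  congr 1
  have e1 : {n : ℕ | 1 ≤ n ∧ n ≤ N ∧ n ∈ {n : ℕ | n ∈ S ∧ ∃ k, 1 ≤ k ∧ k ≤ J + 1 ∧ l ≤ mul k n}} =
      (((Icc 1 N).filter fun n => n ∈ S ∧ ∃ k, 1 ≤ k ∧ k ≤ J + 1 ∧ l ≤ mul k n : Finset ℕ) :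
        Set ℕ) := by
    ext n
    simp only [Set.mem_ofPred_eq, Finset.coe_filter, Finset.mem_Icc, and_assoc]
  rw [e1, Set.ncard_coe_finset]
  have hper : ∀ n : ℕ, (∃ k, 1 ≤ k ∧ k ≤ J + 1 ∧ l ≤ mul k n) ↔ n % Q ∈ Good := by
    intro n
    rw [hGood, mem_filter, mem_range, ← hQ]
    have e2 : ∀ k ≤ J + 1, mul k n = mul k (n % Q) := by
      apply h1 (J + 1) n (n % Q)
      rw [← hQ, Nat.mod_mod]
    constructor
    · rintro ⟨k, k1, k2, k3⟩
      exact ⟨Nat.mod_lt _ hQ0, k, k1, k2, by rw [← e2 k k2]; exact k3⟩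
    · rintro ⟨-, k, k1, k2, k3⟩
      exact ⟨k, k1, k2, by rw [e2 k k2]; exact k3⟩
  have e3 := Finset.card_eq_sum_card_fiberwise (f := fun n : ℕ => n % Q)
    (s := (Icc 1 N).filter fun n => n ∈ S ∧ ∃ k, 1 ≤ k ∧ k ≤ J + 1 ∧ l ≤ mul k n) (t := Good) (by
      intro n hn
      rw [Finset.mem_coe, mem_filter] at hn
      exact Finset.mem_coe.mpr ((hper n).mp hn.2.2))
  rw [e3]
  push_cast
  refine Finset.sum_congr rfl fun r hr => ?_
  congr 2
  ext n
  simp only [mem_filter]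
  constructor
  · rintro ⟨q1, q2, q3⟩
    refine ⟨⟨q1, q2, (hper n).mpr ?_⟩, q3⟩
    rw [q3]
    exact hr
  · rintro ⟨⟨q1, q2, -⟩, q3⟩
    exact ⟨q1, q2, q3⟩

end Pool.Agent.LIM
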