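import Pool.Agent.LIM.StA

/-!
# Periodicity of the multipliers
-/

set_option autoImplicit false

open Finset Filter Topology
open scoped Classical

namespace Pool.Agent.LIM

open Pool.Agent.Collatz3.TX (T mul T_even T_odd)

private theorem PER_one : ∀ J n n' : ℕ, n % 2 ^ J = n' % 2 ^ J → ∀ k ≤ J, mul k n = mul k n' := by
  intro J
  induction J with
  | zero =>
    intro n n' _ k hk
    obtain rfl : k = 0 := by omega
    rfl
  | succ J ih =>
    intro n n' h k hk
    cases k with
    | zero => rfl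
    | succ k =>
      have h' : n ≡ n' [MOD 2 ^ (J + 1)] := h
      have h2 : n % 2 = n' % 2 := h'.of_dvd (dvd_pow_self 2 (by omega))
      have hT : T n % 2 ^ J = T n' % 2 ^ J := by
        rcases Nat.mod_two_eq_zero_or_one n with h0 | h0
        · obtain ⟨a, rfl⟩ : ∃ a, n = 2 * a := ⟨n / 2, by omega⟩
          obtain ⟨b, rfl⟩ : ∃ b, n' = 2 * b := ⟨n' / 2, by omega⟩
          rw [T_even, T_even]
          rw [pow_succ'] at h'
          exact Nat.ModEq.mul_left_cancel' (by norm_num) h'
        · obtain ⟨a, rfl⟩ : ∃ a, n = 2 * a + 1 := ⟨n / 2, by omega⟩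
          obtain ⟨b, rfl⟩ : ∃ b, n' = 2 * b + 1 := ⟨n' / 2, by omega⟩
          rw [T_odd, T_odd]
          rw [pow_succ'] at h'
          have h3 : a ≡ b [MOD 2 ^ J] :=
            Nat.ModEq.mul_left_cancel' (by norm_num) (Nat.ModEq.add_right_cancel' 1 h')
          exact (h3.mul_left 3).add_right 2
      have e1 : mul (k + 1) n = (if n % 2 = 0 then 1 / 2 else 3 / 2) * mul k (T n) := rfl
      have e2 : mul (k + 1) n' = (if n' % 2 = 0 then 1 / 2 else 3 / 2) * mul k (T n') := rfl
      rw [e1, e2, h2, ih (T n) (T n') hT k (by omega)]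

private theorem PER_block (P : ℕ → Prop) (Q : ℕ) (hP : ∀ i j, P (Q * i + j) ↔ P j) (N : ℕ) :
    ((range (Q * N)).filter P).card = N * ((range Q).filter P).card := by
  induction N with
  | zero => simp
  | succ N ih =>
    rw [card_filter] at ih ⊢
    rw [Nat.mul_succ, sum_range_add, ih]
    have h1 : ∑ x ∈ range Q, (if P (Q * N + x) then 1 else 0) = ((range Q).filter P).card := by
      rw [card_filter]
      exact sum_congr rfl fun x _ => if_congr (hP N x) rfl rfl
    rw [h1, Nat.succ_mul]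

theorem thm_PER (h : St_EAR) : St_PER := by
  refine ⟨PER_one, ?_⟩
  intro J l
  set Q : ℕ := 2 ^ (J + 1) with hQ
  set P : ℕ → Prop := fun r => ∃ k, 1 ≤ k ∧ k ≤ J + 1 ∧ l ≤ mul k r with hP
  have hper : ∀ i j, P (Q * i + j) ↔ P j := by
    intro i j
    have hmod : (Q * i + j) % 2 ^ (J + 1) = j % 2 ^ (J + 1) := by
      rw [← hQ, Nat.mul_add_mod]
    have hm := PER_one (J + 1) (Q * i + j) j hmod
    constructor
    · rintro ⟨k, h1, h2, h3⟩
      exact ⟨k, h1, h2, by rw [← hm k h2]; exact h3⟩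
    · rintro ⟨k, h1, h2, h3⟩
      exact ⟨k, h1, h2, by rw [hm k h2]; exact h3⟩
  set c : ℝ := (((range Q).filter P).card : ℝ) with hc
  have hQc : (Q : ℝ) = 2 ^ (J + 1) := by
    rw [hQ]
    push_cast
    rfl
  have key : ∀ N : ℕ, (N : ℝ) * |c - Q * G1 J l| ≤ Q := by
    intro N
    have h1 := h J l 1 0 (Q * N) rfl
    have h2 : ((range (Q * N)).filter fun m => ∃ k, 1 ≤ k ∧ k ≤ J + 1 ∧ l ≤ mul k (1 * m + 0)) =
        (range (Q * N)).filter P := by
      refine filter_congr fun m _ => ?_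
      rw [one_mul, add_zero]
    rw [h2, PER_block P Q hper N] at h1
    have h3 : ((N * ((range Q).filter P).card : ℕ) : ℝ) - ((Q * N : ℕ) : ℝ) * G1 J l =
        N * (c - Q * G1 J l) := by
      push_cast
      rw [hc]
      ring
    rw [h3, abs_mul, Nat.abs_cast] at h1
    rw [hQc] at h1 ⊢
    linarith
  have h0 : c - Q * G1 J l = 0 := by
    by_contra hne
    have hpos : 0 < |c - Q * G1 J l| := abs_pos.2 hne
    obtain ⟨N, hN⟩ := exists_nat_gt ((Q : ℝ) / |c - Q * G1 J l|)
    rw [div_lt_iff₀ hpos] at hN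
    exact absurd (key N) (not_le.2 hN)
  rw [← hQc]
  linarith

end Pool.Agent.LIM
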