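import Pool.Agent.LIM.StA

set_option autoImplicit false

open Finset Filter Topology
open scoped Classical

namespace Pool.Agent.LIM

theorem thm_PHI : St_PHI := by
  intro f hf hone heq t ht
  have hanti : Antitone f := fun x y hxy => hf x y hxy
  have hint : ∀ a b : ℝ, IntervalIntegrable f MeasureTheory.volume a b :=
    fun a b => hanti.intervalIntegrable
  have hanti2 : Antitone (fun u : ℝ => f (2 * u)) := fun x y hxy => hf _ _ (by linarith)
  have hanti3 : Antitone (fun u : ℝ => f (2 / 3 * u)) := fun x y hxy => hf _ _ (by linarith)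
  have e1 : ∫ u in (1 : ℝ)..t, f u = ∫ u in (1 : ℝ)..t, (f (2 * u) + f (2 / 3 * u)) / 2 := by
    apply intervalIntegral.integral_congr_ae
    refine Eventually.of_forall (fun u hu => ?_)
    rw [Set.uIoc_of_le ht] at hu
    exact heq u hu.1
  have e2 : ∫ u in (1 : ℝ)..t, (f (2 * u) + f (2 / 3 * u)) / 2 =
      (∫ u in (1 : ℝ)..t, f (2 * u)) / 2 + (∫ u in (1 : ℝ)..t, f (2 / 3 * u)) / 2 := by
    rw [intervalIntegral.integral_div, intervalIntegral.integral_add
      hanti2.intervalIntegrable hanti3.intervalIntegrable, add_div]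
  have e3 : ∫ u in (1 : ℝ)..t, f (2 * u) = 1 / 2 * ∫ u in (2 : ℝ)..(2 * t), f u := by
    rw [intervalIntegral.integral_comp_mul_left (fun u => f u) (by norm_num : (2 : ℝ) ≠ 0)]
    norm_num
  have e4 : ∫ u in (1 : ℝ)..t, f (2 / 3 * u) = 3 / 2 * ∫ u in (2 / 3 : ℝ)..(2 / 3 * t), f u := by
    rw [intervalIntegral.integral_comp_mul_left (fun u => f u) (by norm_num : (2 / 3 : ℝ) ≠ 0)]
    norm_num
  have e5 : ∫ u in (2 / 3 : ℝ)..1, f u = 1 / 3 := by
    have : ∫ u in (2 / 3 : ℝ)..1, f u = ∫ u in (2 / 3 : ℝ)..1, (1 : ℝ) := by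
      apply intervalIntegral.integral_congr
      intro u hu
      rw [Set.uIcc_of_le (by norm_num)] at hu
      exact hone u hu.2
    rw [this]
    simp
    norm_num
  have a1 := intervalIntegral.integral_add_adjacent_intervals (hint (2 / 3) 1) (hint 1 (2 / 3 * t))
  have a2 := intervalIntegral.integral_add_adjacent_intervals (hint 1 (2 / 3 * t))
    (hint (2 / 3 * t) t)
  have a3 := intervalIntegral.integral_add_adjacent_intervals (hint 1 2) (hint 2 (2 * t))
  have a4 := intervalIntegral.integral_add_adjacent_intervals (hint 1 t) (hint t (2 * t))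
  rw [e2, e3, e4] at e1
  linarith

end Pool.Agent.LIM
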