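import Pool.Agent.LIM.StA

set_option autoImplicit false

open Finset Filter Topology
open scoped Classical

namespace Pool.Agent.LIM

private theorem REN_lin (α β γ : ℝ) (h : ∀ ε : ℝ, 0 < ε → α ≤ γ + β * ε) : α ≤ γ := by
  by_contra hc
  push Not at hc
  have hb : 0 < |β| + 1 := by positivity
  have h1 := h ((α - γ) / (2 * (|β| + 1))) (div_pos (by linarith) (by positivity))
  have h2 : β * ((α - γ) / (2 * (|β| + 1))) ≤ |β| * ((α - γ) / (2 * (|β| + 1))) :=
    mul_le_mul_of_nonneg_right (le_abs_self _) (div_pos (by linarith) (by positivity)).le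
  have h3 : |β| * ((α - γ) / (2 * (|β| + 1))) ≤ (α - γ) / 2 := by
    rw [mul_div_assoc', div_le_div_iff₀ (by positivity) (by norm_num)]
    nlinarith
  linarith

private theorem REN_exp_neg (x y z : ℝ) (h : ∀ δ : ℝ, 0 < δ → x * Real.exp (-δ) + y ≤ z) :
    x + y ≤ z := by
  have h1 : Tendsto (fun δ : ℝ => x * Real.exp (-δ) + y) (𝓝[>] (0 : ℝ))
      (𝓝 (x * Real.exp (-0) + y)) := by
    have : Continuous (fun δ : ℝ => x * Real.exp (-δ) + y) := by fun_prop
    exact (this.tendsto 0).mono_left nhdsWithin_le_nhds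
  have h2 : ∀ᶠ δ : ℝ in 𝓝[>] (0 : ℝ), x * Real.exp (-δ) + y ≤ z := by
    filter_upwards [self_mem_nhdsWithin] with δ hδ using h δ hδ
  have h3 := le_of_tendsto h1 h2
  simpa using h3

private theorem REN_exp_pos (x y z : ℝ) (h : ∀ δ : ℝ, 0 < δ → z ≤ x * Real.exp δ + y) :
    z ≤ x + y := by
  have h1 : Tendsto (fun δ : ℝ => x * Real.exp δ + y) (𝓝[>] (0 : ℝ))
      (𝓝 (x * Real.exp 0 + y)) := by
    have : Continuous (fun δ : ℝ => x * Real.exp δ + y) := by fun_prop
    exact (this.tendsto 0).mono_left nhdsWithin_le_nhds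
  have h2 : ∀ᶠ δ : ℝ in 𝓝[>] (0 : ℝ), z ≤ x * Real.exp δ + y := by
    filter_upwards [self_mem_nhdsWithin] with δ hδ using h δ hδ
  have h3 := ge_of_tendsto h1 h2
  simpa using h3

private theorem REN_int_bounds (f : ℝ → ℝ) (hf : ∀ x y, x ≤ y → f y ≤ f x) (a b A B : ℝ)
    (ha : 0 < a) (hab : a ≤ b) (h : ∀ u, a ≤ u → u ≤ b → A ≤ u * f u ∧ u * f u ≤ B) :
    A * Real.log (b / a) ≤ ∫ u in a..b, f u ∧ ∫ u in a..b, f u ≤ B * Real.log (b / a) := by
  have hanti : Antitone f := fun x y hxy => hf x y hxy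
  have hint : IntervalIntegrable f MeasureTheory.volume a b := hanti.intervalIntegrable
  have hb : 0 < b := lt_of_lt_of_le ha hab
  have hinv : IntervalIntegrable (fun u : ℝ => u⁻¹) MeasureTheory.volume a b := by
    apply ContinuousOn.intervalIntegrable
    apply ContinuousOn.inv₀ continuousOn_id
    intro u hu
    rw [Set.uIcc_of_le hab] at hu
    simp only [id_eq]
    linarith [hu.1]
  have hlog : ∫ u in a..b, u⁻¹ = Real.log (b / a) := integral_inv_of_pos ha hb
  constructor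
  · rw [← hlog, ← intervalIntegral.integral_const_mul]
    apply intervalIntegral.integral_mono_on hab (hinv.const_mul A) hint
    intro u hu
    have hu0 : 0 < u := lt_of_lt_of_le ha hu.1
    have h1 := (h u hu.1 hu.2).1
    rw [← div_eq_mul_inv, div_le_iff₀ hu0]
    linarith
  · rw [← hlog, ← intervalIntegral.integral_const_mul]
    apply intervalIntegral.integral_mono_on hab hint (hinv.const_mul B)
    intro u hu
    have hu0 : 0 < u := lt_of_lt_of_le ha hu.1
    have h1 := (h u hu.1 hu.2).2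
    rw [← div_eq_mul_inv, le_div_iff₀ hu0]
    linarith

private theorem REN_window (h1 : St_PHI) (f : ℝ → ℝ) (hf : ∀ x y, x ≤ y → f y ≤ f x)
    (hone : ∀ l, l ≤ 1 → f l = 1) (heq : ∀ l, 1 < l → f l = (f (2 * l) + f (2 / 3 * l)) / 2)
    (t A B : ℝ) (ht : 1 ≤ t) (h : ∀ u, 2 / 3 * t ≤ u → u ≤ 2 * t → A ≤ u * f u ∧ u * f u ≤ B) :
    3 * A * Real.log (3 / 2) - B * Real.log 2 ≤ 1 - ∫ u in (1 : ℝ)..2, f u ∧
    1 - ∫ u in (1 : ℝ)..2, f u ≤ 3 * B * Real.log (3 / 2) - A * Real.log 2 := by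
  have hP := h1 f hf hone heq t ht
  have e1 := REN_int_bounds f hf (2 / 3 * t) t A B (by linarith) (by linarith)
    (fun u hu1 hu2 => h u hu1 (by linarith))
  have e2 := REN_int_bounds f hf t (2 * t) A B (by linarith) (by linarith)
    (fun u hu1 hu2 => h u (by linarith) hu2)
  have r1 : t / (2 / 3 * t) = 3 / 2 := by
    field_simp
  have r2 : 2 * t / t = 2 := by
    field_simp
  rw [r1] at e1
  rw [r2] at e2
  constructor <;> nlinarith [e1.1, e1.2, e2.1, e2.2]

theorem thm_REN (h1 : St_PHI) (h2 : St_WU) (h3 : St_WL) : St_REN := by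
  intro f hf hnn hle hone heq
  set H : ℝ → ℝ := fun l => l * f l with hH
  set I : ℝ := ∫ u in (1 : ℝ)..2, f u with hI
  have hH0 : ∀ᶠ l in atTop, 0 ≤ H l := by
    filter_upwards [eventually_ge_atTop (0 : ℝ)] with l hl using mul_nonneg hl (hnn l)
  have hH1 : ∀ᶠ l in atTop, H l ≤ 1 := by
    filter_upwards [eventually_gt_atTop (0 : ℝ)] with l hl
    have := hle l hl
    rw [le_div_iff₀ hl] at this
    simp only [hH]
    linarith
  have hba : IsBoundedUnder (· ≤ ·) atTop H := ⟨1, by simpa using hH1⟩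
  have hbb : IsBoundedUnder (· ≥ ·) atTop H := ⟨0, by simpa using hH0⟩
  have hca : IsCoboundedUnder (· ≤ ·) atTop H := hbb.isCoboundedUnder_le
  have hcb : IsCoboundedUnder (· ≥ ·) atTop H := hba.isCoboundedUnder_ge
  set M : ℝ := limsup H atTop with hM
  set m : ℝ := liminf H atTop with hm
  have hm0 : 0 ≤ m := le_liminf_of_le hcb hH0
  have hlog : Real.log (27 / 16) = 3 * Real.log (3 / 2) - Real.log 2 := by
    have : (27 / 16 : ℝ) = (3 / 2) ^ 3 / 2 := by norm_num
    rw [this, Real.log_div (by norm_num) (by norm_num), Real.log_pow]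
    norm_num
  have hlog0 : 0 < Real.log (27 / 16) := Real.log_pos (by norm_num)
  have hl32 : 0 < Real.log (3 / 2) := Real.log_pos (by norm_num)
  have hl2 : 0 < Real.log 2 := Real.log_pos (by norm_num)
  -- limsup
  have keyM : ∀ δ : ℝ, 0 < δ → ∃ c : ℝ, ∀ ε : ℝ, 0 < ε →
      3 * (Real.exp (-δ) * (M - c * ε)) * Real.log (3 / 2) - (M + ε) * Real.log 2 ≤ 1 - I ∧
      1 - I ≤ 3 * (M + ε) * Real.log (3 / 2) - (Real.exp (-δ) * (M - c * ε)) * Real.log 2 := by
    intro δ hδ
    obtain ⟨n, hn⟩ := h2 δ hδ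
    refine ⟨2 * 4 ^ n, fun ε hε => ?_⟩
    have e1 : ∀ᶠ l in atTop, H l < M + ε :=
      eventually_lt_of_limsup_lt (by rw [← hM]; linarith) hba
    obtain ⟨L₁, hL₁⟩ := eventually_atTop.1 e1
    set L : ℝ := max L₁ 2 with hL
    have hL2 : 2 ≤ L := le_max_right _ _
    have hLM : ∀ l, L ≤ l → l * f l ≤ M + ε := fun l hl =>
      (hL₁ l (le_trans (le_max_left _ _) hl)).le
    have e2 : ∃ᶠ l in atTop, M - ε < H l :=
      frequently_lt_of_lt_limsup hca (by rw [← hM]; linarith)
    obtain ⟨t, ht1, ht2⟩ := (e2.and_eventually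
      (eventually_ge_atTop (max (L * (3 / 2) ^ n) (3 / 2 * L)))).exists
    have ht3 : L * (3 / 2) ^ n ≤ t := le_trans (le_max_left _ _) ht2
    have ht4 : 3 / 2 * L ≤ t := le_trans (le_max_right _ _) ht2
    have hw := hn f M L ε t hf hnn heq hε hL2 hLM ht3 ht1.le
    exact REN_window h1 f hf hone heq t _ _ (by linarith)
      (fun u hu1 hu2 => ⟨hw u hu1 hu2, hLM u (by linarith)⟩)
  have keym : ∀ δ : ℝ, 0 < δ → ∃ c : ℝ, ∀ ε : ℝ, 0 < ε →
      3 * (m - ε) * Real.log (3 / 2) - (Real.exp δ * (m + c * ε)) * Real.log 2 ≤ 1 - I ∧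
      1 - I ≤ 3 * (Real.exp δ * (m + c * ε)) * Real.log (3 / 2) - (m - ε) * Real.log 2 := by
    intro δ hδ
    obtain ⟨n, hn⟩ := h3 δ hδ
    refine ⟨2 * 4 ^ n, fun ε hε => ?_⟩
    have e1 : ∀ᶠ l in atTop, m - ε < H l :=
      eventually_lt_of_lt_liminf (by rw [← hm]; linarith) hbb
    obtain ⟨L₁, hL₁⟩ := eventually_atTop.1 e1
    set L : ℝ := max L₁ 2 with hL
    have hL2 : 2 ≤ L := le_max_right _ _
    have hLM : ∀ l, L ≤ l → m - ε ≤ l * f l := fun l hl =>
      (hL₁ l (le_trans (le_max_left _ _) hl)).le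
    have e2 : ∃ᶠ l in atTop, H l < m + ε :=
      frequently_lt_of_liminf_lt hcb (by rw [← hm]; linarith)
    obtain ⟨t, ht1, ht2⟩ := (e2.and_eventually
      (eventually_ge_atTop (max (L * (3 / 2) ^ n) (3 / 2 * L)))).exists
    have ht3 : L * (3 / 2) ^ n ≤ t := le_trans (le_max_left _ _) ht2
    have ht4 : 3 / 2 * L ≤ t := le_trans (le_max_right _ _) ht2
    have hw := hn f m L ε t hf hnn heq hε hL2 hm0 hLM ht3 ht1.le
    exact REN_window h1 f hf hone heq t _ _ (by linarith)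
      (fun u hu1 hu2 => ⟨hLM u (by linarith), hw u hu1 hu2⟩)
  have hMeq : M = (1 - I) / Real.log (27 / 16) := by
    have up : (3 * M * Real.log (3 / 2)) + (- M * Real.log 2) ≤ 1 - I := by
      apply REN_exp_neg
      intro δ hδ
      obtain ⟨c, hc⟩ := keyM δ hδ
      apply REN_lin _ (3 * Real.exp (-δ) * c * Real.log (3 / 2) + Real.log 2)
      intro ε hε
      have := (hc ε hε).1
      nlinarith
    have lo : (- M * Real.log 2) + (3 * M * Real.log (3 / 2)) ≥ 1 - I := by
      have : M * Real.log 2 + (-(3 * M * Real.log (3 / 2))) ≤ -(1 - I) := by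
        apply REN_exp_neg
        intro δ hδ
        obtain ⟨c, hc⟩ := keyM δ hδ
        apply REN_lin _ (3 * Real.log (3 / 2) + Real.exp (-δ) * c * Real.log 2)
        intro ε hε
        have := (hc ε hε).2
        nlinarith
      linarith
    rw [eq_div_iff hlog0.ne', hlog]
    linarith
  have hmeq : m = (1 - I) / Real.log (27 / 16) := by
    have up : 1 - I ≤ (3 * m * Real.log (3 / 2)) + (- m * Real.log 2) := by
      apply REN_exp_pos
      intro δ hδ
      obtain ⟨c, hc⟩ := keym δ hδ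
      apply REN_lin _ (3 * Real.exp δ * c * Real.log (3 / 2) + Real.log 2)
      intro ε hε
      have := (hc ε hε).2
      nlinarith
    have lo : -(1 - I) ≤ m * Real.log 2 + (-(3 * m * Real.log (3 / 2))) := by
      apply REN_exp_pos
      intro δ hδ
      obtain ⟨c, hc⟩ := keym δ hδ
      apply REN_lin _ (3 * Real.log (3 / 2) + Real.exp δ * c * Real.log 2)
      intro ε hε
      have := (hc ε hε).1
      nlinarith
    rw [eq_div_iff hlog0.ne', hlog]
    linarith
  exact tendsto_of_liminf_eq_limsup hmeq hMeq hba hbb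

end Pool.Agent.LIM
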