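import Pool.Agent.LIM.StA

set_option autoImplicit false

open Finset Filter Topology
open scoped Classical

namespace Pool.Agent.LIM

private theorem TAU_slope (a : ℝ) :
    Tendsto (fun ε : ℝ => ((1 + ε) ^ a - 1) / ε) (𝓝[>] (0 : ℝ)) (𝓝 a) := by
  have h1 : HasDerivAt (fun x : ℝ => (1 + x) ^ a) a 0 := by
    have h2 : HasDerivAt (fun x : ℝ => 1 + x) 1 0 := by
      simpa using (hasDerivAt_id (0 : ℝ)).const_add 1
    have h3 := h2.rpow_const (p := a) (Or.inl (by norm_num))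
    simpa using h3
  have h4 := hasDerivAt_iff_tendsto_slope_zero.1 h1
  have h5 : Tendsto (fun t : ℝ => t⁻¹ • ((1 + (0 + t)) ^ a - (1 + 0) ^ a)) (𝓝[>] (0 : ℝ)) (𝓝 a) :=
    h4.mono_left (nhdsWithin_mono _ (fun x hx => ne_of_gt hx))
  refine h5.congr (fun t => ?_)
  simp only [zero_add, add_zero, Real.one_rpow, smul_eq_mul]
  rw [div_eq_inv_mul]

private theorem TAU_iter (D : ℝ → ℝ) (q y₀ : ℝ) (hq : 1 < q) (hy₀ : 0 < y₀)
    (hD : ∀ y, y₀ ≤ y → D (q * y) ≤ D y) :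
    ∀ y, y₀ ≤ y → ∀ k : ℕ, D (q ^ k * y) ≤ D y := by
  intro y hy k
  induction k with
  | zero => simp
  | succ k ih =>
    have h1 : y₀ ≤ q ^ k * y := by
      have : 1 ≤ q ^ k := one_le_pow₀ hq.le
      nlinarith
    have h2 := hD _ h1
    have h3 : q ^ (k + 1) * y = q * (q ^ k * y) := by ring
    rw [h3]
    exact h2.trans ih

private theorem TAU_bound (D : ℝ → ℝ) (q y₀ C : ℝ) (hq : 1 < q) (hy₀ : 0 < y₀)
    (hD : ∀ y, y₀ ≤ y → D (q * y) ≤ D y) (hC : ∀ y, y₀ ≤ y → y ≤ q * y₀ → D y ≤ C) :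
    ∀ x, y₀ ≤ x → D x ≤ C := by
  intro x hx
  obtain ⟨n, hn1, hn2⟩ := exists_nat_pow_near (x := x / y₀) (y := q)
    (by rw [le_div_iff₀ hy₀]; linarith) hq
  have hqn : 0 < q ^ n := by positivity
  rw [le_div_iff₀ hy₀] at hn1
  rw [div_lt_iff₀ hy₀] at hn2
  have h1 : y₀ ≤ x / q ^ n := by
    rw [le_div_iff₀ hqn]; linarith
  have h2 : x / q ^ n ≤ q * y₀ := by
    rw [div_le_iff₀ hqn]
    have : q ^ (n + 1) * y₀ = q * y₀ * q ^ n := by ring
    linarith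
  have h3 := TAU_iter D q y₀ hq hy₀ hD _ h1 n
  have h4 : q ^ n * (x / q ^ n) = x := by field_simp
  rw [h4] at h3
  exact h3.trans (hC _ h1 h2)

theorem thm_TAU : St_TAU := by
  intro R κ a B hκ ha hB hR0 hmono hyp
  have hlim0 : Tendsto (fun ε : ℝ => ((1 + ε) ^ a - 1) / ε) (𝓝[>] (0 : ℝ)) (𝓝 a) := TAU_slope a
  have hid : Tendsto (fun ε : ℝ => ε) (𝓝[>] (0 : ℝ)) (𝓝 0) := nhdsWithin_le_nhds
  have hup : Tendsto (fun ε : ℝ => (κ + B * ε) / (((1 + ε) ^ a - 1) / ε)) (𝓝[>] (0 : ℝ))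
      (𝓝 (κ / a)) := by
    have h1 : Tendsto (fun ε : ℝ => κ + B * ε) (𝓝[>] (0 : ℝ)) (𝓝 (κ + B * 0)) :=
      (hid.const_mul B).const_add κ
    rw [mul_zero, add_zero] at h1
    exact h1.div hlim0 ha.ne'
  have hlo : Tendsto (fun ε : ℝ => (κ - B * ε) / (((1 + ε) ^ a - 1) / ε)) (𝓝[>] (0 : ℝ))
      (𝓝 (κ / a)) := by
    have h1 : Tendsto (fun ε : ℝ => κ - B * ε) (𝓝[>] (0 : ℝ)) (𝓝 (κ - B * 0)) :=
      (hid.const_mul B).const_sub κ
    rw [mul_zero, sub_zero] at h1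
    exact h1.div hlim0 ha.ne'
  rw [Metric.tendsto_atTop]
  intro δ hδ
  have hδ2 : 0 < δ / 2 := by linarith
  have hup' := hup.eventually (gt_mem_nhds (show κ / a < κ / a + δ / 2 by linarith))
  have hlo' := hlo.eventually (lt_mem_nhds (show κ / a - δ / 2 < κ / a by linarith))
  have hsmall : ∀ᶠ ε : ℝ in 𝓝[>] (0 : ℝ), ε < 1 :=
    hid.eventually (gt_mem_nhds (show (0 : ℝ) < 1 by norm_num))
  have hpos : ∀ᶠ ε : ℝ in 𝓝[>] (0 : ℝ), 0 < ε := eventually_mem_nhdsWithin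
  obtain ⟨ε, hε1, hε2, hε3, hε4⟩ := (hup'.and (hlo'.and (hsmall.and hpos))).exists
  clear hup' hlo' hsmall hpos
  have hq : 1 < 1 + ε := by linarith
  have hg : 1 < (1 + ε) ^ a := Real.one_lt_rpow hq ha
  have hg0 : 0 < (1 + ε) ^ a - 1 := by linarith
  obtain ⟨y₁, hy₁⟩ := eventually_atTop.1 (hyp ε hε4 hε3)
  set y₀ : ℝ := max y₁ 1 with hy₀def
  have hy₀ : 0 < y₀ := lt_of_lt_of_le one_pos (le_max_right _ _)
  have hyp' : ∀ y, y₀ ≤ y → |R ((1 + ε) * y) - R y - κ * ε * y ^ a| ≤ B * ε ^ 2 * y ^ a :=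
    fun y hy => hy₁ y (le_trans (le_max_left _ _) hy)
  -- constants
  set K : ℝ := (κ * ε + B * ε ^ 2) / ((1 + ε) ^ a - 1) with hK
  set K' : ℝ := (κ * ε - B * ε ^ 2) / ((1 + ε) ^ a - 1) with hK'
  have hKe : K * ((1 + ε) ^ a - 1) = κ * ε + B * ε ^ 2 := by
    rw [hK]; field_simp
  have hKe' : K' * ((1 + ε) ^ a - 1) = κ * ε - B * ε ^ 2 := by
    rw [hK']; field_simp
  have hK0 : 0 ≤ K := by rw [hK]; positivity
  have hKlt : K < κ / a + δ / 2 := by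
    have : K = (κ + B * ε) / (((1 + ε) ^ a - 1) / ε) := by
      rw [hK]; field_simp
    rw [this]; exact hε1
  have hKlt' : κ / a - δ / 2 < K' := by
    have : K' = (κ - B * ε) / (((1 + ε) ^ a - 1) / ε) := by
      rw [hK']; field_simp
    rw [this]; exact hε2
  have hmulpow : ∀ y : ℝ, y₀ ≤ y → ((1 + ε) * y) ^ a = (1 + ε) ^ a * y ^ a := by
    intro y hy
    exact Real.mul_rpow (by linarith) (by linarith)
  have hub : ∀ x, y₀ ≤ x → R x - K * x ^ a ≤ R ((1 + ε) * y₀) := by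
    apply TAU_bound (fun y => R y - K * y ^ a) (1 + ε) y₀ _ hq hy₀
    · intro y hy
      have h1 := (abs_le.1 (hyp' y hy)).2
      have h2 : 0 ≤ y ^ a := Real.rpow_nonneg (by linarith) _
      rw [hmulpow y hy]
      have h3 : K * ((1 + ε) ^ a * y ^ a) = K * y ^ a + (K * ((1 + ε) ^ a - 1)) * y ^ a := by ring
      rw [h3, hKe]
      nlinarith
    · intro y hy hy2
      have h2 : 0 ≤ y ^ a := Real.rpow_nonneg (by linarith) _
      have h3 := hmono hy2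
      have h4 : 0 ≤ K * y ^ a := mul_nonneg hK0 h2
      linarith
  have hlb : ∀ x, y₀ ≤ x → K' * x ^ a - R x ≤ |K'| * ((1 + ε) * y₀) ^ a := by
    apply TAU_bound (fun y => K' * y ^ a - R y) (1 + ε) y₀ _ hq hy₀
    · intro y hy
      have h1 := (abs_le.1 (hyp' y hy)).1
      have h2 : 0 ≤ y ^ a := Real.rpow_nonneg (by linarith) _
      rw [hmulpow y hy]
      have h3 : K' * ((1 + ε) ^ a * y ^ a) = K' * y ^ a + (K' * ((1 + ε) ^ a - 1)) * y ^ a := by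
        ring
      rw [h3, hKe']
      nlinarith
    · intro y hy hy2
      have h2 : 0 ≤ y ^ a := Real.rpow_nonneg (by linarith) _
      have h3 : y ^ a ≤ ((1 + ε) * y₀) ^ a := Real.rpow_le_rpow (by linarith) hy2 ha.le
      have h4 := hR0 y
      have h5 : K' * y ^ a ≤ |K'| * y ^ a := mul_le_mul_of_nonneg_right (le_abs_self _) h2
      have h6 : |K'| * y ^ a ≤ |K'| * ((1 + ε) * y₀) ^ a :=
        mul_le_mul_of_nonneg_left h3 (abs_nonneg _)
      linarith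
  set C₀ : ℝ := R ((1 + ε) * y₀) + |K'| * ((1 + ε) * y₀) ^ a with hC₀
  have hC₀1 : 0 ≤ R ((1 + ε) * y₀) := hR0 _
  have hC₀2 : 0 ≤ |K'| * ((1 + ε) * y₀) ^ a :=
    mul_nonneg (abs_nonneg _) (Real.rpow_nonneg (by positivity) _)
  have hpow : Tendsto (fun x : ℝ => x ^ a) atTop atTop := tendsto_rpow_atTop ha
  obtain ⟨x₁, hx₁⟩ := eventually_atTop.1 (hpow.eventually (eventually_gt_atTop (C₀ / (δ / 2))))
  refine ⟨max x₁ y₀, fun x hx => ?_⟩
  have hxx : x₁ ≤ x := le_trans (le_max_left _ _) hx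
  have hxy : y₀ ≤ x := le_trans (le_max_right _ _) hx
  have hx0 : 0 < x := lt_of_lt_of_le hy₀ hxy
  have hxa : 0 < x ^ a := Real.rpow_pos_of_pos hx0 _
  have h1 := hx₁ x hxx
  rw [div_lt_iff₀ hδ2] at h1
  have h2 := hub x hxy
  have h3 := hlb x hxy
  rw [Real.dist_eq, abs_lt]
  constructor
  · rw [lt_sub_iff_add_lt, lt_div_iff₀ hxa]
    nlinarith
  · rw [sub_lt_iff_lt_add, div_lt_iff₀ hxa]
    nlinarith

end Pool.Agent.LIM
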