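import Pool.Agent.LIM.StA
import Pool.Agent.Collatz3.TXCount

/-!
# LIM TXL: late times, bounded trajectories
-/

set_option autoImplicit false

open Finset Filter Topology
open scoped Classical

namespace Pool.Agent.LIM

open Pool.Agent.Collatz3.TX (T mul B iter_cast sum_half_le hit_le few)
open Pool.Agent.Collatz3.Mix (words mem_words)
open Pool.Agent.Collatz3.PD
open Pool.Agent.Collatz3.FW

private def TXLE (J n : ℕ) : Prop := Bdd n ∧ ∃ j : ℕ, J < j ∧ n < T^[j] n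

/-- The decomposition of the exceptional set. -/
private theorem TXL_split {n N k J A h : ℕ}
    (hJ : 201 * k / 100 + A ≤ J) (hn1 : 1 ≤ n) (hnN : n ≤ N) (hE : TXLE J n) :
    (n : ℝ) ≤ N / h ∨ 2 ^ (A + 1) ∣ n ∨ ∃ a ≤ A, ∃ m : ℕ, n = 2 ^ a * m ∧
      (m : ℤ) ∈ (Od 1 ((N : ℝ) / 2 ^ a)).filter (fun n =>
        Hit (goodV (II k) k k) (fun _ => B ((N : ℝ) / h)) n ∨
          ¬ Hit (goodV (II k) k k) (fun _ => Set.univ) n) := by
  by_cases h1 : (n : ℝ) ≤ N / h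
  · exact Or.inl h1
  by_cases h2 : 2 ^ (A + 1) ∣ n
  · exact Or.inr (Or.inl h2)
  right; right
  push Not at h1
  have hn0 : n ≠ 0 := by omega
  obtain ⟨a, m, hm, hnm⟩ := Nat.exists_eq_two_pow_mul_odd hn0
  have haA : a ≤ A := by
    by_contra hcon
    push Not at hcon
    exact h2 (hnm ▸ dvd_mul_of_dvd_left (pow_dvd_pow 2 hcon) m)
  refine ⟨a, haA, m, hnm, ?_⟩
  have hm0 : 0 < m := by
    rcases Nat.eq_zero_or_pos m with h4 | h4
    · rw [h4] at hnm; omega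
    · exact h4
  rw [mem_filter, mem_Od (Or.inl rfl)]
  refine ⟨⟨?_, ?_, ?_⟩, ?_⟩
  · have := Nat.odd_iff.1 hm
    omega
  · rw [one_mul]
    exact_mod_cast hm0
  · rw [le_div_iff₀ (by positivity), one_mul]
    push_cast
    have h4 : m * 2 ^ a ≤ N := by rw [mul_comm, ← hnm]; exact hnN
    exact_mod_cast h4
  · by_cases h4 : Hit (goodV (II k) k k) (fun _ => Set.univ) (m : ℤ)
    · left
      obtain ⟨w, hw, b, hb, hr, hen, -⟩ := h4
      refine ⟨w, hw, b, hb, hr, hen, ?_⟩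
      have hpos : ∀ i ∈ w, 1 ≤ i := fun i hi =>
        ((mem_words.1 (goodV_subset _ _ _ hw)).2 i hi).1
      have hT := T_en hr hpos
      rw [hen] at hT
      have hTa : Helper14.T^[a] (n : ℤ) = m := by
        rw [hnm]
        push_cast
        exact Pool.Agent.Helper14.T_iter_pow a _
      have hb' : Helper14.T^[w.sum + a] (n : ℤ) = b := by
        rw [Function.iterate_add_apply, hTa, hT]
      have hws : w.sum + a ≤ J := by
        rw [goodV, mem_filter] at hw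
        omega
      obtain ⟨⟨M, hM⟩, j, hj, hnj⟩ := hE
      refine ⟨⟨(M : ℤ), fun i => ?_⟩, j - (w.sum + a), by omega, ?_⟩
      · rw [← hb', ← Function.iterate_add_apply, iter_cast]
        exact_mod_cast hM _
      · rw [← hb', ← Function.iterate_add_apply]
        have e1 : j - (w.sum + a) + (w.sum + a) = j := by omega
        rw [e1, iter_cast]
        refine h1.trans ?_
        have e2 : (n : ℝ) < ((T^[j] n : ℕ) : ℝ) := by exact_mod_cast hnj
        exact_mod_cast e2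
    · exact Or.inr h4

private theorem TXL_count_le {N k J A h : ℕ} {c : ℝ}
    (hJ : 201 * k / 100 + A ≤ J) (hc : 0 ≤ c)
    (hbd : ∀ a ≤ A, (((Od 1 ((N : ℝ) / 2 ^ a)).filter (fun n =>
        Hit (goodV (II k) k k) (fun _ => B ((N : ℝ) / h)) n ∨
          ¬ Hit (goodV (II k) k k) (fun _ => Set.univ) n)).card : ℝ) ≤ c * (N / 2 ^ a)) :
    (((Icc 1 N).filter fun n => TXLE J n).card : ℝ) ≤
      N / h + N / 2 ^ (A + 1) + 2 * c * N := by
  obtain ⟨G, hG⟩ : ∃ G : ℕ → Finset ℤ, G = fun a => (Od 1 ((N : ℝ) / 2 ^ a)).filter (fun n =>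
        Hit (goodV (II k) k k) (fun _ => B ((N : ℝ) / h)) n ∨
          ¬ Hit (goodV (II k) k k) (fun _ => Set.univ) n) := ⟨_, rfl⟩
  have hsub : (Icc 1 N).filter (fun n => TXLE J n) ⊆
      (Icc 1 ⌊(N : ℝ) / h⌋₊ ∪ (Icc 1 N).filter (fun n => 2 ^ (A + 1) ∣ n)) ∪
      (range (A + 1)).biUnion (fun a => (G a).image fun m => 2 ^ a * m.toNat) := by
    intro n hn
    rw [mem_filter, mem_Icc] at hn
    obtain ⟨⟨hn1, hnN⟩, hE⟩ := hn
    rw [mem_union, mem_union, mem_Icc, mem_filter, mem_Icc, mem_biUnion]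
    rcases TXL_split (h := h) hJ hn1 hnN hE with h1 | h1 | ⟨a, ha, m, hnm, hm⟩
    · left; left
      exact ⟨hn1, Nat.le_floor h1⟩
    · left; right
      exact ⟨⟨hn1, hnN⟩, h1⟩
    · right
      refine ⟨a, by rw [mem_range]; omega, ?_⟩
      rw [mem_image]
      refine ⟨m, ?_, ?_⟩
      · rw [hG]
        exact hm
      · rw [hnm, Int.toNat_natCast]
  have h1 : ((Icc 1 ⌊(N : ℝ) / h⌋₊).card : ℝ) ≤ N / h := by
    rw [Nat.card_Icc, Nat.add_sub_cancel]
    exact Nat.floor_le (by positivity)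
  have h2 : (((Icc 1 N).filter (fun n => 2 ^ (A + 1) ∣ n)).card : ℝ) ≤ N / 2 ^ (A + 1) := by
    have e1 : ((Icc 1 N).filter (fun n => 2 ^ (A + 1) ∣ n)).card = N / 2 ^ (A + 1) := by
      have := Nat.card_multiples' N (2 ^ (A + 1))
      rw [← this]
      congr 1
      ext n
      simp only [mem_filter, mem_Icc, mem_range]
      constructor
      · rintro ⟨⟨e2, e3⟩, e4⟩
        exact ⟨by omega, by omega, e4⟩
      · rintro ⟨e2, e3, e4⟩
        exact ⟨⟨by omega, by omega⟩, e4⟩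
    rw [e1]
    have := Nat.cast_div_le (α := ℝ) (m := N) (n := 2 ^ (A + 1))
    push_cast at this
    exact this
  have h4 : (((range (A + 1)).biUnion (fun a => (G a).image fun m => 2 ^ a * m.toNat)).card : ℝ) ≤
      2 * c * N := by
    have e1 : ((range (A + 1)).biUnion (fun a => (G a).image fun m => 2 ^ a * m.toNat)).card ≤
        ∑ a ∈ range (A + 1), (G a).card :=
      card_biUnion_le.trans (sum_le_sum fun a _ => card_image_le)
    have e2 : (((range (A + 1)).biUnion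
        (fun a => (G a).image fun m => 2 ^ a * m.toNat)).card : ℝ) ≤
        ∑ a ∈ range (A + 1), ((G a).card : ℝ) := by exact_mod_cast e1
    refine e2.trans ?_
    have e3 : ∀ a ∈ range (A + 1), ((G a).card : ℝ) ≤ c * N * (1 / 2 ^ a) := by
      intro a ha
      rw [mem_range] at ha
      have e4 := hbd a (by omega)
      rw [hG]
      simp only
      refine e4.trans (le_of_eq ?_)
      ring
    refine (sum_le_sum e3).trans ?_
    rw [← mul_sum]
    have e4 := mul_le_mul_of_nonneg_left (sum_half_le (A + 1)) (by positivity : 0 ≤ c * N)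
    linarith
  have h5 := card_le_card hsub
  have h6 := h5.trans ((card_union_le _ _).trans
    (add_le_add (card_union_le _ _) le_rfl))
  have h7 : (((Icc 1 N).filter fun n => TXLE J n).card : ℝ) ≤
      ((Icc 1 ⌊(N : ℝ) / h⌋₊).card : ℝ) + (((Icc 1 N).filter (fun n => 2 ^ (A + 1) ∣ n)).card : ℝ) +
      (((range (A + 1)).biUnion (fun a => (G a).image fun m => 2 ^ a * m.toNat)).card : ℝ) := by
    exact_mod_cast h6
  linarith

theorem thm_TXL : St_TXL := by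
  intro ε hε
  -- parameters
  obtain ⟨h, hh⟩ := exists_nat_gt (16 / ε)
  have hh0 : (0 : ℝ) < h := lt_trans (by positivity) hh
  have hhn : 0 < h := by exact_mod_cast hh0
  have hh1 : 1 / (h : ℝ) ≤ ε / 16 := by
    rw [div_le_div_iff₀ hh0 (by norm_num), one_mul]
    rw [div_lt_iff₀ hε] at hh
    linarith
  obtain ⟨k₁, hk₁⟩ := eventually_atTop.1 num_all
  obtain ⟨k₂, hk₂⟩ := exists_nat_gt (16 / ε)
  obtain ⟨k₀, hk₀⟩ : ∃ k₀, k₀ = max (max k₁ k₂) 1 := ⟨_, rfl⟩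
  have hk₀' : ∀ k, k₀ ≤ k → Num k := fun k hk => hk₁ k (by omega)
  have hk₀r : 1 / (k₀ : ℝ) ≤ ε / 16 := by
    have e1 : (k₂ : ℝ) ≤ k₀ := by exact_mod_cast (by omega : k₂ ≤ k₀)
    have e2 : (16 : ℝ) / ε < k₀ := lt_of_lt_of_le hk₂ e1
    have e3 : (0 : ℝ) < k₀ := lt_trans (by positivity) e2
    rw [div_le_div_iff₀ e3 (by norm_num), one_mul]
    rw [div_lt_iff₀ hε] at e2
    linarith
  obtain ⟨Z₀, hZ₀⟩ := few hk₀'
  -- large scales
  have ev2 : ∀ᶠ q : ℕ in atTop, 1 / (2 : ℝ) ^ (q / 4 + 1) ≤ ε / 16 := by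
    have e1 : ∀ᶠ q : ℕ in atTop, (1 / 2 : ℝ) ^ q < ε / 16 :=
      (tendsto_pow_atTop_nhds_zero_of_lt_one (by norm_num) (by norm_num)).eventually_lt_const
        (by positivity)
    have e2 : Tendsto (fun q : ℕ => q / 4 + 1) atTop atTop :=
      (tendsto_add_atTop_nat 1).comp (Nat.tendsto_div_const_atTop (by norm_num))
    filter_upwards [e2.eventually e1] with q hq
    rw [one_div_pow] at hq
    exact hq.le
  have ev3 : ∀ᶠ q : ℕ in atTop, 3 / ((q / 10 : ℕ) : ℝ) ^ 7 ≤ ε / 16 := by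
    have e1 : Tendsto (fun k : ℕ => 3 / (k : ℝ) ^ 7) atTop (nhds 0) :=
      Tendsto.const_div_atTop ((tendsto_pow_atTop (by norm_num)).comp tendsto_natCast_atTop_atTop) 3
    have e2 : Tendsto (fun q : ℕ => q / 10) atTop atTop :=
      Nat.tendsto_div_const_atTop (by norm_num)
    filter_upwards [(e1.comp e2).eventually_lt_const (by positivity : (0 : ℝ) < ε / 16)] with q hq
    exact hq.le
  have ev4 : ∀ᶠ q : ℕ in atTop, Z₀ ≤ 2 ^ q / h := by
    have e1 : Tendsto (fun q : ℕ => (2 : ℝ) ^ q / h) atTop atTop :=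
      (tendsto_pow_atTop_atTop_of_one_lt (by norm_num)).atTop_div_const hh0
    exact e1.eventually_ge_atTop Z₀
  obtain ⟨q₀, hq₀⟩ := eventually_atTop.1 ((ev2.and ev3).and ev4)
  filter_upwards [eventually_ge_atTop (2 ^ (max q₀ (10 * k₀ + 41 * k₀ + 1000 * (h + 100))))]
    with N hN
  obtain ⟨q, hq⟩ : ∃ q, q = Nat.log 2 N := ⟨_, rfl⟩
  have hN0 : N ≠ 0 := by
    have : 0 < 2 ^ (max q₀ (10 * k₀ + 41 * k₀ + 1000 * (h + 100))) := by positivity
    omega
  have hq1 : 2 ^ q ≤ N := by rw [hq]; exact Nat.pow_log_le_self 2 hN0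
  have hq2 : N < 2 ^ (q + 1) := by rw [hq]; exact Nat.lt_pow_succ_log_self (by norm_num) N
  have hq3 : max q₀ (10 * k₀ + 41 * k₀ + 1000 * (h + 100)) ≤ q := by
    rw [hq]
    exact Nat.le_log_of_pow_le (by norm_num) hN
  have hq4 : q₀ ≤ q := le_trans (le_max_left _ _) hq3
  have hq5 : 10 * k₀ + 41 * k₀ + 1000 * (h + 100) ≤ q := le_trans (le_max_right _ _) hq3
  obtain ⟨⟨p2, p3⟩, p4⟩ := hq₀ q hq4
  have hqN : (2 : ℝ) ^ q ≤ N := by exact_mod_cast hq1
  have hqN2 : (N : ℝ) < 2 ^ (q + 1) := by exact_mod_cast hq2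
  have hN1 : (0 : ℝ) < N := lt_of_lt_of_le (by positivity) hqN
  obtain ⟨k, hk⟩ : ∃ k, k = q / 10 := ⟨_, rfl⟩
  have hkN : Num k := hk₀' k (by omega)
  have hk1 : (0 : ℝ) < k := by
    have := hkN.big
    exact_mod_cast (by omega : 0 < k)
  rw [← hk] at p3
  -- smallness below `Z = N / h`
  obtain ⟨k', hk'⟩ : ∃ k', k' = (q - h) / 41 := ⟨_, rfl⟩
  have hk'0 : k₀ ≤ k' := by omega
  have hZ1 : Z₀ ≤ (N : ℝ) / h := p4.trans (div_le_div_of_nonneg_right hqN hh0.le)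
  have hZ2 : (2 : ℝ) ^ (41 * k') ≤ (N : ℝ) / h := by
    rw [le_div_iff₀ hh0]
    have e1 : (h : ℝ) ≤ 2 ^ h := by exact_mod_cast Nat.lt_two_pow_self.le
    calc (2 : ℝ) ^ (41 * k') * h ≤ 2 ^ (41 * k') * 2 ^ h :=
          mul_le_mul_of_nonneg_left e1 (by positivity)
      _ = 2 ^ (41 * k' + h) := by rw [pow_add]
      _ ≤ 2 ^ q := pow_le_pow_right₀ (by norm_num) (by omega)
      _ ≤ N := hqN
  have hsm := hZ₀ ((N : ℝ) / h) hZ1 k' hk'0 hZ2
  have hbd : ∀ a ≤ q / 4, (((Od 1 ((N : ℝ) / 2 ^ a)).filter (fun n =>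
        Hit (goodV (II k) k k) (fun _ => B ((N : ℝ) / h)) n ∨
          ¬ Hit (goodV (II k) k k) (fun _ => Set.univ) n)).card : ℝ) ≤
          (1 / (k₀ : ℝ) + 3 / (k : ℝ) ^ 7) * (N / 2 ^ a) := by
    intro a ha
    have hX4 : (2 : ℝ) ^ (4 * k) ≤ (N : ℝ) / 2 ^ a := by
      rw [le_div_iff₀ (by positivity), ← pow_add]
      exact le_trans (pow_le_pow_right₀ (by norm_num) (by omega)) hqN
    have hX3 : (2 : ℝ) ^ (3 * k) ≤ (N : ℝ) / 2 ^ a :=
      le_trans (pow_le_pow_right₀ (by norm_num) (by omega)) hX4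
    have e1 := hit_le hkN hX4 (Z := (N : ℝ) / h) (ε := 1 / (k₀ : ℝ)) (by positivity) (by
      rw [div_le_one (by
        have : 0 < k₀ := by omega
        exact_mod_cast this)]
      have : 1 ≤ k₀ := by omega
      exact_mod_cast this) (fun y hy1 hy2 => by
        apply hsm y hy1
        have e2 : (N : ℝ) / 2 ^ a ≤ N := div_le_self hN1.le (one_le_pow₀ (by norm_num))
        have e3 : (2 : ℝ) ^ (q + 1) ≤ 2 ^ (40 * k') * 2 ^ (k / 3) := by
          rw [← pow_add]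
          exact pow_le_pow_right₀ (by norm_num) (by omega)
        have e4 : y * 2 ^ (k / 3) < 2 ^ (40 * k') * 2 ^ (k / 3) := by linarith
        exact lt_of_mul_lt_mul_right e4 (by positivity))
    have e2 := typical hkN hX3 (e := 1) (Or.inl rfl)
    rw [filter_or]
    have e3 : ((((Od 1 ((N : ℝ) / 2 ^ a)).filter (fun n =>
        Hit (goodV (II k) k k) (fun _ => B ((N : ℝ) / h)) n)) ∪
        ((Od 1 ((N : ℝ) / 2 ^ a)).filter (fun n =>
          ¬ Hit (goodV (II k) k k) (fun _ => Set.univ) n))).card : ℝ) ≤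
        (((Od 1 ((N : ℝ) / 2 ^ a)).filter (fun n =>
        Hit (goodV (II k) k k) (fun _ => B ((N : ℝ) / h)) n)).card : ℝ) +
        (((Od 1 ((N : ℝ) / 2 ^ a)).filter (fun n =>
          ¬ Hit (goodV (II k) k k) (fun _ => Set.univ) n)).card : ℝ) := by
      exact_mod_cast card_union_le _ _
    refine e3.trans ?_
    have e4 : (1 / (k₀ : ℝ) + 3 / (k : ℝ) ^ 7) * ((N : ℝ) / 2 ^ a) =
        1 / (k₀ : ℝ) * ((N : ℝ) / 2 ^ a) + 3 * ((N : ℝ) / 2 ^ a / (k : ℝ) ^ 7) := by ring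
    rw [e4]
    linarith
  have hfin := TXL_count_le (N := N) (k := k) (J := q / 2) (A := q / 4) (h := h)
    (c := 1 / (k₀ : ℝ) + 3 / (k : ℝ) ^ 7) (by omega) (by positivity) hbd
  have hfin' : (((Icc 1 N).filter fun n => Bdd n ∧ ∃ k, Nat.log 2 N / 2 < k ∧ n < T^[k] n).card : ℝ)
      ≤ N / h + N / 2 ^ (q / 4 + 1) + 2 * (1 / (k₀ : ℝ) + 3 / (k : ℝ) ^ 7) * N := by
    rw [← hq]
    refine le_trans (le_of_eq ?_) hfin
    have e0 : ((Icc 1 N).filter fun n => Bdd n ∧ ∃ k, q / 2 < k ∧ n < T^[k] n) =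
        (Icc 1 N).filter (fun n => TXLE (q / 2) n) := by
      refine Finset.ext fun n => ?_
      rw [mem_filter, mem_filter]
      exact Iff.rfl
    rw [e0]
  refine hfin'.trans ?_
  have f1 : (N : ℝ) / h ≤ ε / 16 * N := by
    calc (N : ℝ) / h = 1 / h * N := by ring
      _ ≤ ε / 16 * N := mul_le_mul_of_nonneg_right hh1 hN1.le
  have f2 : (N : ℝ) / 2 ^ (q / 4 + 1) ≤ ε / 16 * N := by
    calc (N : ℝ) / 2 ^ (q / 4 + 1) = 1 / 2 ^ (q / 4 + 1) * N := by ring
      _ ≤ ε / 16 * N := mul_le_mul_of_nonneg_right p2 hN1.le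
  have f5 : 2 * (1 / (k₀ : ℝ) + 3 / (k : ℝ) ^ 7) * N ≤ 2 * (ε / 16 + ε / 16) * N := by
    apply mul_le_mul_of_nonneg_right _ hN1.le
    linarith
  have f6 : 0 ≤ ε * N := by positivity
  linarith

end Pool.Agent.LIM
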