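import Pool.Agent.LIM.WU

set_option autoImplicit false

open Finset Filter Topology
open scoped Classical

namespace Pool.Agent.LIM

theorem thm_WL (h : St_DEN) : St_WL := by
  intro δ hδ
  obtain ⟨n, hn⟩ := h (Real.log 2 + δ) δ hδ
  refine ⟨n, ?_⟩
  intro f m L ε t hf hnn heq hε hL hm hup ht hlo u hu1 hu2
  have hLt : L ≤ t := by
    have : (1 : ℝ) ≤ (3 / 2) ^ n := one_le_pow₀ (by norm_num)
    nlinarith
  have ht0 : 0 < t := by linarith
  have hu0 : 0 < u := by linarith
  have hx1 : -Real.log 2 ≤ Real.log (u / t) := by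
    rw [← Real.log_inv]
    apply Real.log_le_log (by norm_num)
    rw [le_div_iff₀ ht0]; linarith
  have hx2 : Real.log (u / t) ≤ Real.log 2 := by
    apply Real.log_le_log (by positivity)
    rw [div_le_iff₀ ht0]; linarith
  have hx : |Real.log (u / t) - δ| ≤ Real.log 2 + δ := by
    rw [abs_le]
    constructor <;> linarith
  obtain ⟨a, b, hab, h1, h2⟩ := hn _ hx
  rw [sub_add_cancel] at h2
  set v : ℝ := t * 2 ^ a * (2 / 3) ^ b with hv
  have hve := WU_point t a b
  rw [← hv] at hve
  have hut : t * Real.exp (Real.log (u / t)) = u := by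
    rw [Real.exp_log (by positivity)]; field_simp
  have hvu : v ≤ u := by
    rw [hve]
    calc t * Real.exp (a * Real.log 2 - b * Real.log (3 / 2)) ≤ t * Real.exp (Real.log (u / t)) :=
          mul_le_mul_of_nonneg_left (Real.exp_le_exp.2 h2) ht0.le
      _ = u := hut
  have huv : u ≤ Real.exp δ * v := by
    rw [hve]
    calc u = Real.exp δ * (t * Real.exp (Real.log (u / t) - δ)) := by
          rw [Real.exp_sub]
          have : Real.exp δ ≠ 0 := (Real.exp_pos δ).ne'
          rw [← mul_div_assoc, hut]
          field_simp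
      _ ≤ _ := by
          apply mul_le_mul_of_nonneg_left _ (Real.exp_pos δ).le
          exact mul_le_mul_of_nonneg_left (Real.exp_le_exp.2 h1) ht0.le
  have hw := WU_walk (fun l => -(l * f l)) (-m) L ε t n (fun l hl => by
    rw [heq l hl]; ring) hε hL (fun l hl => by
      have := hup l hl
      linarith) ht (by linarith) a b hab
  rw [← hv] at hw
  have hv0 : 0 < v := by rw [hv]; positivity
  have hfv := hnn v
  have hfu := hf v u hvu
  have hexp : 0 < Real.exp δ := Real.exp_pos _
  calc u * f u ≤ u * f v := mul_le_mul_of_nonneg_left hfu hu0.le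
    _ ≤ (Real.exp δ * v) * f v := mul_le_mul_of_nonneg_right huv hfv
    _ = Real.exp δ * (v * f v) := by ring
    _ ≤ Real.exp δ * (m + 2 * 4 ^ n * ε) :=
        mul_le_mul_of_nonneg_left (by linarith) hexp.le

end Pool.Agent.LIM
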