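import Pool.Agent.LIM.StA

set_option autoImplicit false

open Finset Filter Topology
open scoped Classical

namespace Pool.Agent.LIM

/-- the walk along doublings and steps `2/3` (for a general function) -/
theorem WU_walk (H : ℝ → ℝ) (M L ε t : ℝ) (n : ℕ)
    (hH : ∀ l, 1 < l → H l = 1 / 4 * H (2 * l) + 3 / 4 * H (2 / 3 * l)) (hε : 0 < ε) (hL : 2 ≤ L)
    (hup : ∀ l, L ≤ l → H l ≤ M + ε) (ht : L * (3 / 2) ^ n ≤ t) (hlo : M - ε ≤ H t)
    (a b : ℕ) (hab : a + b ≤ n) : M - 2 * 4 ^ n * ε ≤ H (t * 2 ^ a * (2 / 3) ^ b) := by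
  have hLt : L ≤ t := by
    have : (1 : ℝ) ≤ (3 / 2) ^ n := one_le_pow₀ (by norm_num)
    nlinarith
  have ht0 : 0 < t := by linarith
  have hge : ∀ (c d : ℕ), d ≤ n → L ≤ t * 2 ^ c * (2 / 3) ^ d := by
    intro c d hd
    have h1 : (1 : ℝ) ≤ 2 ^ c := one_le_pow₀ (by norm_num)
    have h2 : (0 : ℝ) < (2 / 3) ^ d := by positivity
    have h3 : L ≤ t * (2 / 3) ^ d := by
      have h4 : ((3 : ℝ) / 2) ^ n * (2 / 3) ^ d = (3 / 2) ^ (n - d) := by
        have : n = (n - d) + d := by omega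
        conv_lhs => rw [this, pow_add, mul_assoc, ← mul_pow]
        norm_num
      have h5 : (1 : ℝ) ≤ (3 / 2) ^ (n - d) := one_le_pow₀ (by norm_num)
      calc L ≤ L * (3 / 2) ^ (n - d) := by nlinarith
        _ = L * (3 / 2) ^ n * (2 / 3) ^ d := by rw [mul_assoc, h4]
        _ ≤ t * (2 / 3) ^ d := mul_le_mul_of_nonneg_right ht h2.le
    calc L ≤ t * (2 / 3) ^ d := h3
      _ ≤ t * 2 ^ c * (2 / 3) ^ d := by
        have : t * (2 / 3) ^ d ≤ (t * (2 / 3) ^ d) * 2 ^ c := by
          have : 0 < t * (2 / 3) ^ d := by positivity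
          nlinarith
        linarith [this, mul_right_comm t ((2 / 3 : ℝ) ^ d) (2 ^ c)]
  have hA : ∀ c : ℕ, c ≤ n → M - (2 * 4 ^ c - 1) * ε ≤ H (t * 2 ^ c) := by
    intro c
    induction c with
    | zero => intro _; simp only [pow_zero, mul_one]; linarith
    | succ c ih =>
      intro hc
      have h1 := ih (by omega)
      have h2 := hge c 0 (by omega)
      rw [pow_zero, mul_one] at h2
      have h3 := hge c 1 (by omega)
      rw [pow_one] at h3
      have h4 := hH (t * 2 ^ c) (by linarith)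
      have h5 : 2 / 3 * (t * 2 ^ c) = t * 2 ^ c * (2 / 3) := by ring
      have h6 : 2 * (t * 2 ^ c) = t * 2 ^ (c + 1) := by ring
      rw [h5, h6] at h4
      have h7 := hup _ h3
      have h8 : (4 : ℝ) ^ (c + 1) = 4 * 4 ^ c := by ring
      rw [h8]
      nlinarith
  have hB : ∀ d : ℕ, a + d ≤ n → M - (2 * 4 ^ (a + d) - 1) * ε ≤ H (t * 2 ^ a * (2 / 3) ^ d) := by
    intro d
    induction d with
    | zero =>
      intro h
      simp only [pow_zero, mul_one, add_zero]
      exact hA a (by omega)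
    | succ d ih =>
      intro hd
      have h1 := ih (by omega)
      have h2 := hge a d (by omega)
      have h3 := hge (a + 1) d (by omega)
      have h4 := hH (t * 2 ^ a * (2 / 3) ^ d) (by linarith)
      have h5 : 2 / 3 * (t * 2 ^ a * (2 / 3) ^ d) = t * 2 ^ a * (2 / 3) ^ (d + 1) := by ring
      have h6 : 2 * (t * 2 ^ a * (2 / 3) ^ d) = t * 2 ^ (a + 1) * (2 / 3) ^ d := by ring
      rw [h5, h6] at h4
      have h7 := hup _ h3
      have h8 : (4 : ℝ) ^ (a + (d + 1)) = 4 * 4 ^ (a + d) := by ring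
      have h9 : (0 : ℝ) < 4 ^ (a + d) := by positivity
      rw [h8]
      nlinarith [mul_pos h9 hε]
  have h1 := hB b hab
  have h2 : (4 : ℝ) ^ (a + b) ≤ 4 ^ n := pow_le_pow_right₀ (by norm_num) hab
  nlinarith

/-- the point `t 2^a (2/3)^b` in exponential form -/
theorem WU_point (t : ℝ) (a b : ℕ) : t * 2 ^ a * (2 / 3) ^ b =
    t * Real.exp (a * Real.log 2 - b * Real.log (3 / 2)) := by
  have h1 : Real.exp (a * Real.log 2) = 2 ^ a := by
    rw [mul_comm, Real.exp_mul, Real.exp_log (by norm_num), Real.rpow_natCast]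
  have h2 : Real.exp (b * Real.log (3 / 2)) = (3 / 2) ^ b := by
    rw [mul_comm, Real.exp_mul, Real.exp_log (by norm_num), Real.rpow_natCast]
  rw [Real.exp_sub, h1, h2, mul_assoc]
  congr 1
  have h3 : ((2 : ℝ) / 3) ^ b * (3 / 2) ^ b = 1 := by
    rw [← mul_pow]; norm_num
  rw [eq_div_iff (by positivity), mul_assoc, h3, mul_one]

theorem thm_WU (h : St_DEN) : St_WU := by
  intro δ hδ
  obtain ⟨n, hn⟩ := h (Real.log 2) δ hδ
  refine ⟨n, ?_⟩
  intro f M L ε t hf hnn heq hε hL hup ht hlo u hu1 hu2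
  have hLt : L ≤ t := by
    have : (1 : ℝ) ≤ (3 / 2) ^ n := one_le_pow₀ (by norm_num)
    nlinarith
  have ht0 : 0 < t := by linarith
  have hu0 : 0 < u := by linarith
  have hx : |Real.log (u / t)| ≤ Real.log 2 := by
    rw [abs_le]
    constructor
    · rw [← Real.log_inv]
      apply Real.log_le_log (by norm_num)
      rw [le_div_iff₀ ht0]; linarith
    · apply Real.log_le_log (by positivity)
      rw [div_le_iff₀ ht0]; linarith
  obtain ⟨a, b, hab, h1, h2⟩ := hn _ hx
  set v : ℝ := t * 2 ^ a * (2 / 3) ^ b with hv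
  have hve := WU_point t a b
  rw [← hv] at hve
  have hut : t * Real.exp (Real.log (u / t)) = u := by
    rw [Real.exp_log (by positivity)]; field_simp
  have huv : u ≤ v := by
    rw [hve, ← hut]
    exact mul_le_mul_of_nonneg_left (Real.exp_le_exp.2 h1) ht0.le
  have hvu : v ≤ u * Real.exp δ := by
    rw [hve]
    calc t * Real.exp (a * Real.log 2 - b * Real.log (3 / 2)) ≤
        t * Real.exp (Real.log (u / t) + δ) :=
          mul_le_mul_of_nonneg_left (Real.exp_le_exp.2 h2) ht0.le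
      _ = u * Real.exp δ := by rw [Real.exp_add, ← mul_assoc, hut]
  have hw := WU_walk (fun l => l * f l) M L ε t n (fun l hl => by
    rw [heq l hl]; ring) hε hL hup ht hlo a b hab
  have hv0 : 0 < v := lt_of_lt_of_le hu0 huv
  have hfv := hnn v
  have hfu := hf u v huv
  have hexp : 0 < Real.exp (-δ) := Real.exp_pos _
  have h3 : Real.exp (-δ) * v ≤ u := by
    rw [Real.exp_neg, inv_mul_le_iff₀ (Real.exp_pos _)]
    linarith
  calc Real.exp (-δ) * (M - 2 * 4 ^ n * ε) ≤ Real.exp (-δ) * (v * f v) :=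
        mul_le_mul_of_nonneg_left hw hexp.le
    _ = (Real.exp (-δ) * v) * f v := by ring
    _ ≤ u * f v := mul_le_mul_of_nonneg_right h3 hfv
    _ ≤ u * f u := mul_le_mul_of_nonneg_left hfu hu0.le

end Pool.Agent.LIM
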