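import Pool.Agent.LIM.FinB
import Pool.Agent.LIM.FB
import Pool.Agent.LIM.FI
import Pool.Agent.LIM.GW
import Pool.Agent.LIM.GI
import Pool.Agent.LIM.PHI
import Pool.Agent.LIM.DEN
import Pool.Agent.LIM.WU
import Pool.Agent.LIM.WL
import Pool.Agent.LIM.REN
import Pool.Agent.LIM.KAP
import Pool.Agent.LIM.EAR
import Pool.Agent.LIM.LBD
import Pool.Agent.LIM.PER
import Pool.Agent.LIM.CMP
import Pool.Agent.LIM.MID
import Pool.Agent.LIM.TXL
import Pool.Agent.LIM.MOD
import Pool.Agent.LIM.INV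
import Pool.Agent.LIM.HOR
import Pool.Agent.LIM.TAU
import Pool.Agent.LIM.LCU
import Pool.Agent.LIM.LCL
import Pool.Agent.LIM.LOC
import Pool.Agent.LIM.DEC
import Pool.Agent.LIM.MAS
import Pool.Agent.LIM.BLK
import Pool.Agent.LIM.DSC
import Pool.Agent.LIM.LTB
import Pool.Agent.LIM.LTX
import Pool.Agent.Collatz3.LTMain

/-!
# The limit law of the maximum excursion of the `3x+1` map: all statements, without hypotheses
-/

set_option autoImplicit false

namespace Pool.Agent.LIM

theorem all_FI : St_FI := thm_FI thm_FB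

theorem all_GI : St_GI := thm_GI thm_FB all_FI thm_GW

theorem all_REN : St_REN := thm_REN thm_PHI (thm_WU thm_DEN) (thm_WL thm_DEN)

theorem all_KAP : St_KAP := thm_KAP all_FI all_GI all_REN

theorem all_EAR : St_EAR := thm_EAR thm_FB

theorem all_LBD : St_LBD := thm_LBD thm_FB

theorem all_MID : St_MID := thm_MID thm_FB all_LBD

theorem all_MOD : St_MOD := thm_MOD (thm_PER all_EAR)

theorem all_INV : St_INV := thm_INV thm_FB all_GI thm_CMP all_MID thm_TXL all_MOD

theorem all_LAT : St_LAT := thm_LAT Pool.Agent.Collatz3.LT.theoremS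
  (thm_LTB (thm_BLK (thm_MAS thm_DEC)) (thm_DSC thm_FB)) thm_LTX

theorem all_HOR : St_HOR := thm_HOR thm_FB all_GI all_EAR thm_CMP all_MID all_LAT

theorem all_ASY : St_ASY := thm_ASY all_KAP thm_TAU
  (thm_LOC all_LAT (thm_LCU thm_FB all_GI all_KAP all_EAR)
    (thm_LCL thm_FB all_GI all_KAP all_EAR thm_CMP))

end Pool.Agent.LIM
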