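import Pool.Agent.Collatz3.TXDoob

/-!
# The limit law of the maximum excursion of the `3x+1` map: definitions, part A
-/

set_option autoImplicit false

open Finset Filter Topology
open scoped Classical

namespace Pool.Agent.LIM

open Pool.Agent.Collatz3.TX (T mul)

/-- The probability that the multiplier walk (start `1`, steps `1/2` and `3/2` with probability
`1/2` each) is at least `l` at some time `0 ≤ k ≤ J`. -/
noncomputable def F : ℕ → ℝ → ℝ
  | 0, l => if l ≤ 1 then 1 else 0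
  | J + 1, l => if l ≤ 1 then 1 else (F J (2 * l) + F J (2 / 3 * l)) / 2

/-- The probability that the multiplier walk is at least `l` at some time `1 ≤ k ≤ J + 1`. -/
noncomputable def G1 (J : ℕ) (l : ℝ) : ℝ := (F J (2 * l) + F J (2 / 3 * l)) / 2

/-- The limit of `F J l`. -/
noncomputable def Fi (l : ℝ) : ℝ := ⨆ J : ℕ, F J l

/-- The number of ones among the first `k` letters of a word of length `K`. -/
def ones (k : ℕ) {K : ℕ} (w : Fin K → Bool) : ℕ :=
  (univ.filter fun i : Fin K => (i : ℕ) < k ∧ w i = true).card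

/-- The share of the words `w` of length `K` with `l * 2 ^ k ≤ 3 ^ (number of ones among the first
`k` letters)` for some `1 ≤ k ≤ K`. -/
noncomputable def share (K : ℕ) (l : ℝ) : ℝ :=
  ((univ.filter fun w : Fin K → Bool =>
    ∃ k, 1 ≤ k ∧ k ≤ K ∧ l * 2 ^ k ≤ 3 ^ ones k w).card : ℝ) / 2 ^ K

/-- `G l`: the probability that a fair coin satisfies `l * 2 ^ k ≤ 3 ^ (ones among k tosses)` for
some `k ≥ 1`. -/
noncomputable def G (l : ℝ) : ℝ := ⨆ K : ℕ, share K l

/-- The rate of the fractional moment of order `1/2`. -/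
noncomputable def rho : ℝ := (1 + Real.sqrt 3) / (2 * Real.sqrt 2)

/-- The constant of the renewal theorem. -/
noncomputable def kappa : ℝ := (1 - ∫ u in (1 : ℝ)..2, G u) / Real.log (27 / 16)

/-- The set `A` of positive integers has natural density `d`. -/
def HasDensity (A : Set ℕ) (d : ℝ) : Prop :=
  Tendsto (fun N : ℕ => (Set.ncard {n : ℕ | 1 ≤ n ∧ n ≤ N ∧ n ∈ A} : ℝ) / N) atTop (𝓝 d)

/-- The trajectory of `n` is bounded. -/
def Bdd (n : ℕ) : Prop := ∃ M : ℕ, ∀ j : ℕ, T^[j] n ≤ M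

/-- The bound for the horizon. -/
noncomputable def Hz : ℝ := 2 / Real.log (4 / 3) + 1 / Real.log (3 / 2)

/-- The number of `1 ≤ n ≤ x` with `T^k n ≥ n ^ c` for some `1 ≤ k ≤ C log n`. -/
noncomputable def NX (C c x : ℝ) : ℝ :=
  (Set.ncard {n : ℕ | 1 ≤ n ∧ (n : ℝ) ≤ x ∧ ∃ k : ℕ, 1 ≤ k ∧ (k : ℝ) ≤ C * Real.log n ∧
    (n : ℝ) ^ c ≤ ((T^[k] n : ℕ) : ℝ)} : ℝ)

end Pool.Agent.LIM
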