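import Pool.Agent.Collatz3.EXMult

/-!
# The limit law of the maximum excursion of the `3x+1` map: definitions, part B (blocks)
-/

set_option autoImplicit false

open Finset
open scoped Classical

namespace Pool.Agent.LIM

open Pool.Agent.Collatz3 (T3)

/-- Elements of a dyadic block which are at most `Z'` at time `q` and at least `Y` at some time
`k`, `q ≤ k ≤ K`. -/
noncomputable def Lb (i K q : ℕ) (Z' Y : ℝ) : Finset ℕ :=
  (Pool.Agent.Collatz3.EX.B i).filter fun n => ∃ k, q ≤ k ∧ k ≤ K ∧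
    ((T3^[q] n : ℕ) : ℝ) ≤ Z' ∧ Y ≤ ((T3^[k] n : ℕ) : ℝ)

end Pool.Agent.LIM
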