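import Pool.Agent.LIM.StA
import Pool.Agent.Collatz3.DNPred
import Pool.Agent.Collatz3.TXCount
import Pool.Agent.Collatz3.PDGrand

/-!
# Limit law of the maximum excursion of the `3x+1` map: assembly of part A
-/

set_option autoImplicit false

open Finset Filter Topology

namespace Pool.Agent.LIM

open Pool.Agent.Collatz3.TX (T T_cast iter_cast)
open Pool.Agent.Collatz3.DN

/-- The maximum excursion `t(n) = sup_{k ≥ 1} T^[k] n`, with `⊤` for infinity. -/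
noncomputable def FinA_t (n : ℕ) : ℕ∞ := ⨆ k : ℕ, ⨆ _ : 1 ≤ k, ((T^[k] n : ℕ) : ℕ∞)

theorem FinA_le_t {n k : ℕ} (hk : 1 ≤ k) : ((T^[k] n : ℕ) : ℕ∞) ≤ FinA_t n :=
  le_iSup₂_of_le (f := fun (k : ℕ) (_ : 1 ≤ k) => ((T^[k] n : ℕ) : ℕ∞)) k hk le_rfl

theorem FinA_t_le {n m : ℕ} (h : ∀ k, 1 ≤ k → T^[k] n ≤ m) : FinA_t n ≤ m :=
  iSup₂_le fun k hk => by exact_mod_cast h k hk

theorem FinA_t_lt_top {n : ℕ} : FinA_t n < ⊤ ↔ Bdd n := by
  constructor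
  · intro h
    obtain ⟨m, hm⟩ := ENat.ne_top_iff_exists.1 h.ne
    refine ⟨max n m, fun j => ?_⟩
    rcases Nat.eq_zero_or_pos j with h0 | h0
    · rw [h0]
      exact le_max_left _ _
    · have h1 := FinA_le_t (n := n) (k := j) h0
      rw [← hm] at h1
      exact le_trans (by exact_mod_cast h1) (le_max_right _ _)
  · rintro ⟨M, hM⟩
    exact lt_of_le_of_lt (FinA_t_le fun k _ => hM k) (ENat.natCast_lt_top M)

/-- Exceeding `x` at some time `k ≥ 1`. -/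
theorem FinA_exceed_iff {n : ℕ} (hb : Bdd n) {x : ℝ} (hx0 : 0 ≤ x) :
    (∃ m : ℕ, FinA_t n = m ∧ x < m) ↔ ∃ k, 1 ≤ k ∧ x < ((T^[k] n : ℕ) : ℝ) := by
  constructor
  · rintro ⟨m, h, hx⟩
    by_contra hcon
    push Not at hcon
    have h1 : FinA_t n ≤ (⌊x⌋₊ : ℕ) := FinA_t_le fun k hk => Nat.le_floor (hcon k hk)
    rw [h] at h1
    have h2 : m ≤ ⌊x⌋₊ := by exact_mod_cast h1
    have h3 : (m : ℝ) ≤ ⌊x⌋₊ := by exact_mod_cast h2
    have h4 := Nat.floor_le hx0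
    linarith
  · rintro ⟨k, hk, hx⟩
    obtain ⟨m, hm⟩ := ENat.ne_top_iff_exists.1 (FinA_t_lt_top.2 hb).ne
    refine ⟨m, hm.symm, lt_of_lt_of_le hx ?_⟩
    have h1 := FinA_le_t (n := n) hk
    rw [← hm] at h1
    exact_mod_cast h1

theorem FinA_count_finite (A : Set ℕ) (N : ℕ) : {n : ℕ | 1 ≤ n ∧ n ≤ N ∧ n ∈ A}.Finite :=
  (Set.finite_Iic N).subset fun _ h => h.2.1

theorem FinA_count_mono {A B : Set ℕ} (h : A ⊆ B) (N : ℕ) :
    Set.ncard {n : ℕ | 1 ≤ n ∧ n ≤ N ∧ n ∈ A} ≤ Set.ncard {n : ℕ | 1 ≤ n ∧ n ≤ N ∧ n ∈ B} :=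
  Set.ncard_le_ncard (fun _ hn => ⟨hn.1, hn.2.1, h hn.2.2⟩) (FinA_count_finite B N)

/-- The density of a difference. -/
theorem FinA_diff {A B : Set ℕ} {a b : ℝ} (hA : HasDensity A a) (hB : HasDensity B b)
    (h : B ⊆ A) : HasDensity {n | n ∈ A ∧ n ∉ B} (a - b) := by
  unfold HasDensity at hA hB ⊢
  refine (hA.sub hB).congr fun N => ?_
  rw [← sub_div]
  congr 1
  have h1 : {n : ℕ | 1 ≤ n ∧ n ≤ N ∧ n ∈ A} =
      {n : ℕ | 1 ≤ n ∧ n ≤ N ∧ n ∈ B} ∪ {n : ℕ | 1 ≤ n ∧ n ≤ N ∧ n ∈ {n | n ∈ A ∧ n ∉ B}} := by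
    ext n
    simp only [Set.mem_ofPred_eq, Set.mem_union]
    constructor
    · rintro ⟨h1, h2, h3⟩
      by_cases h4 : n ∈ B
      · exact Or.inl ⟨h1, h2, h4⟩
      · exact Or.inr ⟨h1, h2, h3, h4⟩
    · rintro (⟨h1, h2, h3⟩ | ⟨h1, h2, h3, -⟩)
      · exact ⟨h1, h2, h h3⟩
      · exact ⟨h1, h2, h3⟩
  have h2 : Disjoint {n : ℕ | 1 ≤ n ∧ n ≤ N ∧ n ∈ B}
      {n : ℕ | 1 ≤ n ∧ n ≤ N ∧ n ∈ {n | n ∈ A ∧ n ∉ B}} := by
    rw [Set.disjoint_left]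
    rintro n ⟨-, -, h1⟩ ⟨-, -, -, h2⟩
    exact h2 h1
  rw [h1, Set.ncard_union_eq h2 (FinA_count_finite _ _) (FinA_count_finite _ _)]
  push_cast
  ring

/-- Densities of invariant sets of positive integers exist. -/
theorem FinA_exists_density {A : Set ℕ} (hA : ∀ n, 1 ≤ n → (T n ∈ A ↔ n ∈ A)) :
    ∃ d : ℝ, HasDensity A d := by
  obtain ⟨S, hS⟩ : ∃ S : Set ℤ, S = {z : ℤ | 0 < z ∧ z.toNat ∈ A} := ⟨_, rfl⟩
  have hinv : EvInv 0 S := by
    intro z hz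
    rcases lt_or_gt_of_ne (show z ≠ 0 by rintro rfl; simp at hz) with h0 | h0
    · have h1 : ¬ 0 < Pool.Agent.Helper14.T z := by
        unfold Pool.Agent.Helper14.T
        split_ifs <;> omega
      rw [hS]
      constructor
      · intro h; exact absurd h.1 h1
      · intro h
        have := h.1
        omega
    · obtain ⟨n, rfl⟩ := Int.eq_ofNat_of_zero_le h0.le
      have hn : 1 ≤ n := by exact_mod_cast h0
      rw [T_cast]
      have hT : 0 < T n := by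
        unfold Pool.Agent.Collatz3.TX.T
        split_ifs <;> omega
      rw [hS]
      simp only [Set.mem_ofPred_eq, Int.toNat_natCast]
      constructor
      · rintro ⟨-, h⟩
        exact ⟨h0, (hA n hn).1 h⟩
      · rintro ⟨-, h⟩
        exact ⟨by exact_mod_cast hT, (hA n hn).2 h⟩
  obtain ⟨d, hd⟩ := exists_dens windowLowerB (windowDens_of slowEv) (σ := 1) (by norm_num) hinv
  refine ⟨d, ?_⟩
  unfold HasDensity
  refine (hd.comp tendsto_natCast_atTop_atTop).congr fun N => ?_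
  simp only [Function.comp_apply, D]
  congr 3
  ext n
  rw [hS]
  simp only [one_mul, Set.mem_ofPred_eq, Int.toNat_natCast, Nat.cast_le, Nat.cast_pos]
  constructor
  · rintro ⟨h1, h2, h3⟩
    exact ⟨h2, h1, h3⟩
  · rintro ⟨h1, h2, h3⟩
    exact ⟨h2, h1, h3⟩

theorem FinA_bdd_step {n : ℕ} : Bdd (T n) ↔ Bdd n := by
  constructor
  · rintro ⟨M, hM⟩
    refine ⟨max n M, fun j => ?_⟩
    rcases j with _ | j
    · exact le_max_left _ _
    · rw [Function.iterate_succ_apply]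
      exact (hM j).trans (le_max_right _ _)
  · rintro ⟨M, hM⟩
    refine ⟨M, fun j => ?_⟩
    rw [← Function.iterate_succ_apply]
    exact hM (j + 1)

theorem FinA_one_cycle : ∀ j : ℕ, T^[j] 1 = 1 ∨ T^[j] 1 = 2 := by
  intro j
  induction j with
  | zero => left; rfl
  | succ j ih =>
    rw [Function.iterate_succ_apply']
    rcases ih with h | h
    · right; rw [h]; rfl
    · left; rw [h]; rfl

theorem FinA_reach_step {n : ℕ} : (∃ k, T^[k] (T n) = 1) ↔ ∃ k, T^[k] n = 1 := by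
  constructor
  · rintro ⟨k, hk⟩
    exact ⟨k + 1, by rw [Function.iterate_succ_apply]; exact hk⟩
  · rintro ⟨k, hk⟩
    rcases k with _ | k
    · refine ⟨1, ?_⟩
      have h1 : n = 1 := hk
      rw [h1]
      rfl
    · exact ⟨k, by rw [← Function.iterate_succ_apply]; exact hk⟩

theorem FinA_bdd_of_reach {n : ℕ} (h : ∃ k, T^[k] n = 1) : Bdd n := by
  obtain ⟨k, hk⟩ := h
  have h1 : ∀ k n, Bdd (T^[k] n) → Bdd n := by
    intro k
    induction k with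
    | zero => intro n h; exact h
    | succ k ih =>
      intro n h
      rw [Function.iterate_succ_apply] at h
      exact FinA_bdd_step.1 (ih _ h)
  apply h1 k n
  rw [hk]
  refine ⟨2, fun j => ?_⟩
  rcases FinA_one_cycle j with h | h <;> rw [h]
  norm_num

/-- The integers that reach `1` have positive lower density. -/
theorem FinA_reach_pos : ∃ c : ℝ, 0 < c ∧ ∀ N : ℕ, 1 ≤ N →
    c * N ≤ (Set.ncard {n : ℕ | 1 ≤ n ∧ n ≤ N ∧ n ∈ {n : ℕ | ∃ k, T^[k] n = 1}} : ℝ) := by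
  obtain ⟨c, hc, h⟩ := Pool.Agent.Collatz3.PD.back_density
  refine ⟨c, hc, fun N hN => ?_⟩
  have h1 := h 1 (by norm_num) N (by exact_mod_cast hN)
  refine h1.trans ?_
  have h2 : (Pool.Agent.Helper14.Back 1 ((N : ℝ) * |((1 : ℤ) : ℝ)|)).ncard ≤
      Set.ncard {n : ℕ | 1 ≤ n ∧ n ≤ N ∧ n ∈ {n : ℕ | ∃ k, T^[k] n = 1}} := by
    apply Set.ncard_le_ncard_of_injOn (fun z : ℤ => z.toNat) _ _ (FinA_count_finite _ _)
    · rintro z ⟨h3, h4, k, h5⟩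
      have hz : 0 < z := by linarith
      obtain ⟨n, rfl⟩ := Int.eq_ofNat_of_zero_le hz.le
      refine ⟨?_, ?_, k, ?_⟩
      · simp only [Int.toNat_natCast]
        exact_mod_cast hz
      · simp only [Int.toNat_natCast]
        rw [Int.cast_one, abs_one, mul_one, Int.cast_natCast, Nat.abs_cast] at h4
        exact_mod_cast h4
      · simp only [Int.toNat_natCast]
        rw [iter_cast] at h5
        exact_mod_cast h5
    · rintro z ⟨h3, -, -⟩ z' ⟨h3', -, -⟩ hzz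
      simp only at hzz
      omega
  exact_mod_cast h2

/-- The law on an invariant set of bounded trajectories, in terms of `t`. -/
theorem FinA_law (hI : St_INV) {S : Set ℕ} {d : ℝ} (hS : ∀ n, 1 ≤ n → (T n ∈ S ↔ n ∈ S))
    (hd : HasDensity S d) (hb : ∀ n ∈ S, Bdd n) {l : ℝ} (hl : 1 ≤ l) :
    HasDensity {n | n ∈ S ∧ ∃ m : ℕ, FinA_t n = m ∧ l * n < m} (d * G l) ∧
    HasDensity {n | n ∈ S ∧ ∃ m : ℕ, FinA_t n = m ∧ (m : ℝ) ≤ l * n} (d * (1 - G l)) := by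
  have h1 := hI S d hS hd hb l hl
  have e1 : {n : ℕ | n ∈ S ∧ ∃ m : ℕ, FinA_t n = m ∧ l * n < m} =
      {n : ℕ | n ∈ S ∧ ∃ k, 1 ≤ k ∧ l * n < ((T^[k] n : ℕ) : ℝ)} := by
    ext n
    simp only [Set.mem_ofPred_eq]
    constructor
    · rintro ⟨h2, h3⟩
      exact ⟨h2, (FinA_exceed_iff (hb n h2) (by positivity)).1 h3⟩
    · rintro ⟨h2, h3⟩
      exact ⟨h2, (FinA_exceed_iff (hb n h2) (by positivity)).2 h3⟩
  have h2 : HasDensity {n | n ∈ S ∧ ∃ m : ℕ, FinA_t n = m ∧ l * n < m} (d * G l) := by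
    rw [e1]
    exact h1
  refine ⟨h2, ?_⟩
  have h3 := FinA_diff hd h2 fun n hn => hn.1
  have e2 : {n | n ∈ S ∧ n ∉ {n | n ∈ S ∧ ∃ m : ℕ, FinA_t n = m ∧ l * n < m}} =
      {n | n ∈ S ∧ ∃ m : ℕ, FinA_t n = m ∧ (m : ℝ) ≤ l * n} := by
    ext n
    simp only [Set.mem_ofPred_eq]
    constructor
    · rintro ⟨h4, h5⟩
      refine ⟨h4, ?_⟩
      obtain ⟨m, hm⟩ := ENat.ne_top_iff_exists.1 (FinA_t_lt_top.2 (hb n h4)).ne
      refine ⟨m, hm.symm, ?_⟩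
      by_contra hcon
      push Not at hcon
      exact h5 ⟨h4, m, hm.symm, hcon⟩
    · rintro ⟨h4, m, hm, hle⟩
      refine ⟨h4, ?_⟩
      rintro ⟨-, m', hm', hlt⟩
      rw [hm] at hm'
      have : m = m' := by exact_mod_cast hm'
      rw [this] at hle
      linarith
  rw [e2] at h3
  have e3 : d - d * G l = d * (1 - G l) := by ring
  rw [e3] at h3
  exact h3

/-- **The limit law.** -/
theorem FinA_main (hI : St_INV) (hH : St_HOR) (hG : St_GI) (hK : St_KAP) :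
    ∃ D₁ D : ℝ, 0 < D₁ ∧ D₁ ≤ D ∧
    HasDensity {n : ℕ | ∃ k, T^[k] n = 1} D₁ ∧ HasDensity {n : ℕ | FinA_t n < ⊤} D ∧
    (∀ l : ℝ, 1 ≤ l →
      HasDensity {n : ℕ | ∃ m : ℕ, FinA_t n = m ∧ l * n < m} (D * G l) ∧
      HasDensity {n : ℕ | ∃ m : ℕ, FinA_t n = m ∧ (m : ℝ) ≤ l * n} (D * (1 - G l)) ∧
      HasDensity {n : ℕ | (∃ k, T^[k] n = 1) ∧ ∃ m : ℕ, FinA_t n = m ∧ l * n < m} (D₁ * G l) ∧
      HasDensity {n : ℕ | (∃ k, T^[k] n = 1) ∧ ∃ m : ℕ, FinA_t n = m ∧ (m : ℝ) ≤ l * n}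
        (D₁ * (1 - G l)) ∧
      (∀ C : ℝ, 0 < C → C < 2 / Real.log (4 / 3) + 1 / Real.log (3 / 2) →
        HasDensity {n : ℕ | ∃ k : ℕ, 1 ≤ k ∧ (k : ℝ) ≤ C * Real.log n ∧
          l * n < ((T^[k] n : ℕ) : ℝ)} (G l)) ∧
      2 / (3 * l) ≤ G l ∧ G l ≤ 1 / l) ∧
    Tendsto (fun l : ℝ => l * G l) atTop (𝓝 kappa) ∧ 2 / 3 ≤ kappa ∧ kappa ≤ 1 := by
  have i1 : ∀ n, 1 ≤ n → (T n ∈ {n : ℕ | ∃ k, T^[k] n = 1} ↔ n ∈ {n : ℕ | ∃ k, T^[k] n = 1}) :=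
    fun n _ => FinA_reach_step
  have i2 : ∀ n, 1 ≤ n → (T n ∈ {n : ℕ | FinA_t n < ⊤} ↔ n ∈ {n : ℕ | FinA_t n < ⊤}) :=
    fun n _ => by
      simp only [Set.mem_ofPred_eq, FinA_t_lt_top]
      exact FinA_bdd_step
  obtain ⟨D₁, hD₁⟩ := FinA_exists_density i1
  obtain ⟨D, hD⟩ := FinA_exists_density i2
  have hsub : {n : ℕ | ∃ k, T^[k] n = 1} ⊆ {n : ℕ | FinA_t n < ⊤} := fun n hn =>
    FinA_t_lt_top.2 (FinA_bdd_of_reach hn)
  refine ⟨D₁, D, ?_, ?_, hD₁, hD, fun l hl => ?_, hK⟩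
  · obtain ⟨c, hc, h⟩ := FinA_reach_pos
    refine lt_of_lt_of_le hc (ge_of_tendsto hD₁ ?_)
    filter_upwards [eventually_ge_atTop 1] with N hN
    have hN1 : (0 : ℝ) < N := by exact_mod_cast hN
    rw [le_div_iff₀ hN1]
    exact h N hN
  · refine le_of_tendsto_of_tendsto' hD₁ hD fun N => ?_
    apply div_le_div_of_nonneg_right _ (Nat.cast_nonneg _)
    exact_mod_cast FinA_count_mono hsub N
  · have h1 := FinA_law hI i1 hD₁ (fun n hn => FinA_t_lt_top.1 (hsub hn)) hl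
    have h2 := FinA_law hI i2 hD (fun n hn => FinA_t_lt_top.1 hn) hl
    have e1 : {n : ℕ | n ∈ {n : ℕ | FinA_t n < ⊤} ∧ ∃ m : ℕ, FinA_t n = m ∧ l * n < m} =
        {n : ℕ | ∃ m : ℕ, FinA_t n = m ∧ l * n < m} := by
      ext n
      constructor
      · exact fun h => h.2
      · rintro ⟨m, hm, hle⟩
        refine ⟨?_, m, hm, hle⟩
        rw [Set.mem_ofPred_eq, hm]
        exact ENat.natCast_lt_top m
    have e2 : {n : ℕ | n ∈ {n : ℕ | FinA_t n < ⊤} ∧ ∃ m : ℕ, FinA_t n = m ∧ (m : ℝ) ≤ l * n} =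
        {n : ℕ | ∃ m : ℕ, FinA_t n = m ∧ (m : ℝ) ≤ l * n} := by
      ext n
      constructor
      · exact fun h => h.2
      · rintro ⟨m, hm, hle⟩
        refine ⟨?_, m, hm, hle⟩
        rw [Set.mem_ofPred_eq, hm]
        exact ENat.natCast_lt_top m
    rw [e1, e2] at h2
    exact ⟨h2.1, h2.2, h1.1, h1.2, fun C hC hC1 => hH C hC hC1 l hl, (hG.2.2.2.2.2.2 l hl).1,
      (hG.2.2.2.2.2.2 l hl).2⟩

end Pool.Agent.LIM
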