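import Pool.Agent.LIM.FinA

/-!
# Limit law of the maximum excursion of the `3x+1` map: assembly, with slowly growing factors
-/

set_option autoImplicit false

open Finset Filter Topology

namespace Pool.Agent.LIM

open Pool.Agent.Collatz3.TX (T T_cast iter_cast)

theorem FinB_nonneg {A : Set ℕ} {d : ℝ} (h : HasDensity A d) : 0 ≤ d :=
  ge_of_tendsto' h fun N => by positivity

theorem FinB_psi (hI : St_INV) (hG : St_GI) {S : Set ℕ} {d : ℝ}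
    (hS : ∀ n, 1 ≤ n → (T n ∈ S ↔ n ∈ S))
    (hd : HasDensity S d) (hb : ∀ n ∈ S, Bdd n) {ψ : ℕ → ℝ} (hψ : Tendsto ψ atTop atTop) :
    HasDensity {n | n ∈ S ∧ ∃ m : ℕ, FinA_t n = m ∧ (m : ℝ) ≤ ψ n * n} d := by
  have hd0 := FinB_nonneg hd
  have h0 : HasDensity {n | n ∈ S ∧ ∃ m : ℕ, FinA_t n = m ∧ ψ n * n < m} 0 := by
    unfold HasDensity
    rw [Metric.tendsto_nhds]
    intro ε hε
    obtain ⟨l, hl⟩ : ∃ l : ℝ, l = max 1 (4 * (d + 1) / ε) := ⟨_, rfl⟩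
    have hl1 : 1 ≤ l := by rw [hl]; exact le_max_left _ _
    have hl2 : d * G l ≤ ε / 4 := by
      have h1 : 4 * (d + 1) / ε ≤ l := by rw [hl]; exact le_max_right _ _
      have h2 : G l ≤ 1 / l := (hG.2.2.2.2.2.2 l hl1).2
      have h3 : d * G l ≤ d * (1 / l) := mul_le_mul_of_nonneg_left h2 hd0
      rw [div_le_iff₀ hε] at h1
      refine h3.trans ?_
      rw [mul_one_div, div_le_iff₀ (by linarith)]
      linarith
    obtain ⟨n₀, hn₀⟩ := eventually_atTop.1 (hψ.eventually_ge_atTop l)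
    have h1 := (FinA_law hI hS hd hb hl1).1
    unfold HasDensity at h1
    have h2 : ∀ᶠ N : ℕ in atTop, (Set.ncard {n : ℕ | 1 ≤ n ∧ n ≤ N ∧
        n ∈ {n | n ∈ S ∧ ∃ m : ℕ, FinA_t n = m ∧ l * n < m}} : ℝ) / N < ε / 2 :=
      h1.eventually_lt_const (by linarith)
    have h3 : ∀ᶠ N : ℕ in atTop, (n₀ : ℝ) ≤ ε / 4 * N :=
      (tendsto_natCast_atTop_atTop.const_mul_atTop (by positivity)).eventually_ge_atTop _
    filter_upwards [h2, h3, eventually_gt_atTop 0] with N h4 h5 hN0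
    have hN1 : (0 : ℝ) < N := by exact_mod_cast hN0
    rw [Real.dist_eq, sub_zero, abs_of_nonneg (by positivity), div_lt_iff₀ hN1]
    rw [div_lt_iff₀ hN1] at h4
    have h6 : {n : ℕ | 1 ≤ n ∧ n ≤ N ∧ n ∈ {n | n ∈ S ∧ ∃ m : ℕ, FinA_t n = m ∧ ψ n * n < m}} ⊆
        {n : ℕ | 1 ≤ n ∧ n ≤ N ∧ n ∈ {n | n ∈ S ∧ ∃ m : ℕ, FinA_t n = m ∧ l * n < m}} ∪
          ((Finset.range n₀ : Finset ℕ) : Set ℕ) := by
      rintro n ⟨h7, h8, h9, m, hm, hlt⟩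
      by_cases hn : n₀ ≤ n
      · left
        refine ⟨h7, h8, h9, m, hm, lt_of_le_of_lt ?_ hlt⟩
        exact mul_le_mul_of_nonneg_right (hn₀ n hn) (Nat.cast_nonneg _)
      · right
        rw [Finset.coe_range]
        exact not_le.1 hn
    have h7 := (Set.ncard_le_ncard h6 ((FinA_count_finite _ N).union
      (Finset.finite_toSet _))).trans (Set.ncard_union_le _ _)
    rw [Set.ncard_coe_finset, Finset.card_range] at h7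
    have h8 : (Set.ncard {n : ℕ | 1 ≤ n ∧ n ≤ N ∧
        n ∈ {n | n ∈ S ∧ ∃ m : ℕ, FinA_t n = m ∧ ψ n * n < m}} : ℝ) ≤
        (Set.ncard {n : ℕ | 1 ≤ n ∧ n ≤ N ∧
          n ∈ {n | n ∈ S ∧ ∃ m : ℕ, FinA_t n = m ∧ l * n < m}} : ℝ) + n₀ := by exact_mod_cast h7
    have h9 : 0 < ε * (N : ℝ) := by positivity
    refine lt_of_le_of_lt h8 (lt_of_lt_of_le (add_lt_add_of_lt_of_le h4 h5) ?_)
    linarith
  have h1 := FinA_diff hd h0 fun n hn => hn.1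
  rw [sub_zero] at h1
  have e : {n | n ∈ S ∧ n ∉ {n | n ∈ S ∧ ∃ m : ℕ, FinA_t n = m ∧ ψ n * n < m}} =
      {n | n ∈ S ∧ ∃ m : ℕ, FinA_t n = m ∧ (m : ℝ) ≤ ψ n * n} := by
    ext n
    simp only [Set.mem_ofPred_eq]
    constructor
    · rintro ⟨h4, h5⟩
      refine ⟨h4, ?_⟩
      obtain ⟨m, hm⟩ := ENat.ne_top_iff_exists.1 (FinA_t_lt_top.2 (hb n h4)).ne
      refine ⟨m, hm.symm, ?_⟩
      by_contra hcon
      push Not at hcon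
      exact h5 ⟨h4, m, hm.symm, hcon⟩
    · rintro ⟨h4, m, hm, hle⟩
      refine ⟨h4, ?_⟩
      rintro ⟨-, m', hm', hlt⟩
      rw [hm] at hm'
      have : m = m' := by exact_mod_cast hm'
      rw [this] at hle
      linarith
  rw [e] at h1
  exact h1

/-- **The limit law**, with the clause for slowly growing factors. -/
theorem FinB_main (hI : St_INV) (hH : St_HOR) (hG : St_GI) (hK : St_KAP) :
    ∃ D₁ D : ℝ, 0 < D₁ ∧ D₁ ≤ D ∧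
    HasDensity {n : ℕ | ∃ k, T^[k] n = 1} D₁ ∧ HasDensity {n : ℕ | FinA_t n < ⊤} D ∧
    (∀ l : ℝ, 1 ≤ l →
      HasDensity {n : ℕ | ∃ m : ℕ, FinA_t n = m ∧ l * n < m} (D * G l) ∧
      HasDensity {n : ℕ | ∃ m : ℕ, FinA_t n = m ∧ (m : ℝ) ≤ l * n} (D * (1 - G l)) ∧
      HasDensity {n : ℕ | (∃ k, T^[k] n = 1) ∧ ∃ m : ℕ, FinA_t n = m ∧ l * n < m} (D₁ * G l) ∧
      HasDensity {n : ℕ | (∃ k, T^[k] n = 1) ∧ ∃ m : ℕ, FinA_t n = m ∧ (m : ℝ) ≤ l * n}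
        (D₁ * (1 - G l)) ∧
      (∀ C : ℝ, 0 < C → C < 2 / Real.log (4 / 3) + 1 / Real.log (3 / 2) →
        HasDensity {n : ℕ | ∃ k : ℕ, 1 ≤ k ∧ (k : ℝ) ≤ C * Real.log n ∧
          l * n < ((T^[k] n : ℕ) : ℝ)} (G l)) ∧
      2 / (3 * l) ≤ G l ∧ G l ≤ 1 / l) ∧
    (Tendsto (fun l : ℝ => l * G l) atTop (𝓝 kappa) ∧ 2 / 3 ≤ kappa ∧ kappa ≤ 1) ∧
    ∀ ψ : ℕ → ℝ, Tendsto ψ atTop atTop →
      HasDensity {n : ℕ | (∃ k, T^[k] n = 1) ∧ ∃ m : ℕ, FinA_t n = m ∧ (m : ℝ) ≤ ψ n * n} D₁ ∧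
      HasDensity {n : ℕ | ∃ m : ℕ, FinA_t n = m ∧ (m : ℝ) ≤ ψ n * n} D := by
  have i1 : ∀ n, 1 ≤ n → (T n ∈ {n : ℕ | ∃ k, T^[k] n = 1} ↔ n ∈ {n : ℕ | ∃ k, T^[k] n = 1}) :=
    fun n _ => FinA_reach_step
  have i2 : ∀ n, 1 ≤ n → (T n ∈ {n : ℕ | FinA_t n < ⊤} ↔ n ∈ {n : ℕ | FinA_t n < ⊤}) :=
    fun n _ => by
      simp only [Set.mem_ofPred_eq, FinA_t_lt_top]
      exact FinA_bdd_step
  obtain ⟨D₁, D, h1, h2, h3, h4, h5, h6⟩ := FinA_main hI hH hG hK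
  refine ⟨D₁, D, h1, h2, h3, h4, h5, h6, fun ψ hψ => ⟨?_, ?_⟩⟩
  · exact FinB_psi hI hG i1 h3 (fun n hn => FinA_bdd_of_reach hn) hψ
  · have h7 := FinB_psi hI hG i2 h4 (fun n hn => FinA_t_lt_top.1 hn) hψ
    have e1 : {n : ℕ | n ∈ {n : ℕ | FinA_t n < ⊤} ∧ ∃ m : ℕ, FinA_t n = m ∧ (m : ℝ) ≤ ψ n * n} =
        {n : ℕ | ∃ m : ℕ, FinA_t n = m ∧ (m : ℝ) ≤ ψ n * n} := by
      ext n
      constructor
      · exact fun h => h.2
      · rintro ⟨m, hm, hle⟩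
        refine ⟨?_, m, hm, hle⟩
        rw [Set.mem_ofPred_eq, hm]
        exact ENat.natCast_lt_top m
    rw [e1] at h7
    exact h7

end Pool.Agent.LIM
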