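import Pool.Agent.LIM.StA

/-!
# LIM [INV]: the limit law on invariant sets of bounded trajectories
-/

set_option autoImplicit false

open Finset Filter Topology
open scoped Classical

namespace Pool.Agent.LIM

open Pool.Agent.Collatz3.TX (T mul)

/-- the number of the elements of `A` from `1` to `N` -/
private noncomputable def INV_c (A : Set ℕ) (N : ℕ) : ℕ :=
  Set.ncard {n : ℕ | 1 ≤ n ∧ n ≤ N ∧ n ∈ A}

private theorem INV_fin (A : Set ℕ) (N : ℕ) : {n : ℕ | 1 ≤ n ∧ n ≤ N ∧ n ∈ A}.Finite :=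
  (Set.finite_Icc 1 N).subset fun n hn => ⟨hn.1, hn.2.1⟩

private theorem INV_low (X P : Set ℕ) (N : ℕ) (h : ∀ n, 1 ≤ n → n ∈ P → n ∈ X) :
    INV_c P N ≤ INV_c X N :=
  Set.ncard_le_ncard (fun n hn => ⟨hn.1, hn.2.1, h n hn.1 hn.2.2⟩) (INV_fin X N)

private theorem INV_up (X P : Set ℕ) (N n₀ : ℕ) (F₁ F₂ : Finset ℕ)
    (h : ∀ n, 1 ≤ n → n ≤ N → n ∈ X → n ∈ P ∨ n < n₀ ∨ n ∈ F₁ ∨ n ∈ F₂) :
    INV_c X N ≤ INV_c P N + n₀ + (F₁.card + F₂.card) := by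
  have h1 : {n : ℕ | 1 ≤ n ∧ n ≤ N ∧ n ∈ X} ⊆
      ({n : ℕ | 1 ≤ n ∧ n ≤ N ∧ n ∈ P} ∪ ↑(range n₀)) ∪ ((F₁ : Set ℕ) ∪ (F₂ : Set ℕ)) := by
    rintro n ⟨hn1, hn2, hn3⟩
    rcases h n hn1 hn2 hn3 with h4 | h4 | h4 | h4
    · exact Or.inl (Or.inl ⟨hn1, hn2, h4⟩)
    · exact Or.inl (Or.inr (Finset.mem_coe.2 (Finset.mem_range.2 h4)))
    · exact Or.inr (Or.inl h4)
    · exact Or.inr (Or.inr h4)
  have h2 := Set.ncard_le_ncard h1 (((INV_fin P N).union (Finset.finite_toSet _)).union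
    ((Finset.finite_toSet F₁).union (Finset.finite_toSet F₂)))
  have h3 := Set.ncard_union_le ({n : ℕ | 1 ≤ n ∧ n ≤ N ∧ n ∈ P} ∪ ↑(range n₀))
    ((F₁ : Set ℕ) ∪ (F₂ : Set ℕ))
  have h4 := Set.ncard_union_le {n : ℕ | 1 ≤ n ∧ n ≤ N ∧ n ∈ P} (↑(range n₀))
  have h5 := Set.ncard_union_le (F₁ : Set ℕ) (F₂ : Set ℕ)
  rw [Set.ncard_coe_finset, Finset.card_range] at h4
  rw [Set.ncard_coe_finset, Set.ncard_coe_finset] at h5
  unfold INV_c
  omega

theorem thm_INV (h1 : St_FB) (h2 : St_GI) (h3 : St_CMP) (h4 : St_MID) (h5 : St_TXL)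
    (h6 : St_MOD) : St_INV := by
  intro S d hS hd hB l hl
  obtain ⟨⟨hr0, hr1, -⟩, -⟩ := h1
  obtain ⟨-, -, -, -, hG1, hG2, -⟩ := h2
  obtain ⟨-, hC2, hC3⟩ := h3
  have hl0 : (0 : ℝ) < l := by linarith
  -- `G1 J l → G l`
  have hpow : Tendsto (fun J : ℕ => rho ^ J) atTop (𝓝 0) :=
    tendsto_pow_atTop_nhds_zero_of_lt_one hr0.le hr1
  have hG : Tendsto (fun J : ℕ => G1 J l) atTop (𝓝 (G l)) := by
    have ha : Tendsto (fun J : ℕ => G l - rho ^ (J + 1) / Real.sqrt l) atTop (𝓝 (G l)) := by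
      have hb : Tendsto (fun J : ℕ => rho ^ (J + 1)) atTop (𝓝 0) :=
        (tendsto_add_atTop_iff_nat 1).2 hpow
      have hc := (tendsto_const_nhds (x := G l)).sub (hb.div_const (Real.sqrt l))
      simpa using hc
    refine tendsto_of_tendsto_of_tendsto_of_le_of_le ha tendsto_const_nhds ?_ ?_
    · intro J
      have hb := hG2 J l hl0
      show G l - rho ^ (J + 1) / Real.sqrt l ≤ G1 J l
      linarith
    · intro J
      exact hG1 J l
  have hdG : Tendsto (fun J : ℕ => d * G1 J l) atTop (𝓝 (d * G l)) := hG.const_mul d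
  have hρ2 : Tendsto (fun J : ℕ => 2 * rho ^ (J + 2)) atTop (𝓝 0) := by
    have hb : Tendsto (fun J : ℕ => rho ^ (J + 2)) atTop (𝓝 0) :=
      (tendsto_add_atTop_iff_nat 2).2 hpow
    simpa using hb.const_mul 2
  -- the set `X`
  obtain ⟨X, hX⟩ : ∃ X : Set ℕ, X = {n : ℕ | n ∈ S ∧ ∃ k, 1 ≤ k ∧
    l * n < ((T^[k] n : ℕ) : ℝ)} := ⟨_, rfl⟩
  rw [← hX]
  have hgoal : Tendsto (fun N : ℕ => (INV_c X N : ℝ) / N) atTop (𝓝 (d * G l)) := by
    rw [Metric.tendsto_nhds]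
    intro ε hε
    have hε8 : 0 < ε / 8 := by linarith
    obtain ⟨J, hJ1, hJ2⟩ := ((Metric.tendsto_nhds.1 hdG (ε / 8) hε8).and
      (Metric.tendsto_nhds.1 hρ2 (ε / 8) hε8)).exists
    rw [Real.dist_eq] at hJ1
    rw [Real.dist_eq, sub_zero, abs_of_nonneg (by positivity)] at hJ2
    obtain ⟨n₀, hn₀⟩ := hC3 (J + 1) l hl0
    obtain ⟨P, hPd⟩ : ∃ P : Set ℕ, P = {n : ℕ | n ∈ S ∧ ∃ k, 1 ≤ k ∧ k ≤ J + 1 ∧
      l ≤ mul k n} := ⟨_, rfl⟩
    have hP := h6 S d hS hd J l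
    rw [← hPd] at hP
    have hP1 : Tendsto (fun N : ℕ => (INV_c P N : ℝ) / N) atTop (𝓝 (d * G1 J l)) := hP
    have hP' := Metric.tendsto_nhds.1 hP1 (ε / 8) hε8
    have hM := h4 (J + 2)
    have hT := h5 (ε / 8) hε8
    have hn : ∀ᶠ N : ℕ in atTop, (n₀ : ℝ) ≤ ε / 8 * N := by
      have ha : Tendsto (fun N : ℕ => ε / 8 * (N : ℝ)) atTop atTop :=
        tendsto_natCast_atTop_atTop.const_mul_atTop hε8
      exact ha.eventually_ge_atTop _
    filter_upwards [hP', hM, hT, hn, eventually_gt_atTop 0] with N hN1 hN2 hN3 hN4 hN5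
    have hN0 : (0 : ℝ) < N := by exact_mod_cast hN5
    rw [Real.dist_eq] at hN1 ⊢
    -- lower bound
    have hlow : (INV_c P N : ℝ) ≤ INV_c X N := by
      refine Nat.cast_le.2 (INV_low X P N fun n hn1 hnP => ?_)
      rw [hPd] at hnP
      rw [hX]
      obtain ⟨hnS, k, hk1, _, hk3⟩ := hnP
      exact ⟨hnS, k, hk1, hC2 k n l hn1 hk1 hl hk3⟩
    -- upper bound
    have hup := INV_up X P N n₀
      ((Icc 1 N).filter fun n => ∃ k, J + 2 ≤ k ∧ k ≤ Nat.log 2 N / 2 ∧ n < T^[k] n)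
      ((Icc 1 N).filter fun n => Bdd n ∧ ∃ k, Nat.log 2 N / 2 < k ∧ n < T^[k] n) (by
        intro n hn1 hnN hnX
        have hnI : n ∈ Icc 1 N := Finset.mem_Icc.2 ⟨hn1, hnN⟩
        rw [hX] at hnX
        rw [hPd]
        obtain ⟨hnS, k, hk1, hk2⟩ := hnX
        rcases lt_or_ge n n₀ with hlt | hge
        · exact Or.inr (Or.inl hlt)
        · rcases Nat.lt_or_ge (J + 1) k with hkJ | hkJ
          · have hlt : n < T^[k] n := by
              have ha : (n : ℝ) < ((T^[k] n : ℕ) : ℝ) := by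
                have hb : (n : ℝ) ≤ l * n := by
                  have hc : (0 : ℝ) ≤ n := Nat.cast_nonneg n
                  nlinarith
                linarith
              exact_mod_cast ha
            rcases Nat.lt_or_ge (Nat.log 2 N / 2) k with hk3 | hk3
            · exact Or.inr (Or.inr (Or.inr (Finset.mem_filter.2 ⟨hnI, hB n hnS, k, hk3, hlt⟩)))
            · exact Or.inr (Or.inr (Or.inl (Finset.mem_filter.2 ⟨hnI, k, hkJ, hk3, hlt⟩)))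
          · exact Or.inl ⟨hnS, k, hk1, hkJ, hn₀ n hge k hkJ hk2⟩)
    have hup' : (INV_c X N : ℝ) ≤ INV_c P N + n₀ +
      ((((Icc 1 N).filter fun n => ∃ k, J + 2 ≤ k ∧ k ≤ Nat.log 2 N / 2 ∧ n < T^[k] n).card : ℝ) +
      (((Icc 1 N).filter fun n => Bdd n ∧ ∃ k, Nat.log 2 N / 2 < k ∧ n < T^[k] n).card : ℝ)) := by
      exact_mod_cast hup
    have hA : (INV_c P N : ℝ) / N ≤ INV_c X N / N := div_le_div_of_nonneg_right hlow hN0.le
    have hBd : (INV_c X N : ℝ) ≤ INV_c P N + (ε / 2) * N := by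
      have h7 : 2 * rho ^ (J + 2) * N ≤ ε / 8 * N := mul_le_mul_of_nonneg_right hJ2.le hN0.le
      have h8 : 0 ≤ ε / 8 * N := by positivity
      linarith
    have hBd' : (INV_c X N : ℝ) / N ≤ INV_c P N / N + ε / 2 := by
      rw [div_add' _ _ _ hN0.ne']
      exact div_le_div_of_nonneg_right hBd hN0.le
    rw [abs_lt] at hN1 hJ1 ⊢
    constructor
    · linarith [hN1.1, hJ1.1]
    · linarith [hN1.2, hJ1.2]
  exact hgoal

end Pool.Agent.LIM
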