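import Pool.Agent.LIM.Defs

/-!
# Limit law of the maximum excursion of the `3x+1` map: statements, part A

(the multiplier walk, renewal theorem, counting in the free range)

The proof of every statement `St_X` is in its docstring; the module `Pool/Agent/LIM/X.lean` has to
deliver `theorem thm_X (hypotheses) : St_X`.

Notation: the multiplier walk starts at `1`, its steps are `1/2` and `3/2`;
`ρ = rho = (1/√2 + √(3/2)) / 2`.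
-/

set_option autoImplicit false

open Finset Filter Topology
open scoped Classical

namespace Pool.Agent.LIM

open Pool.Agent.Collatz3.TX (T mul)

/-- [FB] Basic facts on `F`.

Proof. `ρ² = (2 + √3) / 4 ≤ .9331` (`√3 ≤ 1.7321`), so `0 < ρ < 1` and
`log ρ = (1/2) log ρ² ≤ (1/2) (ρ² - 1) ≤ -3/100`. Everything else by induction on `J`; for `l ≤ 1` all
values are `1`. (5) for `l > 1`: `F (J+1) l ≤ (1/(2l) + 3/(2l)) / 2 = 1 / l`. (6) for `J = 0`, `l > 1`: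
`F M l - 0 ≤ 1/l ≤ 1/√l`; step: `(ρ^J / √(2l) + ρ^J / √(2l/3)) / 2 = ρ^(J+1) / √l`. (7) for `J = 0`,
`l > 1`: `√l ≥ 1`; for `2/3 ≤ l ≤ 1`: `3/2 * l ≥ 1`; step for `l > 1` (`2 l ≥ 2/3`, `2 l / 3 ≥ 2/3`): add
`1/4` times the statement for `2 l` and `3/4` times that for `2 l / 3`:
`1 ≤ (3/2) l (F J (2l) + F J (2l/3)) / 2 + √l ρ^J (√2 / 4 + (3/4) √(2/3))`, and
`√2 / 4 + (3/4) √(2/3) = ρ`. -/
def St_FB : Prop :=
  (0 < rho ∧ rho < 1 ∧ Real.log rho ≤ -(3 / 100)) ∧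
  (∀ J l, 0 ≤ F J l ∧ F J l ≤ 1) ∧
  (∀ J l l', l ≤ l' → F J l' ≤ F J l) ∧
  (∀ J l, F J l ≤ F (J + 1) l) ∧
  (∀ J l, 0 < l → F J l ≤ 1 / l) ∧
  (∀ J M l, 0 < l → F (J + M) l - F J l ≤ rho ^ J / Real.sqrt l) ∧
  (∀ J l, 2 / 3 ≤ l → 1 ≤ 3 / 2 * l * F J l + Real.sqrt l * rho ^ J)

/-- [FI] The limit `Fi l = sup_J F J l`.

Proof. `F J l` increases to `Fi l` (bounded by `1`): pass to the limit `J → ∞` in [FB]. For the last
clause: `F (J + M) l ≤ F J l + ρ^J / √l` for all `M`. -/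
def St_FI : Prop :=
  (∀ l l', l ≤ l' → Fi l' ≤ Fi l) ∧ (∀ l, 0 ≤ Fi l ∧ Fi l ≤ 1) ∧ (∀ l, l ≤ 1 → Fi l = 1) ∧
  (∀ l, 0 < l → Fi l ≤ 1 / l) ∧ (∀ l, 1 < l → Fi l = (Fi (2 * l) + Fi (2 / 3 * l)) / 2) ∧
  (∀ l, 2 / 3 ≤ l → 1 ≤ 3 / 2 * l * Fi l) ∧
  (∀ J l, F J l ≤ Fi l) ∧ (∀ J l, 0 < l → Fi l ≤ F J l + rho ^ J / Real.sqrt l)

/-- [GW] The share of words.

Proof. Let `shareF K l` be the share of the words `w` of length `K` with `l * 2^k ≤ 3^(ones k w)` for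
some `0 ≤ k ≤ K`. `shareF K l = F K l` by induction on `K`: `K = 0` clear; for `l ≤ 1` all words count
(`k = 0`); for `l > 1` write `w = Fin.cons b w'`: for `k ≥ 1`, `ones k w = [b] + ones (k-1) w'`, so the
condition at `k` is `(2 l) * 2^(k-1) ≤ 3^(ones (k-1) w')` for `b = false` and
`(2/3 * l) * 2^(k-1) ≤ 3^(ones (k-1) w')` for `b = true`. The same splitting of the first letter gives
`share (J+1) l = (shareF J (2l) + shareF J (2/3 l)) / 2` for every `l`. -/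
def St_GW : Prop := ∀ (J : ℕ) (l : ℝ), share (J + 1) l = G1 J l

/-- [GI] Facts on `G`.

Proof. `share 0 l = 0`, `share (J+1) l = G1 J l` ([GW]) is nonnegative, increasing in `J`, at most `1`
and tends to `(Fi (2l) + Fi (2/3 l)) / 2`; this is `G l`; for `l > 1` it is `Fi l` ([FI]).
`G l - G1 J l ≤ ρ^J (1/√(2l) + 1/√(2l/3)) / 2 = ρ^(J+1) / √l`. Bounds for `l > 1` from [FI]; for `l = 1`:
`G 1 = (Fi 2 + 1) / 2` and `1/3 ≤ Fi 2 ≤ 1/2`. -/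
def St_GI : Prop :=
  (∀ l, G l = (Fi (2 * l) + Fi (2 / 3 * l)) / 2) ∧ (∀ l, 1 < l → G l = Fi l) ∧
  (∀ l l', l ≤ l' → G l' ≤ G l) ∧ (∀ l, 0 ≤ G l ∧ G l ≤ 1) ∧
  (∀ J l, G1 J l ≤ G l) ∧ (∀ J l, 0 < l → G l ≤ G1 J l + rho ^ (J + 1) / Real.sqrt l) ∧
  (∀ l, 1 ≤ l → 2 / (3 * l) ≤ G l ∧ G l ≤ 1 / l)

/-- [PHI] The conserved quantity. `f` antitone, `f = 1` on `(-∞, 1]`,
`f l = (f (2l) + f (2l/3)) / 2` for `l > 1`.

Proof. For `t ≥ 1` let `I t = ∫ u in 1..t, f u` (an antitone function is interval integrable).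
Integrate the equation over `[1, t]` and substitute:
`I t = (1/4) ∫ u in 2..2t, f + (3/4) ∫ u in 2/3..2t/3, f`. The first integral is `I (2t) - I 2`, the
second is `(∫ u in 2/3..1, 1) + ∫ u in 1..2t/3, f = 1/3 + ∫ u in 1..2t/3, f` (oriented integrals).
So `I t = (1/4)(I (2t) - I 2) + 1/4 + (3/4) ∫ u in 1..2t/3, f`; subtract from
`I t = (1/4) I t + (3/4) I t`:
`(3/4) ∫ u in 2t/3..t, f - (1/4) ∫ u in t..2t, f = 1/4 - (1/4) I 2`. -/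
def St_PHI : Prop := ∀ f : ℝ → ℝ, (∀ x y, x ≤ y → f y ≤ f x) → (∀ l, l ≤ 1 → f l = 1) →
  (∀ l, 1 < l → f l = (f (2 * l) + f (2 / 3 * l)) / 2) → ∀ t : ℝ, 1 ≤ t →
  3 / 4 * (∫ u in (2 / 3 * t)..t, f u) - 1 / 4 * (∫ u in t..(2 * t), f u) =
    1 / 4 * (1 - ∫ u in (1 : ℝ)..2, f u)

/-- [DEN] Quantitative density of the numbers `a log 2 - b log (3/2)`.

Proof. `ξ = log 2 / log (3/2) > 1` is irrational (`2^j = (3/2)^k` with `j + k > 0` is impossible by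
parity). By Dirichlet (`Real.exists_int_int_abs_mul_sub_le` with a large `n`) there are
`p, q ≥ 1` with `s = p log 2 - q log (3/2)`, `0 < |s| < δ`. If `s > 0` start at `-N log (3/2) ≤ -R`
(`a = 0`, `b = N`) and add multiples `k s`, `k ≥ 0`, until `[x, x + δ]` is entered (for
`k = ⌈(x + N log (3/2)) / s⌉`, a bounded number). If `s < 0` start at `N log 2 ≥ R + δ`
(`a = N`, `b = 0`) and add `k s`, `k = ⌊(N log 2 - x) / |s|⌋`. -/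
def St_DEN : Prop := ∀ R δ : ℝ, 0 < δ → ∃ n : ℕ, ∀ x : ℝ, |x| ≤ R → ∃ a b : ℕ, a + b ≤ n ∧
  x ≤ a * Real.log 2 - b * Real.log (3 / 2) ∧ a * Real.log 2 - b * Real.log (3 / 2) ≤ x + δ

/-- [WU] Upper window. `H l = l f l`. If `H ≤ M + ε` beyond `L` and `H t ≥ M - ε` at a point
`t ≥ L (3/2)^n` then `H ≥ exp (-δ) (M - 2 4^n ε)` on `[2t/3, 2t]`, where `n = n(δ)` is from [DEN].

Proof. `H l = (1/4) H (2l) + (3/4) H (2l/3)` for `l > 1`. So if `l > 1`, `2 l / 3 ≥ L` and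
`H l ≥ M - e` with `e ≥ ε` then `H (2l) ≥ 4 (M - e) - 3 (M + ε) = M - 4 e - 3 ε` and
`H (2l/3) ≥ (4/3)(M - e - (M + ε)/4) ≥ M - 4 e - 3 ε`. By induction on `a + b ≤ n` (do the steps in
the order: first all doublings, then all steps `2/3`, so that all points are at least `t (2/3)^n ≥ L`):
`H (t 2^a (2/3)^b) ≥ M - (4^(a+b) 2 ε - ε) ≥ M - 2 4^n ε`. For `u ∈ [2t/3, 2t]` take `x = log (u/t)`,
`|x| ≤ log 2`, in [DEN] (`R = log 2`): `v = t 2^a (2/3)^b` satisfies `u ≤ v ≤ u exp δ`, and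
`H u = u f u ≥ u f v = (u/v) H v`. As `H u ≥ 0` the claim also holds if `M - 2 4^n ε < 0`. -/
def St_WU : Prop := ∀ δ : ℝ, 0 < δ → ∃ n : ℕ, ∀ (f : ℝ → ℝ) (M L ε t : ℝ),
  (∀ x y, x ≤ y → f y ≤ f x) → (∀ l, 0 ≤ f l) →
  (∀ l, 1 < l → f l = (f (2 * l) + f (2 / 3 * l)) / 2) → 0 < ε → 2 ≤ L →
  (∀ l, L ≤ l → l * f l ≤ M + ε) → L * (3 / 2) ^ n ≤ t → M - ε ≤ t * f t →
  ∀ u, 2 / 3 * t ≤ u → u ≤ 2 * t → Real.exp (-δ) * (M - 2 * 4 ^ n * ε) ≤ u * f u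

/-- [WL] Lower window: if `H ≥ m - ε` beyond `L` and `H t ≤ m + ε` at a point `t ≥ L (3/2)^n` then
`H ≤ exp δ (m + 2 4^n ε)` on `[2t/3, 2t]`.

Proof. As [WU]: `H (2l) ≤ 4 (m + e) - 3 (m - ε)`, `H (2l/3) ≤ (4/3)(m + e - (m - ε)/4) ≤ m + 4e + 3ε`.
For `u ∈ [2t/3, 2t]` apply [DEN] (`R = log 2 + δ`) to `x = log (u/t) - δ`: `v = t 2^a (2/3)^b`
satisfies `v ≤ u ≤ v exp δ` and `H u = u f u ≤ u f v = (u/v) H v`, `H v ≥ 0`. -/
def St_WL : Prop := ∀ δ : ℝ, 0 < δ → ∃ n : ℕ, ∀ (f : ℝ → ℝ) (m L ε t : ℝ),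
  (∀ x y, x ≤ y → f y ≤ f x) → (∀ l, 0 ≤ f l) →
  (∀ l, 1 < l → f l = (f (2 * l) + f (2 / 3 * l)) / 2) → 0 < ε → 2 ≤ L → 0 ≤ m →
  (∀ l, L ≤ l → m - ε ≤ l * f l) → L * (3 / 2) ^ n ≤ t → t * f t ≤ m + ε →
  ∀ u, 2 / 3 * t ≤ u → u ≤ 2 * t → u * f u ≤ Real.exp δ * (m + 2 * 4 ^ n * ε)

/-- [REN] The renewal theorem.

Proof. `H l = l f l ∈ [0, 1]` for `l ≥ 1`. Let `M = limsup H`, `m = liminf H` at infinity,
`d = (3/4) log (3/2) - (1/4) log 2 = (1/4) log (27/16) > 0`, `Φ = (1/4)(1 - ∫ u in 1..2, f)`. Given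
`δ > 0` and the `n` of [WU]: for every `ε > 0` there are `L ≥ 2` with `H ≤ M + ε` beyond `L` and
`t ≥ L (3/2)^n` with `H t ≥ M - ε`. On `[2t/3, 2t]`, `A ≤ H ≤ M + ε`, `A = exp (-δ)(M - 2 4^n ε)`, so
`A / u ≤ f u ≤ (M + ε) / u`, and [PHI] gives
`(3/4) A log (3/2) - (1/4)(M + ε) log 2 ≤ Φ ≤ (3/4)(M + ε) log (3/2) - (1/4) A log 2`.
`ε → 0`, then `δ → 0`: `Φ = M d`. In the same way [WL] gives `Φ = m d`. So
`M = m = Φ / d = (1 - ∫ u in 1..2, f) / log (27/16)`. -/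
def St_REN : Prop := ∀ f : ℝ → ℝ, (∀ x y, x ≤ y → f y ≤ f x) → (∀ l, 0 ≤ f l) →
  (∀ l, 0 < l → f l ≤ 1 / l) → (∀ l, l ≤ 1 → f l = 1) →
  (∀ l, 1 < l → f l = (f (2 * l) + f (2 / 3 * l)) / 2) →
  Tendsto (fun l : ℝ => l * f l) atTop (𝓝 ((1 - ∫ u in (1 : ℝ)..2, f u) / Real.log (27 / 16)))

/-- [KAP] The constant `kappa`.

Proof. [REN] for `f = Fi` ([FI]); `G = Fi` on `(1, ∞)` ([GI]), so the integrals over `[1, 2]` agree.
The bounds from `2/3 ≤ l G l ≤ 1` for `l ≥ 1`. -/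
def St_KAP : Prop := Tendsto (fun l : ℝ => l * G l) atTop (𝓝 kappa) ∧ 2 / 3 ≤ kappa ∧ kappa ≤ 1

/-- [EAR] Early times: exact counts up to `2^(J+1) - 1`.

Proof. First the version with `F`: for `q` odd
`|#{m < Y : ∃ k ≤ J, l ≤ mul k (q m + r)} - Y F J l| ≤ 2^J - 1`, by induction on `J` as in
`TX.doob`: for `l ≤ 1` every `m` counts (`mul 0 = 1`) and `F J l = 1`. For `l > 1` split by the
parity of `m`: let `e ≡ r mod 2`. The `m = 2 m' + e` have `q m + r = 2 (q m' + r0)` even, and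
`∃ k ≤ J+1, l ≤ mul k (q m + r)` iff `∃ k ≤ J, 2 l ≤ mul k (q m' + r0)` (`k = 0` is impossible as
`l > 1`; `TX.mul_succ`, `TX.T_even`). The `m = 2 m' + (1 - e)` have `q m + r = 2 (q m' + r1) + 1`, and
the condition is `∃ k ≤ J, (2/3) l ≤ mul k (3 q m' + 3 r1 + 2)`. The two classes have `Y_e` members
with `|Y_e - Y/2| ≤ 1/2`, and `0 ≤ F ≤ 1`: the error is at most
`2 (2^J - 1) + 1/2 + 1/2 = 2^(J+1) - 1`. The same splitting, without using `l > 1`, gives the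
statement (`1 ≤ k ≤ J + 1`) for every `l`. -/
def St_EAR : Prop := ∀ (J : ℕ) (l : ℝ) (q r Y : ℕ), q % 2 = 1 →
  |(((range Y).filter fun m => ∃ k, 1 ≤ k ∧ k ≤ J + 1 ∧ l ≤ mul k (q * m + r)).card : ℝ) -
    Y * G1 J l| ≤ 2 ^ (J + 1) - 1

/-- [LBD] Times from `J` to `J + M`.

Proof. Induction on `J`. `J = 0`: the condition implies `TX.bad M l' n` for all `l' < l`
(`TX.bad_of_mul`), so by `TX.doob` the number is at most `Y / l' + 2^M - 1`, hence at most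
`Y / l + 2^M - 1`; it is also at most `Y`; so at most `Y min(1, 1/l) + 2^M - 1 ≤ Y / √l + 2^M - 1`.
Step: split by the parity of `m` as in `TX.doob`: both classes have at most `(Y + 1)/2` members, and
for `k ≥ 1` the condition at `k` is the condition at `k - 1` for `2 l`, `(2/3) l`. So the number is
at most `((Y+1)/2 + 2^J - 1) ρ^J (1/√(2l) + 1/√(2l/3)) + 2 2^J (2^M - 1)
= (Y + 2^(J+1) - 1) ρ^(J+1) / √l + 2^(J+1) (2^M - 1)`. -/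
def St_LBD : Prop := ∀ (J M : ℕ) (l : ℝ) (q r Y : ℕ), 0 < l → q % 2 = 1 →
  (((range Y).filter fun m => ∃ k, J ≤ k ∧ k ≤ J + M ∧ l ≤ mul k (q * m + r)).card : ℝ) ≤
    (Y + 2 ^ J - 1) * rho ^ J / Real.sqrt l + 2 ^ J * (2 ^ M - 1)

/-- [PER] Periodicity.

Proof. (1) Induction: `n ≡ n' mod 2^(J+1)` gives equal parities and `T n ≡ T n' mod 2^J`.
(2) Let `c` be the number on the left. By (1) the number of `m < N 2^(J+1)` with the property is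
`N c`; [EAR] with `q = 1`, `r = 0` gives `|N c - N 2^(J+1) G1 J l| ≤ 2^(J+1)` for all `N`. -/
def St_PER : Prop :=
  (∀ J n n' : ℕ, n % 2 ^ J = n' % 2 ^ J → ∀ k ≤ J, mul k n = mul k n') ∧
  (∀ (J : ℕ) (l : ℝ), (((range (2 ^ (J + 1))).filter fun r =>
    ∃ k, 1 ≤ k ∧ k ≤ J + 1 ∧ l ≤ mul k r).card : ℝ) = 2 ^ (J + 1) * G1 J l)

/-- [CMP] Iterates against multipliers.

Proof. (1) `T n ≥ n/2`, `T n ≥ (3/2) n`; induction. (2) By induction on `k`: either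
`mul k n = (1/2)^k` or `mul k n * n < T^k n` (an odd step adds `1/2`); if `k ≥ 1` and
`mul k n ≥ l ≥ 1` the first case is impossible, so `T^k n > mul k n * n ≥ l n`. (3) `mul k n` is of
the form `3^o / 2^k`, `o ≤ k ≤ J`: finitely many values; let `l' < l` be larger than all those below
`l`. If `mul k n < l` then `T^k n ≤ mul k n (n + 2^k) ≤ l' (n + 2^J) ≤ l n` (`TX.iter_le`) for
`n ≥ l' 2^J / (l - l')`. -/
def St_CMP : Prop :=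
  (∀ k n : ℕ, mul k n * n ≤ ((T^[k] n : ℕ) : ℝ)) ∧
  (∀ (k n : ℕ) (l : ℝ), 1 ≤ n → 1 ≤ k → 1 ≤ l → l ≤ mul k n → l * n < ((T^[k] n : ℕ) : ℝ)) ∧
  (∀ (J : ℕ) (l : ℝ), 0 < l → ∃ n₀ : ℕ, ∀ n ≥ n₀, ∀ k ≤ J, l * n < ((T^[k] n : ℕ) : ℝ) →
    l ≤ mul k n)

/-- [MID] Times from `J` to `(log_2 N) / 2`: all `n`.

Proof. Let `q = Nat.log 2 N`, `N` so large that `J ≤ q / 2`. At most `2^(q/2)` of the `n` are below
`2^(q/2)`. For `n ≥ 2^(q/2) ≥ 2^k`: `n < T^k n ≤ mul k n (n + 2^k) ≤ 2 n mul k n`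
(`TX.iter_le`), so `1/2 ≤ mul k n`. By [LBD] with `l = 1/2`, `q = 1`, `r = 0`, `Y = N + 1`,
`M = q/2 - J` their number is at most `√2 ρ^J (N + 2^J) + 2^(q/2)`. As `√2 < 2` and
`2^(q/2) ≤ √N` the sum is at most `2 ρ^J N` for large `N`. -/
def St_MID : Prop := ∀ J : ℕ, ∀ᶠ N : ℕ in atTop,
  (((Icc 1 N).filter fun n => ∃ k, J ≤ k ∧ k ≤ Nat.log 2 N / 2 ∧ n < T^[k] n).card : ℝ) ≤
    2 * rho ^ J * N

/-- [TXL] Times after `(log_2 N) / 2`: bounded trajectories (`LIM.Bdd` is the same as `TX.Bdd`).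

Proof. Copy of `TX.split`, `TX.count_le`, `TX.main_count` (Pool/Agent/Collatz3/TXCount.lean) with
`lam = 1` and the exceptional set `E N n : Bdd n ∧ ∃ k, J < k ∧ n < T^k n`, `J = Nat.log 2 N / 2`.
Change in `split`: the alternative `bad J l n` disappears. In the last case one has
`T^(w.sum + a) n = b` with `w.sum + a ≤ J < k`, so with `j = k - (w.sum + a) ≥ 1`,
`T^j b = T^k n > n ≥ N / h` (we are in the case `n > N / h`) and the trajectory of `b` is bounded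
(that of `n` is): so `b ∈ B (N / h)` directly, without `B_down`. The count is then
`N / h + N / 2^(A+1) + 2 c N` (`count_le` without the term of `doob`), and the parameters of
`main_count` (with `J = q / 2`, `A = q / 4`, `k = q / 10`) make it at most `ε N`. -/
def St_TXL : Prop := ∀ ε : ℝ, 0 < ε → ∀ᶠ N : ℕ in atTop,
  (((Icc 1 N).filter fun n => Bdd n ∧ ∃ k, Nat.log 2 N / 2 < k ∧ n < T^[k] n).card : ℝ) ≤ ε * N

/-- [MOD] Invariant sets are equidistributed modulo `2^(J+1)`.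

Proof. As in `AlmostLinear.exists_density` (Pool/Agent/Results/MP_0deaf3_nt/AlmostLinear.lean) let
`S' = {z : ℤ | 0 < z ∧ z.toNat ∈ S}`, `EvInv 0 S'`; its density is `d` (same computation), so
`dens_of_evInv` (Pool/Agent/Collatz3/DNPred.lean) gives `Dens 1 S' d`: for `Q = 2^(J+1)` and
`r < Q`, `#{m ≤ x : Q m + r ∈ S} / x → d`. By [PER] (1) the set in question is the disjoint union over
the `c = #{r < Q : ∃ 1 ≤ k ≤ J+1, l ≤ mul k r}` good residues of `{n ∈ S : n ≡ r mod Q}`, each of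
density `d / Q` (`n = Q m + r ≤ N` iff `m ≤ (N - r) / Q`), and `c / Q = G1 J l` by [PER] (2). -/
def St_MOD : Prop := ∀ (S : Set ℕ) (d : ℝ), (∀ n, 1 ≤ n → (T n ∈ S ↔ n ∈ S)) → HasDensity S d →
  ∀ (J : ℕ) (l : ℝ),
    HasDensity {n : ℕ | n ∈ S ∧ ∃ k, 1 ≤ k ∧ k ≤ J + 1 ∧ l ≤ mul k n} (d * G1 J l)

/-- [INV] The limit law on invariant sets of bounded trajectories.

Proof. Fix `J`. Let `P = {n ∈ S : ∃ 1 ≤ k ≤ J+1, l ≤ mul k n}`, of density `d G1 J l` ([MOD]). By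
[CMP] (2), `P` is contained in the set `X` of the statement (for `n ≥ 1`), and by [CMP] (3) the `n ∈ X`
with `n ≥ n₀` are in `P` or have some `k ≥ J + 2` with `n ≤ l n < T^k n`. The number of the latter up to
`N` is at most `(2 ρ^(J+2) + ε) N` for large `N`, by [MID] (`k ≤ log_2 N / 2`, `J + 2` in place of
`J`) and [TXL] (`k > log_2 N / 2`). So `liminf` and `limsup` of the counting ratio lie between
`d G1 J l` and `d G1 J l + 2 ρ^(J+2)`. `G1 J l → G l` ([GI]) and `ρ^J → 0`. -/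
def St_INV : Prop := ∀ (S : Set ℕ) (d : ℝ), (∀ n, 1 ≤ n → (T n ∈ S ↔ n ∈ S)) → HasDensity S d →
  (∀ n ∈ S, Bdd n) → ∀ l : ℝ, 1 ≤ l →
    HasDensity {n : ℕ | n ∈ S ∧ ∃ k, 1 ≤ k ∧ l * n < ((T^[k] n : ℕ) : ℝ)} (d * G l)

/-- [LAT] Late times, all `n`, with horizon `C log n`. (Proved in part B from the statements there.) -/
def St_LAT : Prop := ∀ C : ℝ, 0 < C → C < Hz → ∃ η₀ : ℝ, 0 < η₀ ∧ ∀ η : ℝ, 0 < η → η ≤ η₀ →
  ∃ δ : ℝ, 0 < δ ∧ δ < 1 ∧ ∀ᶠ x : ℕ in atTop,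
    (((Icc 1 x).filter fun n : ℕ => ∃ k : ℕ, η * Real.log n ≤ k ∧ (k : ℝ) ≤ C * Real.log n ∧
      n ≤ T^[k] n).card : ℝ) ≤ (x : ℝ) ^ (1 - δ)

/-- [HOR] The limit law with horizon, all `n`.

Proof. Fix `J`. The set `P = {n : ∃ 1 ≤ k ≤ J+1, l ≤ mul k n}` has density `G1 J l` ([EAR] with
`q = 1`, `r = 0`; or [MOD] with `S = univ`, `d = 1`). For `C log n ≥ J + 1`, `n ≥ 1`, `n ∈ P` is in the
set `X` of the statement ([CMP] (2)). Conversely `n ∈ X`, `n ≥ n₀`, is in `P` ([CMP] (3)) or has some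
`k ≥ J + 2`, `k ≤ C log n` with `n < T^k n`. For `n ≤ N` such `k` are at most `log_2 N / 2`: at most
`2 ρ^(J+2) N` of the `n` ([MID]), or larger: then `k ≥ (Nat.log 2 N + 1) / 2 ≥ log N / (2 log 2) ≥
(1/2) log n ≥ η log n` with `η = min (η₀, 1/2)` of [LAT]: at most `N^(1-δ)` of the `n`, which is
`≤ ε N` for large `N`. Let `J → ∞`. -/
def St_HOR : Prop := ∀ C : ℝ, 0 < C → C < Hz → ∀ l : ℝ, 1 ≤ l →
  HasDensity {n : ℕ | ∃ k : ℕ, 1 ≤ k ∧ (k : ℝ) ≤ C * Real.log n ∧ l * n < ((T^[k] n : ℕ) : ℝ)} (G l)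

/-- [TAU] A Tauberian lemma: from short multiplicative intervals to all.

Proof. Fix `0 < ε < 1` with `B ε ≤ κ / 2` and `y₀ ≥ 1` such that the hypothesis holds for `y ≥ y₀`;
`y_j = y₀ (1 + ε)^j`, `g = (1 + ε)^a > 1`. For `x ≥ y₀` let `y_n ≤ x < y_(n+1)`. `R x ≤ R y_(n+1) =
R y₀ + ∑_(j ≤ n) (R y_(j+1) - R y_j) ≤ R y₀ + (κ ε + B ε²) ∑_(j ≤ n) y_j^a`, and
`∑_(j ≤ n) y_j^a = y₀^a (g^(n+1) - 1)/(g - 1) ≤ g x^a / (g - 1)`. So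
`limsup R x / x^a ≤ (κ ε + B ε²) g / (g - 1)`. Similarly `R x ≥ R y_n ≥
(κ ε - B ε²) (y_n^a - y₀^a)/(g - 1)` and `y_n ≥ x / (1 + ε)`: `liminf R x / x^a ≥
(κ ε - B ε²) / (g (g - 1))`. As `ε → 0`, `g → 1` and `(g - 1) / ε → a`: both bounds tend to `κ / a`. -/
def St_TAU : Prop := ∀ (R : ℝ → ℝ) (κ a B : ℝ), 0 < κ → 0 < a → 0 < B → (∀ x, 0 ≤ R x) →
  Monotone R →
  (∀ ε : ℝ, 0 < ε → ε < 1 → ∀ᶠ y : ℝ in atTop,
    |R ((1 + ε) * y) - R y - κ * ε * y ^ a| ≤ B * ε ^ 2 * y ^ a) →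
  Tendsto (fun x : ℝ => R x / x ^ a) atTop (𝓝 (κ / a))

/-- [LCU] Local asymptotics, upper bound.

Proof. `y` large, `J = ⌈η log ((1+ε) y)⌉₊ ≥ 1`; then `2^J ≤ 2 (2y)^(η log 2) ≤ 4 y^(7/20)`
(`η log 2 ≤ .3466`). The integers `y < n ≤ (1+ε) y` are `n = m + r`, `r = ⌊y⌋₊ + 1`, `m < Y`,
`Y = ⌊(1+ε) y⌋₊ - ⌊y⌋₊`, `|Y - ε y| ≤ 1`. `NX C c ((1+ε) y) - NX C c y` is the number of those `n` with
`T^k n ≥ n^c` for some `1 ≤ k ≤ C log n`. If this holds for some `k > J` then `k ≥ η log n` and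
`T^k n ≥ n`: at most `((1+ε) y)^(1-δ)` of the `n` (hypothesis for `x = ⌊(1+ε) y⌋₊`). For `k ≤ J`:
`n^c ≤ T^k n ≤ mul k n (n + 2^J)` (`TX.iter_le`), so
`mul k n ≥ n^(c-1) / (1 + 2^J / n) ≥ y^(c-1) / (1 + 2^J / y) =: l`; their number is at most
`Y G1 (J-1) l + 2^J ≤ (ε y + 1) G l + 2^J` ([EAR], `q = 1`; [GI]). As `l → ∞`, `l G l → κ` ([KAP]), so
this is at most `(ε y + 1) (κ + o(1)) y^(1-c) (1 + 2^J / y) + 2^J`. All in all the number is at most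
`κ ε y^(2-c) + o(y^(2-c))`, since `1 - δ < 2 - c` and `7/20 < 3/4 ≤ 2 - c`. -/
def St_LCU : Prop := ∀ C η δ c ε : ℝ, 0 < C → 0 < η → η ≤ 1 / 2 → 0 < δ → δ < 1 →
  (∀ᶠ x : ℕ in atTop,
    (((Icc 1 x).filter fun n : ℕ => ∃ k : ℕ, η * Real.log n ≤ k ∧ (k : ℝ) ≤ C * Real.log n ∧
      n ≤ T^[k] n).card : ℝ) ≤ (x : ℝ) ^ (1 - δ)) →
  1 < c → c ≤ 5 / 4 → c - 1 < δ → 0 < ε → ε < 1 → ∀ᶠ y : ℝ in atTop,
    NX C c ((1 + ε) * y) - NX C c y ≤ kappa * ε * y ^ (2 - c) + ε ^ 2 * y ^ (2 - c)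

/-- [LCL] Local asymptotics, lower bound.

Proof. `y`, `J`, `r`, `Y` as in [LCU]; `J ≤ η log (2y) + 1 ≤ C log y` for large `y` as `η ≤ C/2`;
`ρ^J ≤ y^(-(3/100) η)` ([FB]). Let `l = ((1+ε) y)^(c-1)`. If `mul k n ≥ l` for some `1 ≤ k ≤ J`,
`y < n ≤ (1+ε) y`, then `T^k n ≥ mul k n n ≥ l n ≥ n^c` ([CMP] (1)) and `k ≤ J ≤ C log n`. The number of
these `n` is at least `Y G1 (J-1) l - 2^J ≥ (ε y - 1)(G l - ρ^J / √l) - 2^J` ([EAR], [GI]). Here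
`y ρ^J / √l ≤ y^(2-c) y^((c-1)/2 - (3/100) η) = o(y^(2-c))` because `y^(c-1) / √l ≤ y^((c-1)/2)` and
`(c-1)/2 < η/40 < (3/100) η`. And `G l = (κ + o(1)) / l`, `l = (1+ε)^(c-1) y^(c-1) ≤ (1+ε) y^(c-1)`,
`1/(1+ε) ≥ 1 - ε`: `G l ≥ (κ - o(1)) (1 - ε) y^(1-c)`. So the number is at least
`κ ε (1 - ε) y^(2-c) - o(y^(2-c)) ≥ κ ε y^(2-c) - 2 ε² y^(2-c)` for large `y` (`κ ≤ 1`). -/
def St_LCL : Prop := ∀ C η c ε : ℝ, 0 < C → 0 < η → η ≤ 1 / 2 → η ≤ C / 2 → 1 < c → c ≤ 5 / 4 →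
  c - 1 < η / 20 → 0 < ε → ε < 1 → ∀ᶠ y : ℝ in atTop,
    kappa * ε * y ^ (2 - c) - 2 * ε ^ 2 * y ^ (2 - c) ≤ NX C c ((1 + ε) * y) - NX C c y

/-- [LOC] Local asymptotics for the number of excursions to `n ^ c`.

Proof. `η₀` from [LAT], `η = min (η₀, 1/2, C/2)`, `δ` from [LAT], `c₁ = 1 + min (1/4, δ, η/20)`;
[LCU] and [LCL]. -/
def St_LOC : Prop := ∀ C : ℝ, 0 < C → C < Hz → ∃ c₁ : ℝ, 1 < c₁ ∧ c₁ ≤ 5 / 4 ∧
  ∀ c : ℝ, 1 < c → c < c₁ → ∀ ε : ℝ, 0 < ε → ε < 1 → ∀ᶠ y : ℝ in atTop,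
    |NX C c ((1 + ε) * y) - NX C c y - kappa * ε * y ^ (2 - c)| ≤ 2 * ε ^ 2 * y ^ (2 - c)

/-- [ASY] The asymptotic formula.

Proof. [TAU] for `R = NX C c`, `κ = kappa > 0` ([KAP]), `a = 2 - c`, `B = 2` ([LOC]), restricted to
natural `x`. -/
def St_ASY : Prop := ∀ C : ℝ, 0 < C → C < Hz → ∃ c₁ : ℝ, 1 < c₁ ∧ ∀ c : ℝ, 1 < c → c < c₁ →
  Tendsto (fun x : ℕ => NX C c x / (x : ℝ) ^ (2 - c)) atTop (𝓝 (kappa / (2 - c)))

end Pool.Agent.LIM
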