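import Pool.Agent.LIM.DefsB
import Pool.Agent.LIM.StA

/-!
# Limit law of the maximum excursion of the `3x+1` map: statements, part B (late times)

The files Pool/Agent/Collatz3/EXCount.lean, EXMult.lean, EXMaster.lean, EXUp.lean, EXFinal.lean contain
the same arguments without the additional condition `T^q n ≤ Z'`; copy and change them.
-/

set_option autoImplicit false

open Finset Filter Topology
open scoped Classical

namespace Pool.Agent.LIM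

open Pool.Agent.Collatz3 (T3)
open Pool.Agent.Collatz3.LT
open Pool.Agent.Collatz3.EX (B od dl)

/-- [DEC] Decomposition of a late excursion at the lowest point.

Proof (modify `EX.decomp`). Let `q' = min {t : T^t n ≤ Z'} ≤ q` and
`k' = min {t ≥ q' : Y ≤ T^t n} ≤ k`; `q' < k'` as `Z' < Y`. The iterates `T^i n`, `i < q'`, are distinct
(if `T^a n = T^b n`, `a < b < q'`, then `T^(q' - (b - a)) n = T^(q') n ≤ Z'`, against minimality), and so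
are the `T^i n`, `q' ≤ i < k'` (same argument for `k'`; `k' - (b - a) ≥ q'`). Let `j ≤ k'` be the index of
`lowest k' n`, `m = T^j n`, `r = k' - j`. Flatness after `j` as in `EX.decomp`. HEIGHT: if `j ≤ q'`,
`node_ge` on `[0, j)` gives `m exp (ht (wd j n)) ≤ n (j + 1)`. If `j > q'`, `node_ge` on `[0, q')` for
`n` and on `[0, j - q')` for `m' = T^(q') n`, multiplied (`ht_wd_sub`):
`m exp (ht (wd j n)) ≤ n (q' + 1)(j - q' + 1) ≤ n (k + 1)^2`. SIZE: `ht (wd q' n) ≤ ht (wd j n)` by the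
choice of `j`, and `T^(q') n ≥ n exp (-ht (wd q' n))` (from `wd_spec`), so
`n exp (-ht (wd j n)) ≤ T^(q') n ≤ Z'`, hence `m ≤ n (k+1)^2 exp (-ht (wd j n)) ≤ Z' (k+1)^2`. -/
def St_DEC : Prop := ∀ (n k q : ℕ) (Z' Y : ℝ), 1 ≤ n → 0 < Y → Z' < Y → q ≤ k →
  ((T3^[q] n : ℕ) : ℝ) ≤ Z' → Y ≤ ((T3^[k] n : ℕ) : ℝ) →
  ∃ j r : ℕ, j + r ≤ k ∧ Bar (wd j n) ∧ (∀ i ≤ r, ht (wd i (T3^[j] n)) ≤ 0) ∧
    Y ≤ ((T3^[r] (T3^[j] n) : ℕ) : ℝ) ∧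
    ((T3^[j] n : ℕ) : ℝ) * Real.exp (ht (wd j n)) ≤ n * ((k : ℝ) + 1) ^ 2 ∧
    ((T3^[j] n : ℕ) : ℝ) ≤ Z' * ((k : ℝ) + 1) ^ 2 ∧ 1 ≤ T3^[j] n

/-- [MAS] Master inequality for one block.

Proof. As `EX.cover` and `EX.master` (files EXMaster.lean; `EX.mult` is in EXMult.lean), with [DEC]
instead of `EX.decomp`, `Z = 2^(i+1) (K+1)^2` and `Zs = Z' (K+1)^2 ≤ Z`. Every `n ∈ Lb i K q Z' Y`
is in `Fb i Z j m` for some `j ≤ K` and `m = T^j n ≤ Zs`; let `m ∈ B l` (`2^l ≤ Zs ≤ Z ≤ 2^(i+1+2K)`, so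
there are at most `i + 2K + 2` values of `l`, and `l + 1 ≤ i + 2 K + 2`). If `l ≥ l0`: either `r ≤ l` and
`m ∈ M1 Zs Y l`, at most `2^l (4 (l+1) Zs / Y)` elements (`card_M1` with `Zs`), or `r > l` and
`m ∈ M2 Zs l`, at most `2^l exp (-dl l)` elements; for each `m` at most
`C exp (θ (log Z - log m) + (Lam θ + ε) j) ≤ C exp ((Lam θ + ε) K) Z / 2^l` starting points. If `l < l0`:
`r ≥ (log Y - l0 log 2) / log (3/2)` (`EX.growth`), so `j ≤ K - (...)`, `m < 2^l0`, and there are at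
most `C exp (θ' log Z + (Lam θ' + ε') (K - (...)))` starting points for each `(j, m)`. -/
def St_MAS : Prop := StmtS → ∀ θ θ' ε ε' : ℝ, 0 ≤ θ → θ < 1 → 0 ≤ θ' → θ' < 1 → 0 < ε → 0 < ε' →
  ∃ C : ℝ, 0 < C ∧ ∀ (i K q l0 : ℕ) (Y Z Z' Zs : ℝ), 0 < Z' → Z' < Y →
    Z = 2 ^ (i + 1) * ((K : ℝ) + 1) ^ 2 → Zs = Z' * ((K : ℝ) + 1) ^ 2 → Zs ≤ Z →
    ((Lb i K q Z' Y).card : ℝ) ≤
      C * ((K + 1) * ((i + 2 * K + 3) * (Real.exp ((Lam θ + ε) * K) *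
        (4 * (i + 2 * K + 3) * Z * Zs / Y + Z * Real.exp (-dl * l0))))) +
      C * ((K + 1) * (2 ^ l0 * Real.exp (θ' * Real.log Z +
        (Lam θ' + ε') * (K - (Real.log Y - l0 * Real.log 2) / Real.log (3 / 2)))))

/-- [BLK] Late excursions in one block: a power saving.

Proof. As `EX.block_upper'`. Parameters from `EX.exists_params` with `c0 = 1 - ζ / 2`: `θ', ε', θ0, δ₁`
(`δ₁ ≤ 1/2`). Let `δ = min (ζ / 2) δ₁ / 4`, `C' = C log 2`, `K = ⌊C' (i+1)⌋₊`,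
`Z' = exp ((1 - ζ) i log 2)`, `Y = exp ((1 - ζ/2) i log 2)`, `l0 = ⌈θ0 i⌉₊`,
`η = δ log 2 / (4 C' + 4)` and `θ` from `EX.exists_small_Lam` (`Lam θ ≤ η`), so
`(Lam θ + η) K ≤ δ i log 2 / 2 + const`. In [MAS]: `Z Zs / Y = 2 (K+1)^4 exp ((1 - ζ/2) i log 2)`,
`Z exp (-dl l0) ≤ 2 (K+1)^2 exp ((1 - δ₁) i log 2)` (`δ₁ log 2 ≤ dl θ0`), and the last term is
`≤ poly(i) exp ((1 - δ₁) i log 2)` by the last inequality of `exists_params` (exactly as for `W3` in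
`block_upper'`). All polynomial factors are absorbed (`UB.log_small`): the sum is at most
`exp ((1 - δ) i log 2)` for large `i`. (`Zs ≤ Z` holds as `Z' ≤ 2^i`.) -/
def St_BLK : Prop := StmtS → ∀ C ζ : ℝ, 0 < C → 0 < ζ → ζ < 1 →
  C < 2 / Real.log (4 / 3) + (1 - ζ / 2) / Real.log (3 / 2) →
  ∃ δ : ℝ, 0 < δ ∧ δ < 1 ∧ ∃ i0 : ℕ, ∀ i : ℕ, i0 ≤ i → ∀ q : ℕ,
    ((Lb i ⌊C * Real.log 2 * (i + 1)⌋₊ q (Real.exp ((1 - ζ) * (i * Real.log 2)))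
      (Real.exp ((1 - ζ / 2) * (i * Real.log 2)))).card : ℝ) ≤
      Real.exp ((1 - δ) * (i * Real.log 2))

/-- [DSC] Descent in the free range: after `q ≥ η i` steps most elements of the block are below
`2^((1 - η/20) i)`.

Proof. By `EX.iter_le`, `T^q n ≤ 4 2^(i-q) 3^(od q n)`. With `Y = exp ((1 - η/20) i log 2)` the number
is at most `∑_(n ∈ B i) √(T^q n / Y) ≤ 2 (2^(i-q) / Y)^(1/2) ∑_(n ∈ B i) (√3)^(od q n)`, and the sum is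
`2^(i-q) (1 + √3)^q` (`EX.sum_block_pow`). As `(1 + √3) = ρ 2 √2` this is
`2 2^i (2^i / Y)^(1/2) ρ^q = 2 2^i exp ((η/40) i log 2) ρ^q`, and `ρ^q ≤ exp (-(3/100) η i)` ([FB]);
`(log 2)/40 ≤ .0174`, so the number is at most `2 2^i exp (-.012 η i)`; take `δ = η / 100`
(`δ log 2 ≤ .007 η`) and `i0` with `2 ≤ exp (.005 η i0)`. -/
def St_DSC : Prop := ∀ η : ℝ, 0 < η → η ≤ 1 → ∃ δ : ℝ, 0 < δ ∧ δ < 1 ∧ ∃ i0 : ℕ, ∀ i : ℕ, i0 ≤ i →
  ∀ q : ℕ, η * i ≤ q → q ≤ i →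
    (((B i).filter fun n => Real.exp ((1 - η / 20) * (i * Real.log 2)) <
      ((T3^[q] n : ℕ) : ℝ)).card : ℝ) ≤ Real.exp ((1 - δ) * (i * Real.log 2))

/-- [LTB] Late times in one block.

Proof. `η₀ = min (1/2, …)` so small that `C < 2 / log (4/3) + (1 - ζ₀/2) / log (3/2)` for
`ζ₀ = η₀ log 2 / 20`. Let `0 < η ≤ η₀`, `η' = η log 2 ≤ 1/2`, `ζ = η' / 20`, `q = ⌈η' i⌉₊ ≤ i` for `i ≥ 2`.
Let `n ∈ B i`, `η log n ≤ k ≤ C log n`, `n ≤ T^k n`. Then `k ≥ η i log 2`, so `k ≥ q`;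
`k ≤ K = ⌊C log 2 (i+1)⌋₊`; `T^k n ≥ 2^i ≥ exp ((1 - ζ/2) i log 2)`. Either
`T^q n > exp ((1 - ζ) i log 2)`: [DSC] for `η'`; or `n ∈ Lb i K q ...`: [BLK]. The sum of the two bounds
is `≤ exp ((1 - δ) i log 2)` for `δ` = half the minimum of the two `δ`s and large `i`. -/
def St_LTB : Prop := StmtS → ∀ C : ℝ, 0 < C → C < Hz → ∃ η₀ : ℝ, 0 < η₀ ∧ ∀ η : ℝ, 0 < η → η ≤ η₀ →
  ∃ δ : ℝ, 0 < δ ∧ δ < 1 ∧ ∃ i0 : ℕ, ∀ i : ℕ, i0 ≤ i →
    (((B i).filter fun n : ℕ => ∃ k : ℕ, η * Real.log n ≤ k ∧ (k : ℝ) ≤ C * Real.log n ∧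
      n ≤ T3^[k] n).card : ℝ) ≤ Real.exp ((1 - δ) * (i * Real.log 2))

/-- [LTX] From blocks to all integers (general).

Proof. As in `EX.upper_of_block`: `Icc 1 x` is contained in the union of the blocks `B i`,
`i ≤ I = Nat.log 2 x`. Blocks with `i < i0` have at most `2^i0` elements. The others have at most
`exp ((1 - δ) I log 2) ≤ x^(1 - δ)` elements with the property. The sum is at most
`(I + 1)(2^i0 + 1) x^(1 - δ) ≤ x^(1 - δ/2)` for large `x`. -/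
def St_LTX : Prop := ∀ (P : ℕ → Prop) (δ : ℝ), 0 < δ → δ < 1 → (∃ i0 : ℕ, ∀ i : ℕ, i0 ≤ i →
    (((B i).filter P).card : ℝ) ≤ Real.exp ((1 - δ) * (i * Real.log 2))) →
  ∀ᶠ x : ℕ in atTop, (((Icc 1 x).filter P).card : ℝ) ≤ (x : ℝ) ^ (1 - δ / 2)

end Pool.Agent.LIM
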